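import Pool.Agent.Helper2_Pak.Inst

/-!
# Casts from rational to real parameters
-/

namespace Pool.Agent.Helper2_Pak

theorem cast_hh (t : ℚ) : ((hh t : ℚ) : ℝ) = hh (t : ℝ) := by
  unfold hh
  push_cast
  rfl

theorem Lay.cast_D (G : Lay) (t : ℚ) (c r : ℕ) : ((G.D t c r : ℚ) : ℝ) = G.D (t : ℝ) c r := by
  unfold Lay.D
  push_cast
  rfl

theorem Lay.cast_nh (G : Lay) (t : ℚ) (c r : ℕ) : ((G.nh t c r : ℚ) : ℝ) = G.nh (t : ℝ) c r := by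
  unfold Lay.nh
  split
  · push_cast [G.cast_D]
    rfl
  · push_cast
    rfl

theorem Lay.cast_fl (G : Lay) (t : ℚ) (c : ℕ) : ((G.fl t c : ℚ) : ℝ) = G.fl (t : ℝ) c := by
  unfold Lay.fl
  push_cast [G.cast_nh]
  rfl

theorem Lay.cast_ce (G : Lay) (t : ℚ) (c : ℕ) : ((G.ce t c : ℚ) : ℝ) = G.ce (t : ℝ) c := by
  unfold Lay.ce
  split <;> push_cast [G.cast_nh] <;> rfl

theorem Lay.cast_rw (G : Lay) (t : ℚ) (X r : ℕ) : ((G.rw t X r : ℚ) : ℝ) = G.rw (t : ℝ) X r := by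
  unfold Lay.rw
  push_cast [G.cast_D]
  rfl

theorem cast_tipQ (t : ℚ) (σ : Bool) : ((tipQ t σ : ℚ) : ℝ) = tipH (t : ℝ) σ := by
  unfold tipQ tipH
  split <;> push_cast <;> rfl

theorem cast_eQ (σ : Bool) : ((eQ σ : ℚ) : ℝ) = eL σ := by
  unfold eQ eL
  split <;> push_cast <;> rfl

theorem cast_half (m : ℕ) : (((1 / 2 : ℚ) ^ m : ℚ) : ℝ) = (1 / 2 : ℝ) ^ m := by
  push_cast
  rfl

end Pool.Agent.Helper2_Pak
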