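import Pool.Agent.Helper2_Pak.Stmts

/-!
# PAK1 module G1: numerical facts on the layout
-/

namespace Pool.Agent.Helper2_Pak.H2

open Pool.Agent.Helper2_Pak

theorem h_le (k : Kind) : k.h ≤ 5 := by cases k <;> simp [Kind.h]

theorem N_pos (G : Lay) : 1 ≤ G.N := by unfold Lay.N; omega

theorem top_ge (G : Lay) (c : ℕ) : G.N ≤ G.top c := by unfold Lay.top; omega

theorem top_le (G : Lay) (c : ℕ) : G.top c ≤ G.N + 5 := by
  have := h_le (G.kd c)
  unfold Lay.top; omega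

theorem card_eq (G : Lay) : G.K = (∑ c : Fin G.M, G.top c) +
    Fintype.card {c : Fin G.M // (G.kd c).isL = true} := by
  unfold Lay.K
  rw [Fintype.card_sum, Fintype.card_sigma]
  simp

theorem M_le_K (G : Lay) : G.M ≤ G.K := by
  rw [card_eq]
  have h : ∑ c : Fin G.M, 1 ≤ ∑ c : Fin G.M, G.top c :=
    Finset.sum_le_sum fun c _ => (N_pos G).trans (top_ge G c)
  simp at h
  omega

theorem top_le_K (G : Lay) {c : ℕ} (hc : c < G.M) : G.top c ≤ G.K := by
  rw [card_eq]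
  have h : G.top c ≤ ∑ c : Fin G.M, G.top c :=
    Finset.single_le_sum (f := fun c : Fin G.M => G.top c) (fun _ _ => Nat.zero_le _)
      (Finset.mem_univ (⟨c, hc⟩ : Fin G.M))
  omega

theorem dr_le (G : Lay) (c r : ℕ) : (G.dr c r).1 ≤ G.M ∧ (G.dr c r).2 ≤ G.M ∧
    (G.dr c r).1 ≤ c ∧ (G.dr c r).2 ≤ c := by
  induction c with
  | zero => simp [Lay.dr]
  | succ c ih =>
    rw [Lay.dr]
    by_cases hp : G.pres c r = true
    · have hc : c < G.M := by
        unfold Lay.pres at hp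
        simp at hp
        exact hp.1
      rw [if_pos hp]
      refine ⟨?_, ?_, ?_, ?_⟩ <;> dsimp only <;> split <;> omega
    · rw [if_neg hp]
      simp

section

variable {t : ℝ} {G : Lay}

theorem t_le (hs : Small t G) : t ≤ 1 / 2 ^ 120 := by
  have h1 := hs.pos
  have h2 := hs.small
  have h3 : t * 2 ^ 120 ≤ t * 2 ^ (32 * G.K + 120) :=
    mul_le_mul_of_nonneg_left (pow_le_pow_right₀ (by norm_num) (by omega)) h1.le
  rw [le_div_iff₀ (by positivity)]
  linarith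

theorem Kt_le (hs : Small t G) : G.K * t ≤ 1 / 2 ^ 100 := by
  have h1 := hs.pos
  have h2 := hs.small
  have h4 : (G.K : ℝ) ≤ 2 ^ (32 * G.K) := by
    have h5 : G.K < 2 ^ G.K := Nat.lt_two_pow_self
    have h6 : 2 ^ G.K ≤ 2 ^ (32 * G.K) := Nat.pow_le_pow_right (by norm_num) (by omega)
    exact_mod_cast (h5.le.trans h6)
  have h7 : t * 2 ^ (32 * G.K + 120) = t * 2 ^ (32 * G.K) * 2 ^ 120 := by rw [pow_add]; ring
  rw [h7] at h2
  have h8 : G.K * t ≤ t * 2 ^ (32 * G.K) := by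
    rw [mul_comm]
    exact mul_le_mul_of_nonneg_left h4 h1.le
  rw [le_div_iff₀ (by positivity)]
  have h9 : (2 : ℝ) ^ 100 ≤ 2 ^ 120 := pow_le_pow_right₀ (by norm_num) (by norm_num)
  have h10 : 0 ≤ G.K * t := by positivity
  calc G.K * t * 2 ^ 100 ≤ G.K * t * 2 ^ 120 := mul_le_mul_of_nonneg_left h9 h10
    _ ≤ t * 2 ^ (32 * G.K) * 2 ^ 120 := mul_le_mul_of_nonneg_right h8 (by positivity)
    _ ≤ 1 := h2

theorem t_pows (hs : Small t G) : t ^ 2 ≤ t / 1000 ∧ t ^ 3 ≤ t ^ 2 / 1000 ∧ t ^ 4 ≤ t ^ 3 / 1000 ∧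
    t ^ 8 ≤ t ^ 4 := by
  have h1 := hs.pos
  have h2 : t ≤ 1 / 1000 := (t_le hs).trans (by norm_num)
  refine ⟨?_, ?_, ?_, ?_⟩
  · rw [pow_two]
    have := mul_le_mul_of_nonneg_left h2 h1.le
    linarith
  · have := mul_le_mul_of_nonneg_left h2 (by positivity : (0 : ℝ) ≤ t ^ 2)
    have e : t ^ 3 = t ^ 2 * t := by ring
    rw [e]
    linarith
  · have := mul_le_mul_of_nonneg_left h2 (by positivity : (0 : ℝ) ≤ t ^ 3)
    have e : t ^ 4 = t ^ 3 * t := by ring
    rw [e]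
    linarith
  · exact pow_le_pow_of_le_one h1.le (by linarith) (by norm_num)

theorem D_le (hs : Small t G) (c r : ℕ) : 0 ≤ G.D t c r ∧ G.D t c r ≤ t / 1000 := by
  have h1 := hs.pos
  obtain ⟨d1, d2, -, -⟩ := dr_le G c r
  have hK := M_le_K G
  have e1 : ((G.dr c r).1 : ℝ) ≤ G.K := by exact_mod_cast d1.trans hK
  have e2 : ((G.dr c r).2 : ℝ) ≤ G.K := by exact_mod_cast d2.trans hK
  have hKt := Kt_le hs
  obtain ⟨p2, p3, -, -⟩ := t_pows hs
  have hK0 : (0 : ℝ) ≤ G.K := by positivity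
  unfold Lay.D
  refine ⟨by positivity, ?_⟩
  have a1 : ((G.dr c r).1 : ℝ) * t ^ 2 ≤ G.K * t ^ 2 := mul_le_mul_of_nonneg_right e1 (by positivity)
  have a2 : ((G.dr c r).2 : ℝ) * t ^ 3 ≤ G.K * t ^ 3 := mul_le_mul_of_nonneg_right e2 (by positivity)
  have a3 : G.K * t ^ 3 ≤ G.K * t ^ 2 := mul_le_mul_of_nonneg_left (by nlinarith) hK0
  have a4 : G.K * t ^ 2 = G.K * t * t := by ring
  have a5 : G.K * t * t ≤ 1 / 2 ^ 100 * t := mul_le_mul_of_nonneg_right hKt h1.le
  norm_num at a5 ⊢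
  linarith

theorem nh_near (hs : Small t G) (c r : ℕ) : |G.nh t c r - 1| ≤ 2 * t ^ 2 := by
  have h1 := hs.pos
  obtain ⟨p2, p3, p4, -⟩ := t_pows hs
  obtain ⟨D0, D1⟩ := D_le hs c r
  have hsg : (G.sg c : ℝ) = 1 ∨ (G.sg c : ℝ) = -1 := by
    unfold Lay.sg
    split <;> simp
  have ht : t ≤ 1 / 1000 := (t_le hs).trans (by norm_num)
  have q2 : 0 ≤ t ^ 2 := by positivity
  have q4 : 0 ≤ t ^ 4 := by positivity
  have b1 : 0 ≤ t ^ 4 * (G.D t c r + t ^ 2 / 2) := by positivity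
  have b2 : t ^ 4 * (G.D t c r + t ^ 2 / 2) ≤ t ^ 4 * 1 :=
    mul_le_mul_of_nonneg_left (by linarith) q4
  unfold Lay.nh
  rw [abs_le]
  split
  · rcases hsg with h | h <;> rw [h] <;> constructor <;> linarith
  · constructor <;> linarith

theorem sum_nh (hs : Small t G) {c r : ℕ} (hc : c < G.M) (hr : r ≤ G.top c) :
    |(∑ j ∈ Finset.range r, G.nh t c j) - r| ≤ t / 1000 := by
  have h1 := hs.pos
  have hK := Kt_le hs
  have e : (∑ j ∈ Finset.range r, G.nh t c j) - r = ∑ j ∈ Finset.range r, (G.nh t c j - 1) := by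
    rw [Finset.sum_sub_distrib]
    simp
  rw [e]
  have h2 : |∑ j ∈ Finset.range r, (G.nh t c j - 1)| ≤ ∑ j ∈ Finset.range r, 2 * t ^ 2 :=
    (Finset.abs_sum_le_sum_abs _ _).trans (Finset.sum_le_sum fun j _ => nh_near hs c j)
  rw [Finset.sum_const, Finset.card_range, nsmul_eq_mul] at h2
  have h3 : (r : ℝ) ≤ G.K := by exact_mod_cast hr.trans (top_le_K G hc)
  have h4 : (r : ℝ) * (2 * t ^ 2) ≤ G.K * (2 * t ^ 2) := mul_le_mul_of_nonneg_right h3 (by positivity)
  have h5 : G.K * (2 * t ^ 2) = G.K * t * (2 * t) := by ring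
  have h6 : G.K * t * (2 * t) ≤ 1 / 2 ^ 100 * (2 * t) := mul_le_mul_of_nonneg_right hK (by positivity)
  norm_num at h6
  linarith

end

theorem g1 : G1Stmt := by
  intro t G hG hs
  have h1 := hs.pos
  obtain ⟨p2, p3, p4, p8⟩ := t_pows hs
  have ht : t ≤ 1 / 1000 := (t_le hs).trans (by norm_num)
  refine ⟨t_le hs, Kt_le hs, ?_, ?_, ?_, ?_⟩
  · have := M_le_K G
    have := hG.M_pos
    omega
  · intro c r
    obtain ⟨D0, D1⟩ := D_le hs c r
    unfold Lay.rw
    refine ⟨D0, by linarith, by linarith, by positivity⟩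
  · intro c hc
    have a1 := sum_nh hs hc (top_ge G c)
    have a2 := sum_nh hs hc le_rfl
    rw [abs_le] at a1 a2
    have e : (∑ r ∈ Finset.range G.N, G.nh t c r) + ∑ r ∈ Finset.Ico G.N (G.top c), G.nh t c r =
        ∑ r ∈ Finset.range (G.top c), G.nh t c r := by
      rw [Finset.range_eq_Ico, Finset.range_eq_Ico]
      exact Finset.sum_Ico_consecutive _ (Nat.zero_le _) (top_ge G c)
    constructor
    · unfold Lay.fl
      rw [abs_le]
      constructor <;> linarith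
    · obtain ⟨o1, o2⟩ := hG.off c
      have o1' : (-1 : ℝ) ≤ ((G.kd c).off : ℝ) := by exact_mod_cast o1
      have o2' : ((G.kd c).off : ℝ) ≤ 1 := by exact_mod_cast o2
      have q8 : 0 < t ^ 8 := by positivity
      have q4 : 0 < t ^ 4 := by positivity
      have b1 : -t ^ 4 ≤ (if (G.kd c).isL || (G.kd c).isR then t ^ 4 else ((G.kd c).off : ℝ) * t ^ 8) := by
        split
        · linarith
        · nlinarith
      have b2 : (if (G.kd c).isL || (G.kd c).isR then t ^ 4 else ((G.kd c).off : ℝ) * t ^ 8) ≤ t ^ 4 := by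
        split
        · linarith
        · nlinarith
      unfold Lay.ce
      rw [abs_le]
      constructor <;> linarith
  · intro c r hc hr
    have := sum_nh hs hc hr
    linarith

end Pool.Agent.Helper2_Pak.H2
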