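import Pool.Agent.Helper2_Pak.StmtsK
import Pool.Agent.Helper2_Pak.G1

/-!
# PAK1 module K9: completeness
-/

namespace Pool.Agent.Helper2_Pak.H2

open Pool.Agent.Helper2_Pak
open Pool.Agent.Helper2_Pack (Motion)

theorem isL_eq {k : Kind} (h : k.isL = true) : ∃ σ, k = .pL σ := by
  cases k <;> simp [Kind.isL] at h
  exact ⟨_, rfl⟩

theorem pres_of {G : Lay} (p : Σ c : Fin G.M, Fin (G.top c)) : G.pres p.1 p.2 = true := by
  unfold Lay.pres
  simp [p.1.2, p.2.2]

theorem k9 (h1 : K1Stmt) (h2 : K2Stmt) (h3 : K3Stmt) (h5 : K5Stmt) (h7 : K7Stmt) (h8 : K8Stmt) :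
    K9Stmt := by
  intro t G x hG hs hx
  have ht := hs.pos
  have ht120 := t_le hs
  have ht1 : t ≤ 1 / 1000 := ht120.trans (by norm_num)
  have ht60 : t ≤ 1 / 2 ^ 60 := ht120.trans (by norm_num)
  obtain ⟨a1, a2, a3, a4, a5, a6, a7⟩ := h5 t G x hG hs hx
  have b7 := h7 t G x hG hs hx
  obtain ⟨L, hL⟩ := h8 t G x hG hs hx
  set g : ℕ → ℕ → Motion := fun c r => mk (G.ori c r) (G.ctr t x c r) with hg
  -- the tiles of the array
  have hcc : ∀ c r r' : ℕ, G.pres c r = true → G.pres c r' = true → r < r' →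
      Disjoint (interior (tile t (g c r))) (interior (tile t (g c r'))) := by
    intro c r r' hp hp' hr
    obtain ⟨p1, p2, -⟩ := a1 c r hp
    obtain ⟨q1, q2, -⟩ := a1 c r' hp'
    rw [abs_le] at p1 p2 q1 q2
    rcases Nat.lt_or_ge (r + 1) r' with h | h
    · refine h3 t _ _ _ _ ht ht60 (Or.inr (Or.inr ?_))
      have h' : (r : ℝ) + 2 ≤ r' := by exact_mod_cast h
      rw [le_abs]
      left
      linarith [p2.1, p2.2, q2.1, q2.2]
    · obtain rfl : r' = r + 1 := by omega
      refine h1 t _ _ _ _ ht ht60 ?_ ?_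
      · rw [abs_le]
        constructor <;> linarith [p1.1, p1.2, q1.1, q1.2]
      · rcases a4 c r hp' with ⟨e1, e2⟩ | ⟨e1, e2⟩ | ⟨e1, e2⟩
        · left
          refine ⟨?_, e2.ge⟩
          simp only [List.mem_cons, List.not_mem_nil, or_false] at e1 ⊢
          rcases e1 with e | e | e | e <;> simp [e]
        · right; right; left
          exact ⟨e1, e2.ge⟩
        · right; right; right
          exact ⟨e1, e2.ge⟩
  have hcc' : ∀ c r c' r' : ℕ, G.pres c r = true → G.pres c' r' = true → c < c' →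
      Disjoint (interior (tile t (g c r))) (interior (tile t (g c' r'))) := by
    intro c r c' r' hp hp' hc
    obtain ⟨p1, p2, -⟩ := a1 c r hp
    obtain ⟨q1, q2, -⟩ := a1 c' r' hp'
    rw [abs_le] at p1 p2 q1 q2
    rcases Nat.lt_or_ge (c + 1) c' with h | h
    · refine h3 t _ _ _ _ ht ht60 (Or.inr (Or.inl ?_))
      have h' : (c : ℝ) + 2 ≤ c' := by exact_mod_cast h
      rw [le_abs]
      left
      linarith [p1.1, p1.2, q1.1, q1.2]
    · obtain rfl : c' = c + 1 := by omega
      push_cast at q1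
      rcases lt_trichotomy r r' with h | rfl | h
      · have h' : (r : ℝ) + 1 ≤ r' := by exact_mod_cast h
        refine h3 t _ _ _ _ ht ht60 (Or.inl ⟨?_, ?_⟩)
        · rw [le_abs]
          left
          linarith [p1.1, p1.2, q1.1, q1.2]
        · rw [le_abs]
          left
          linarith [p2.1, p2.2, q2.1, q2.2]
      · obtain ⟨e1, e2⟩ := a5 c r hp hp'
        refine h2 t _ _ _ _ ht ht60 ?_ e1 e2.ge
        rw [abs_le]
        constructor <;> linarith [p2.1, p2.2, q2.1, q2.2]
      · have h' : (r' : ℝ) + 1 ≤ r := by exact_mod_cast h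
        refine h3 t _ _ _ _ ht ht60 (Or.inl ⟨?_, ?_⟩)
        · rw [le_abs]
          left
          linarith [p1.1, p1.2, q1.1, q1.2]
        · rw [le_abs]
          right
          linarith [p2.1, p2.2, q2.1, q2.2]
  have harr : ∀ c r c' r' : ℕ, G.pres c r = true → G.pres c' r' = true → (c ≠ c' ∨ r ≠ r') →
      Disjoint (interior (tile t (g c r))) (interior (tile t (g c' r'))) := by
    intro c r c' r' hp hp' hne
    rcases lt_trichotomy c c' with h | rfl | h
    · exact hcc' c r c' r' hp hp' h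
    · rcases lt_trichotomy r r' with h | rfl | h
      · exact hcc c r r' hp hp' h
      · exact absurd hne (by simp)
      · exact (hcc c r' r hp' hp h).symm
    · exact (hcc' c' r' c r hp' hp h).symm
  have hlev : ∀ c c' : ℕ, c < G.M → c' < G.M → (G.kd c).isL = true → (G.kd c').isL = true →
      c < c' → Disjoint (interior (tile t (L c))) (interior (tile t (L c'))) := by
    intro c c' hc hc' hLc hLc' hcc
    obtain ⟨σ, hσ⟩ := isL_eq hLc
    obtain ⟨-, hR⟩ := hG.portL c σ hc hσ
    have h2 : c + 1 ≠ c' := by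
      rintro rfl
      rw [hR] at hLc'
      simp [Kind.isL] at hLc'
    have h' : (c : ℝ) + 2 ≤ c' := by exact_mod_cast (by omega : c + 2 ≤ c')
    rw [Set.disjoint_left]
    intro z hz hz'
    have e1 := ((hL c hc hLc).2.1 z (interior_subset hz)).2.2
    have e2 := ((hL c' hc' hLc').2.1 z (interior_subset hz')).2.1
    linarith
  refine ⟨⟨fun i => match i with
    | .inl p => g p.1 p.2
    | .inr c => L c.1, ?_, ?_⟩⟩
  · rintro (p | c)
    · exact b7 _ _ (pres_of p)
    · exact (hL c.1 c.1.2 c.2).1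
  · rintro (p | c) (p' | c') hne
    · refine harr _ _ _ _ (pres_of p) (pres_of p') ?_
      by_contra hcon
      rw [not_or, not_not, not_not] at hcon
      apply hne
      obtain ⟨⟨c, hc⟩, ⟨r, hr⟩⟩ := p
      obtain ⟨⟨c', hc'⟩, ⟨r', hr'⟩⟩ := p'
      obtain ⟨e1, e2⟩ := hcon
      simp only at e1 e2
      subst e1
      subst e2
      rfl
    · exact (hL c'.1 c'.1.2 c'.2).2.2 _ _ (pres_of p)
    · exact ((hL c.1 c.1.2 c.2).2.2 _ _ (pres_of p')).symm
    · rcases lt_trichotomy (c.1 : ℕ) c'.1 with h | h | h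
      · exact hlev _ _ c.1.2 c'.1.2 c.2 c'.2 h
      · exact absurd (congrArg Sum.inr (Subtype.ext (Fin.ext h))) hne
      · exact (hlev _ _ c'.1.2 c.1.2 c'.2 c.2 h).symm

end Pool.Agent.Helper2_Pak.H2
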