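import Pool.Agent.Helper2_Pak.StmtsT
import Pool.Agent.Helper55_Pack.Time
import Pool.Agent.Helper91_Pack.LayGen

/-!
# PAK1 module TIME: the instance can be written down in polynomial time
-/

namespace Pool.Agent.Helper2_Pak.H2

open Pool.Agent.Helper2_Pak
open Pool.Agent.Helper2_Pack (CL uu encPolygon Instance.enc WInst SLetter SInst Letter Polygon encRat
  sysOfWord Instance)
open Pool.Agent.Helper53_CookLevin Pool.Agent.Helper53_Chan Pool.Agent.Helper32_Poly Turing
open Pool.Agent.Helper91_Pack (NG FG SG loopN pup sg_first)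
open Pool.Agent.Helper55_Pack (toL toL_map getLeft_map)

theorem encPolygon_dPoly (h1 : T1Stmt) {m : ℕ} (hm : 60 ≤ m) {L : List DP} (hL : OKs m L) :
    encPolygon (dPoly m L) = dWord m L ++ [.stop] := by
  unfold encPolygon dPoly dWord
  rw [List.flatMap_map]
  congr 1
  refine List.flatMap_congr fun d hd => ?_
  rw [h1 m d.1 hm (hL d hd).1, h1 m d.2 hm (hL d hd).2]

theorem ng_mOf1 : NG 1 (fun ρ : Fin 1 → List CL => mOf1 (ρ 0).length) := by
  have h1 : NG 1 (fun ρ : Fin 1 → List CL => (ρ 0).length) := NG.len (PGen.var 0)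
  have h2 := NG.add (NG.mul (NG.const 4) h1) (NG.const 3)
  have h3 := NG.add (NG.mul (NG.const 4) h1) (NG.const 16)
  have h4 := NG.add h1 (NG.const 8)
  refine NG.congr (NG.add (NG.add (NG.mul (NG.mul (NG.const 32) (NG.mul (NG.const 7) h2)) h3)
    (NG.mul (NG.const 512) (NG.mul h4 h4))) (NG.const 512)) (fun ρ => ?_)
  unfold mOf1
  ring

theorem mOf1_ge (l : ℕ) : 60 ≤ mOf1 l := by
  unfold mOf1
  omega

theorem lg_const (k : ℕ) (w : List Letter) : LG k (fun _ => w) := PGen.const _

theorem lg_append {k : ℕ} {w w' : (Fin k → List CL) → List Letter} (h : LG k w) (h' : LG k w') :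
    LG k (fun ρ => w ρ ++ w' ρ) := by
  refine PGen.congr (PGen.append h h') (fun ρ => ?_)
  rw [List.map_append]

theorem lg_rep {k : ℕ} {w : (Fin k → List CL) → List Letter} {e : (Fin k → List CL) → ℕ}
    (h : LG k w) (he : NG k e) : LG k (fun ρ => (List.replicate (e ρ) ()).flatMap fun _ => w ρ) := by
  refine PGen.congr (loopN he (K := fun _ ρ => (w ρ).map Sum.inr) (pup h)) (fun ρ => ?_)
  rw [← List.map_flatMap]
  congr 1
  beta_reduce
  generalize e ρ = n
  induction n with
  | zero => rfl
  | succ n ih => rw [List.range_succ, List.flatMap_append, ih, List.replicate_succ',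
      List.flatMap_append]; rfl

theorem time (h1 : T1Stmt) (h2 : T2Stmt) (h7 : T7Stmt) (h8 : T8Stmt) (h9 : T9Stmt)
    (h10 : T10Stmt) (hL : TLStmt) (h5 : Helper2_Pack.T5Stmt) : TimeStmt := by
  obtain ⟨Ls, hLs⟩ := h2
  obtain ⟨D8, hD8, hW8⟩ := h8
  obtain ⟨D9, hD9, hW9⟩ := h9
  refine ⟨fun S => mOf1 S.1.enc.length, fun S => (h7 S.1 S.2).1, ?_⟩
  let _ : Inhabited CL := ⟨Sum.inl .tick⟩
  have c1 : TM2ComputableInPolyTime (fun S : WInst => S.1.enc) (id : List CL → List CL)
      (fun S => S.1.enc.map Sum.inl) :=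
    morphComputable (fun S : WInst => S.1.enc) id _ [] (fun b => [Sum.inl b]) (fun S => by
      change S.1.enc.map Sum.inl = [] ++ S.1.enc.flatMap (fun b => [Sum.inl b])
      rw [List.nil_append]
      induction S.1.enc with
      | nil => rfl
      | cons b x ih => rw [List.map_cons, List.flatMap_cons, ih]; rfl)
  -- the word of the shape
  have hsh : WG 1 (fun ρ : Fin 1 → List CL => mOf1 (ρ 0).length) (fun _ => Ls) := by
    have h := (hL 1 _ ng_mOf1).1 (Ls.map fun d => fun _ => d) (by
      intro p hp j _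
      rw [List.mem_map] at hp
      obtain ⟨d, -, rfl⟩ := hp
      exact ⟨NG.const _, NG.const _⟩)
    have e : (fun ρ : Fin 1 → List CL => (Ls.map fun d => fun (_ : Fin 1 → List CL) => d).map
        fun p => p ρ) = fun _ => Ls := by
      funext ρ
      rw [List.map_map]
      exact List.map_id'' (fun _ => rfl) _
    rw [e] at h
    exact h
  have hall : LG 1 (fun ρ : Fin 1 → List CL =>
      ((dWord (mOf1 (ρ 0).length) (D8 (sysA ρ)) ++ dWord (mOf1 (ρ 0).length) (D9 (sysA ρ))) ++
        [.stop]) ++ (List.replicate (lay (sysA ρ)).K ()).flatMap fun _ =>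
          (dWord (mOf1 (ρ 0).length) Ls ++ [.stop])) :=
    lg_append (lg_append (lg_append hW8 hW9) (lg_const _ _))
      (lg_rep (lg_append hsh (lg_const _ _)) h10)
  obtain ⟨c2⟩ := pgen_computable _ hall
  have c3 : TM2ComputableInPolyTime (id : List CL → List CL) (fun w : List Letter => w)
      (fun w => w.flatMap toL) :=
    morphComputable id (fun w => w) _ [] toL (fun w => by
      rw [List.nil_append]
      rfl)
  obtain ⟨c4⟩ := TM2ComputableInPolyTime.comp c1 c2
  obtain ⟨c5⟩ := TM2ComputableInPolyTime.comp c4 c3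
  refine ⟨⟨c5.toTM2ComputableAux, c5.time, fun S => ?_⟩⟩
  have h := c5.outputsFun S
  have hsys : sysA (![S.1.enc.map Sum.inl] : Fin 1 → List CL) = S.1 := by
    unfold sysA
    rw [show (![S.1.enc.map Sum.inl] : Fin 1 → List CL) 0 = S.1.enc.map Sum.inl from rfl,
      getLeft_map]
    exact h5 S.1 S.2
  have hm : 60 ≤ mOf1 S.1.enc.length := mOf1_ge _
  have e : ((fun w : List CL => w.flatMap toL) (((((dWord (mOf1 (S.1.enc.map
      (Sum.inl : SLetter → CL)).length)
        (D8 (sysA (![S.1.enc.map Sum.inl] : Fin 1 → List CL))) ++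
        dWord (mOf1 (S.1.enc.map (Sum.inl : SLetter → CL)).length)
          (D9 (sysA (![S.1.enc.map Sum.inl] : Fin 1 → List CL)))) ++
        [Letter.stop]) ++ (List.replicate (lay (sysA (![S.1.enc.map Sum.inl] : Fin 1 → List CL))).K
          ()).flatMap fun _ =>
          (dWord (mOf1 (S.1.enc.map (Sum.inl : SLetter → CL)).length) Ls ++ [Letter.stop]))).map
            Sum.inr)) =
      (inst (mOf1 S.1.enc.length) (lay S.1)).enc := by
    beta_reduce
    rw [toL_map, hsys, List.length_map]
    obtain ⟨-, hT⟩ := h7 S.1 S.2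
    obtain ⟨o8, e8⟩ := hD8 S.1 _ S.2 hm hT
    obtain ⟨o9, e9⟩ := hD9 S.1 _ S.2 hm hT
    obtain ⟨os, es⟩ := hLs _ hm
    unfold inst Instance.enc
    have e10 : translate (shift (lay S.1).T ((1 / 2) ^ mOf1 S.1.enc.length))
        ((lay S.1).contPoly ((1 / 2) ^ mOf1 S.1.enc.length)) =
        dPoly (mOf1 S.1.enc.length) (D8 S.1 ++ D9 S.1) := by
      have : translate (shift (lay S.1).T ((1 / 2) ^ mOf1 S.1.enc.length))
        ((lay S.1).contPoly ((1 / 2) ^ mOf1 S.1.enc.length)) =
        translate (shift (lay S.1).T ((1 / 2) ^ mOf1 S.1.enc.length))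
          ((List.range (lay S.1).M).flatMap ((lay S.1).flPts ((1 / 2) ^ mOf1 S.1.enc.length))) ++
        translate (shift (lay S.1).T ((1 / 2) ^ mOf1 S.1.enc.length))
          ((lay S.1).wallPts ((1 / 2) ^ mOf1 S.1.enc.length) 0 ++
      (List.range (lay S.1).M).flatMap (fun c => (lay S.1).cePts ((1 / 2) ^ mOf1 S.1.enc.length) c ++
        (lay S.1).wallPts ((1 / 2) ^ mOf1 S.1.enc.length) (c + 1))).reverse := by
        unfold Lay.contPoly translate
        rw [List.map_append]
      rw [this, e8, e9]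
      unfold dPoly
      rw [List.map_append]
    rw [e10, es, encPolygon_dPoly h1 hm (by
      intro d hd
      rw [List.mem_append] at hd
      rcases hd with hd | hd
      · exact o8 d hd
      · exact o9 d hd)]
    have e11 : dWord (mOf1 S.1.enc.length) (D8 S.1 ++ D9 S.1) =
        dWord (mOf1 S.1.enc.length) (D8 S.1) ++ dWord (mOf1 S.1.enc.length) (D9 S.1) := by
      unfold dWord
      rw [List.flatMap_append]
    rw [e11]
    congr 1
    rw [← encPolygon_dPoly h1 hm os]
    generalize (lay S.1).K = n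
    induction n with
    | zero => rfl
    | succ n ih => rw [List.replicate_succ, List.flatMap_cons, List.replicate_succ,
        List.flatMap_cons, ih]
  exact e ▸ h

end Pool.Agent.Helper2_Pak.H2
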