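import Pool.Agent.Helper2_Pak.StmtsK

/-!
# PAK1 module U0: the blocks of a system
-/

namespace Pool.Agent.Helper2_Pak.H2

open Pool.Agent.Helper2_Pak Pool.Agent.Helper2_Pack

theorem srt3_spec (n x y z : ℕ) (hx : x ≤ n) (hy : y ≤ n) (hz : z ≤ n) :
    (srt3 x y z).1 ≤ (srt3 x y z).2.1 ∧ (srt3 x y z).2.1 ≤ (srt3 x y z).2.2 ∧
      (srt3 x y z).2.2 ≤ n := by
  unfold srt3
  split_ifs <;> simp only <;> omega

theorem idx_le {S : SInst} {I : List ℕ} (hI : ∀ i ∈ I, i < S.n) (j : ℕ) : idx (nR S) I j ≤ nR S := by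
  unfold idx
  split
  · rename_i h
    have h2 : I.getD j 0 ∈ I := by
      rw [List.getD_eq_getElem _ _ h]
      exact List.getElem_mem h
    have := hI _ h2
    unfold nR
    omega
  · exact le_rfl

theorem con_mem {S : SInst} {k : ℕ} (hk : k < S.cons.length) :
    S.cons.getD k (.inv 0 1) ∈ S.cons := by
  rw [List.getD_eq_getElem _ _ hk]
  exact List.getElem_mem hk

/-- the sums in a half block -/
theorem half_sum {S : SInst} (hS : S.WF) {right : Bool} {e : ℕ} (he : e < nT S) {right' : Bool}
    {a a' a'' : ℕ} {o : ℤ} (h : halfBlk S right e = .sum right' a a' a'' o) :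
    right' = right ∧ a ≤ a' ∧ a' ≤ a'' ∧ a'' ≤ nR S ∧ -1 ≤ o ∧ o ≤ 1 := by
  unfold halfBlk at h
  by_cases h1 : e < S.n
  · rw [if_pos h1] at h
    injection h with h1 h2 h3 h4 h5
    subst h1; subst h2; subst h3; subst h4; subst h5
    refine ⟨rfl, ?_, le_rfl, le_rfl, by norm_num, by norm_num⟩
    unfold nR; omega
  rw [if_neg h1] at h
  by_cases h2 : e < 2 * S.n
  · rw [if_pos h2] at h
    injection h with h1 h2 h3 h4 h5
    subst h1; subst h2; subst h3; subst h4; subst h5
    refine ⟨rfl, by omega, ?_, le_rfl, by norm_num, by norm_num⟩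
    unfold nR; omega
  rw [if_neg h2] at h
  have hk : e - 2 * S.n < S.cons.length := by unfold nT at he; omega
  have hm := con_mem hk
  have hWF := hS.2 _ hm
  generalize S.cons.getD (e - 2 * S.n) (.inv 0 1) = cc at h hm hWF
  cases cc with
  | sum I κ =>
    obtain ⟨-, -, -, hI, hκ⟩ := hWF
    have hs := srt3_spec (nR S) _ _ _ (idx_le hI 0) (idx_le hI 1) (idx_le hI 2)
    unfold conBlk sumBlk at h
    injection h with h1 h2 h3 h4 h5
    subst h1; subst h2; subst h3; subst h4; subst h5
    refine ⟨rfl, hs.1, hs.2.1, hs.2.2, ?_, ?_⟩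
    · split <;> rcases hκ with rfl | rfl | rfl <;> norm_num
    · split <;> rcases hκ with rfl | rfl | rfl <;> norm_num
  | inv i j =>
    unfold conBlk at h
    cases right
    · cases h
    · cases h

theorem half_inv {S : SInst} (hS : S.WF) {right : Bool} {e i j : ℕ} (he : e < nT S)
    (h : halfBlk S right e = .inv i j) : right = true ∧ i < j ∧ j < S.n := by
  unfold halfBlk at h
  by_cases h1 : e < S.n
  · rw [if_pos h1] at h
    cases h
  rw [if_neg h1] at h
  by_cases h2 : e < 2 * S.n
  · rw [if_pos h2] at h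
    cases h
  rw [if_neg h2] at h
  have hk : e - 2 * S.n < S.cons.length := by unfold nT at he; omega
  have hm := con_mem hk
  have hWF := hS.2 _ hm
  generalize S.cons.getD (e - 2 * S.n) (.inv 0 1) = cc at h hm hWF
  cases cc with
  | sum I κ => cases h
  | inv i' j' =>
    obtain ⟨h5, h6⟩ := hWF
    unfold conBlk at h
    cases right
    · cases h
    · injection h with h1 h2
      subst h1; subst h2
      exact ⟨rfl, h5, h6⟩

theorem blk_cases (S : SInst) (b : ℕ) : blk S b = .blank ∨
    (1 ≤ b ∧ b ≤ nT S ∧ blk S b = halfBlk S false (b - 1)) ∨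
    (nT S + 2 ≤ b ∧ b ≤ 2 * nT S + 1 ∧ blk S b = halfBlk S true (b - nT S - 2)) := by
  unfold blk
  by_cases h1 : b = 0 ∨ b = nT S + 1 ∨ 2 * nT S + 2 ≤ b
  · left
    rw [if_pos h1]
  · rw [if_neg h1]
    by_cases h2 : b ≤ nT S
    · right; left
      rw [if_pos h2]
      exact ⟨by omega, h2, rfl⟩
    · right; right
      rw [if_neg h2]
      exact ⟨by omega, by omega, rfl⟩

theorem blk_left {S : SInst} {e : ℕ} (he : e < nT S) : blk S (e + 1) = halfBlk S false e := by
  unfold blk
  rw [if_neg (by omega), if_pos (by omega)]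
  rfl

theorem blk_right {S : SInst} {e : ℕ} (he : e < nT S) :
    blk S (nT S + 2 + e) = halfBlk S true e := by
  unfold blk
  rw [if_neg (by omega), if_neg (by omega)]
  congr 1
  omega

theorem u0 : U0Stmt := by
  intro S hS
  have hc : 0 < S.cons.length := List.length_pos_of_ne_nil hS.1
  have hT : nT S = 2 * S.n + S.cons.length := rfl
  refine ⟨?_, ?_, ?_, ?_, ?_, by omega⟩
  · intro b right a a' a'' o h
    rcases blk_cases S b with h1 | ⟨h1, h2, h3⟩ | ⟨h1, h2, h3⟩
    · rw [h1] at h; cases h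
    · rw [h3] at h
      obtain ⟨rfl, k⟩ := half_sum hS (by omega) h
      exact ⟨k.1, k.2.1, k.2.2.1, k.2.2.2.1, k.2.2.2.2, by simp, fun _ => ⟨h1, h2⟩⟩
    · rw [h3] at h
      obtain ⟨rfl, k⟩ := half_sum hS (by omega) h
      exact ⟨k.1, k.2.1, k.2.2.1, k.2.2.2.1, k.2.2.2.2, fun _ => ⟨h1, h2⟩, by simp⟩
  · intro b i j h
    rcases blk_cases S b with h1 | ⟨h1, h2, h3⟩ | ⟨h1, h2, h3⟩
    · rw [h1] at h; cases h
    · rw [h3] at h
      obtain ⟨k, -⟩ := half_inv hS (by omega) h
      cases k
    · rw [h3] at h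
      obtain ⟨-, k1, k2⟩ := half_inv hS (by omega) h
      exact ⟨k1, k2, h1, h2⟩
  · intro i hi
    refine ⟨?_, ?_, ?_, ?_⟩
    · rw [blk_left (by omega)]
      unfold halfBlk
      rw [if_pos hi]
    · rw [blk_right (by omega)]
      unfold halfBlk
      rw [if_pos hi]
    · rw [blk_left (by omega)]
      unfold halfBlk
      rw [if_neg (by omega), if_pos (by omega)]
      congr 1 <;> omega
    · rw [show nT S + 2 + S.n + i = nT S + 2 + (S.n + i) by ring, blk_right (by omega)]
      unfold halfBlk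
      rw [if_neg (by omega), if_pos (by omega)]
      congr 1 <;> omega
  · intro k hk
    have e1 : 2 * S.n + k - 2 * S.n = k := by omega
    refine ⟨?_, ?_⟩
    · intro I κ h
      constructor
      · rw [blk_left (by omega)]
        unfold halfBlk
        rw [if_neg (by omega), if_neg (by omega), e1, h]
        rfl
      · rw [show nT S + 2 + 2 * S.n + k = nT S + 2 + (2 * S.n + k) by ring, blk_right (by omega)]
        unfold halfBlk
        rw [if_neg (by omega), if_neg (by omega), e1, h]
        rfl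
    · intro i j h
      rw [show nT S + 2 + 2 * S.n + k = nT S + 2 + (2 * S.n + k) by ring, blk_right (by omega)]
      unfold halfBlk
      rw [if_neg (by omega), if_neg (by omega), e1, h]
      rfl
  · intro b c hc
    have e1 : (7 * b + c) / 7 = b := by omega
    have e2 : (7 * b + c) % 7 = c := by omega
    constructor
    · show ((blk S ((7 * b + c) / 7)).col (nR S) ((7 * b + c) % 7)).1 = _
      rw [e1, e2]
    · show ((blk S ((7 * b + c) / 7)).col (nR S) ((7 * b + c) % 7)).2 = _
      rw [e1, e2]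

end Pool.Agent.Helper2_Pak.H2
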