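import Pool.Agent.Helper2_Pak.U0

/-!
# PAK1 module U2: from displacements to a solution
-/

namespace Pool.Agent.Helper2_Pak.H2

open Pool.Agent.Helper2_Pak Pool.Agent.Helper2_Pack

/-- sorting does not change the sum -/
theorem srt3_sum (f : ℕ → ℝ) (x y z : ℕ) :
    f (srt3 x y z).1 + f (srt3 x y z).2.1 + f (srt3 x y z).2.2 = f x + f y + f z := by
  unfold srt3
  split_ifs <;> simp only <;> ring

/-- the sum over the list -/
theorem idx_sum (f : ℕ → ℝ) (n : ℕ) (hn : f n = 0) (I : List ℕ) (hI : I.length ≤ 3) :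
    f (idx n I 0) + f (idx n I 1) + f (idx n I 2) = (I.map fun i => f (2 * i + 1)).sum := by
  unfold idx
  match I, hI with
  | [], _ => simp [hn]
  | [a], _ => simp [hn]
  | [a, b], _ => simp [hn]
  | [a, b, c], _ =>
    simp
    ring

theorem u2 (h0 : U0Stmt) (h2 : U2aStmt) : U2Stmt := by
  intro S t xl xr Y hS ht ht1 hw
  obtain ⟨ζ, z0, hR, hL, hI⟩ := h2 S t xl xr Y hS ht ht1 hw
  obtain ⟨-, -, hv, hc, -, -⟩ := h0 S hS
  have hneg : ∀ i, i < S.n → ζ (2 * i + 2) = -ζ (2 * i + 1) := by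
    intro i hi
    obtain ⟨-, -, e3, e4⟩ := hv i hi
    have a := hR _ _ _ _ _ e4
    have b := hL _ _ _ _ _ e3
    rw [z0] at a b
    push_cast at a b
    linarith
  have hbd : ∀ i, i < S.n → |ζ (2 * i + 1)| ≤ 1 := by
    intro i hi
    obtain ⟨e1, e2, -, -⟩ := hv i hi
    have a := hR _ _ _ _ _ e2
    have b := hL _ _ _ _ _ e1
    rw [z0] at a b
    push_cast at a b
    rw [abs_le]
    constructor <;> linarith
  refine ⟨fun i => ζ (2 * i + 1), hbd, ?_⟩
  intro c hcm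
  obtain ⟨k, hk, hkc⟩ := List.getElem_of_mem hcm
  have hgd : S.cons.getD k (.inv 0 1) = c := by
    rw [List.getD_eq_getElem _ _ hk, hkc]
  have hWF := hS.2 c hcm
  obtain ⟨hs, hi⟩ := hc k hk
  cases c with
  | sum I κ =>
    obtain ⟨e1, e2⟩ := hs I κ hgd
    unfold sumBlk at e1 e2
    have a := hR _ _ _ _ _ e2
    have b := hL _ _ _ _ _ e1
    rw [srt3_sum ζ, idx_sum ζ _ z0 I hWF.2.1] at a b
    show (I.map fun i => ζ (2 * i + 1)).sum = κ
    push_cast at b
    linarith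
  | inv i j =>
    have e := hi i j hgd
    obtain ⟨hij, hj⟩ := hWF
    have hi' : i < S.n := by omega
    have n1 := hneg i hi'
    have n2 := hneg j hj
    have b1 := hbd i hi'
    have b2 := hbd j hj
    obtain ⟨f1, f2⟩ := hI _ i j e b1 b2 (by rw [n1, abs_neg]; exact b1)
      (by rw [n2, abs_neg]; exact b2)
    rw [n1, n2] at f2
    show ζ (2 * i + 1) + ζ (2 * j + 1) + eps1 t * (ζ (2 * i + 1) * ζ (2 * j + 1)) = 0
    have e3 : -ζ (2 * i + 1) * -ζ (2 * j + 1) = ζ (2 * i + 1) * ζ (2 * j + 1) := by ring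
    rw [e3] at f2
    linarith

end Pool.Agent.Helper2_Pak.H2
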