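import Pool.Agent.Helper2_Pak.U0

/-!
# PAK1 module U4: the local rows
-/

namespace Pool.Agent.Helper2_Pak.H2

open Pool.Agent.Helper2_Pak Pool.Agent.Helper2_Pack

variable {S : SInst}

/-- the kinds of the columns of a block -/
theorem kd_col (b k : ℕ) (hk : k < 7) : (lay S).kd (7 * b + k) = ((blk S b).col (nR S) k).1 := by
  have e1 : (7 * b + k) / 7 = b := by omega
  have e2 : (7 * b + k) % 7 = k := by omega
  show ((blk S ((7 * b + k) / 7)).col (nR S) ((7 * b + k) % 7)).1 = _
  rw [e1, e2]

theorem l_col (b k : ℕ) (hk : k < 7) : (lay S).l (7 * b + k) = ((blk S b).col (nR S) k).2 := by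
  have e1 : (7 * b + k) / 7 = b := by omega
  have e2 : (7 * b + k) % 7 = k := by omega
  show ((blk S ((7 * b + k) / 7)).col (nR S) ((7 * b + k) % 7)).2 = _
  rw [e1, e2]

theorem lay_N : (lay S).N = 2 * nR S + 1 := rfl

theorem pres_local {c j : ℕ} (hc : c < (lay S).M) (hj : 1 ≤ j) :
    (lay S).pres c (2 * nR S + j) = decide (j ≤ ((lay S).kd c).h) := by
  unfold Lay.pres Lay.top
  rw [lay_N, decide_eq_true hc, Bool.true_and]
  congr 1
  apply propext
  constructor <;> intro h <;> omega

theorem spc_local {c j : ℕ} (hj : 1 ≤ j) :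
    (lay S).spc c (2 * nR S + j) = ((lay S).kd c).sp j := by
  unfold Lay.spc
  rw [lay_N, if_neg (by omega)]
  congr 1
  show 2 * nR S + j - 2 * nR S = j
  omega

theorem dr_succ (G : Lay) (c r : ℕ) : G.dr (c + 1) r = if G.pres c r then
      ((G.dr c r).1 + (if G.spc c r then 1 else 0),
        (G.dr c r).2 + (if G.pres (c + 1) r && G.pen c r then 1 else 0))
    else (0, 0) := rfl

/-- the last column of a block which is not a left sum has no local rows -/
theorem last_h {b : ℕ} (h : ∀ a a' a'' o, blk S b ≠ .sum false a a' a'' o) :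
    ((lay S).kd (7 * b + 6)).h = 0 := by
  rw [kd_col b 6 (by norm_num)]
  cases hb : blk S b with
  | blank => rfl
  | sum right a a' a'' o =>
    cases right with
    | false => exact absurd hb (h a a' a'' o)
    | true => rfl
  | inv i j => rfl

/-- the first column of a block which is not a right sum has no local rows -/
theorem first_h {b : ℕ} (h : ∀ a a' a'' o, blk S b ≠ .sum true a a' a'' o) :
    ((lay S).kd (7 * b)).h = 0 := by
  have := kd_col (S := S) b 0 (by norm_num)
  rw [Nat.add_zero] at this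
  rw [this]
  cases hb : blk S b with
  | blank => rfl
  | sum right a a' a'' o =>
    cases right with
    | true => exact absurd hb (h a a' a'' o)
    | false => rfl
  | inv i j => rfl

theorem lay_M : (lay S).M = 7 * (2 * nT S + 3) := rfl

theorem dr_first (hS : S.WF) {b : ℕ} (hb : nT S + 2 ≤ b) (hb2 : b ≤ 2 * nT S + 1) {j : ℕ}
    (hj : 1 ≤ j) : (lay S).dr (7 * b) (2 * nR S + j) = (0, 0) ∧
      (lay S).pres (7 * b - 1) (2 * nR S + j) = false := by
  obtain ⟨b', rfl⟩ : ∃ b', b = b' + 1 := ⟨b - 1, by omega⟩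
  have e : 7 * (b' + 1) = (7 * b' + 6) + 1 := by ring
  have h1 := last_h (S := S) (b := b') (by
    intro a a' a'' o h
    have := ((u0 S hS).1 _ _ _ _ _ _ h).2.2.2.2.2.2 rfl
    omega)
  have h2 : (lay S).pres (7 * b' + 6) (2 * nR S + j) = false := by
    rw [pres_local (by rw [lay_M]; omega) hj, h1]
    simp
    omega
  rw [e]
  refine ⟨?_, by simpa using h2⟩
  rw [dr_succ, h2]
  rfl

/-- the shifts in a right block -/
theorem dr_right (hS : S.WF) {b a a' a'' : ℕ} {o : ℤ} (h : blk S b = .sum true a a' a'' o) {j : ℕ}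
    (hj : j = 1 ∨ j = 3 ∨ j = 5) :
    (lay S).dr (7 * b) (2 * nR S + j) = (0, 0) ∧
    (lay S).dr (7 * b + 1) (2 * nR S + j) = (1, 1) ∧
    (lay S).dr (7 * b + 2) (2 * nR S + j) = (1, 1) ∧
    (lay S).dr (7 * b + 3) (2 * nR S + j) = (1, if j = 5 then 2 else 1) ∧
    (lay S).dr (7 * b + 4) (2 * nR S + j) = (if j = 5 then (2, 2) else if j = 3 then (1, 2)
      else (1, 1)) ∧
    (lay S).dr (7 * b + 5) (2 * nR S + j) = (if j = 5 then (0, 0) else if j = 3 then (2, 2)
      else (1, 2)) ∧
    (lay S).dr (7 * b + 6) (2 * nR S + j) = (if j = 1 then (2, 2) else (0, 0)) ∧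
    (lay S).dr (7 * b + 7) (2 * nR S + j) = (0, 0) := by
  have hb := ((u0 S hS).1 _ _ _ _ _ _ h).2.2.2.2.2.1 rfl
  have hj1 : 1 ≤ j := by omega
  obtain ⟨d0, -⟩ := dr_first hS hb.1 hb.2 hj1
  have hM : (lay S).M = 7 * (2 * nT S + 3) := rfl
  have k0 := kd_col (S := S) b 0 (by norm_num)
  have k1 := kd_col (S := S) b 1 (by norm_num)
  have k2 := kd_col (S := S) b 2 (by norm_num)
  have k3 := kd_col (S := S) b 3 (by norm_num)
  have k4 := kd_col (S := S) b 4 (by norm_num)
  have k5 := kd_col (S := S) b 5 (by norm_num)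
  have k6 := kd_col (S := S) b 6 (by norm_num)
  rw [Nat.add_zero] at k0
  rw [h] at k0 k1 k2 k3 k4 k5 k6
  simp only [Blk.col] at k0 k1 k2 k3 k4 k5 k6
  have p0 := pres_local (S := S) (c := 7 * b) (by omega) hj1
  have p1 := pres_local (S := S) (c := 7 * b + 1) (by omega) hj1
  have p2 := pres_local (S := S) (c := 7 * b + 2) (by omega) hj1
  have p3 := pres_local (S := S) (c := 7 * b + 3) (by omega) hj1
  have p4 := pres_local (S := S) (c := 7 * b + 4) (by omega) hj1
  have p5 := pres_local (S := S) (c := 7 * b + 5) (by omega) hj1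
  have p6 := pres_local (S := S) (c := 7 * b + 6) (by omega) hj1
  rw [k0] at p0
  rw [k1] at p1
  rw [k2] at p2
  rw [k3] at p3
  rw [k4] at p4
  rw [k5] at p5
  rw [k6] at p6
  have s0 := spc_local (S := S) (c := 7 * b) hj1
  have s1 := spc_local (S := S) (c := 7 * b + 1) hj1
  have s2 := spc_local (S := S) (c := 7 * b + 2) hj1
  have s3 := spc_local (S := S) (c := 7 * b + 3) hj1
  have s4 := spc_local (S := S) (c := 7 * b + 4) hj1
  have s5 := spc_local (S := S) (c := 7 * b + 5) hj1
  have s6 := spc_local (S := S) (c := 7 * b + 6) hj1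
  rw [k0] at s0
  rw [k1] at s1
  rw [k2] at s2
  rw [k3] at s3
  rw [k4] at s4
  rw [k5] at s5
  rw [k6] at s6
  have d1 := dr_succ (lay S) (7 * b) (2 * nR S + j)
  have d2 := dr_succ (lay S) (7 * b + 1) (2 * nR S + j)
  have d3 := dr_succ (lay S) (7 * b + 2) (2 * nR S + j)
  have d4 := dr_succ (lay S) (7 * b + 3) (2 * nR S + j)
  have d5 := dr_succ (lay S) (7 * b + 4) (2 * nR S + j)
  have d6 := dr_succ (lay S) (7 * b + 5) (2 * nR S + j)
  have d7 := dr_succ (lay S) (7 * b + 6) (2 * nR S + j)
  simp only [Nat.add_assoc, Nat.reduceAdd] at d1 d2 d3 d4 d5 d6 d7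
  unfold Lay.pen at d1 d2 d3 d4 d5 d6 d7
  simp only [Nat.add_assoc, Nat.reduceAdd] at d1 d2 d3 d4 d5 d6 d7
  rcases hj with rfl | rfl | rfl <;>
  · simp only [Kind.h, Kind.sp] at p0 p1 p2 p3 p4 p5 p6 s0 s1 s2 s3 s4 s5 s6
    rw [d0, p0, s0] at d1
    simp [p1, s1, k0, k1, Kind.isW] at d1
    rw [d1, p1, s1] at d2
    simp [p2, s2, k1, k2, Kind.isW] at d2
    rw [d2, p2, s2] at d3
    simp [p3, s3, k2, k3, Kind.isW] at d3
    rw [d3, p3, s3] at d4
    simp [p4, s4, k3, k4, Kind.isW] at d4
    rw [d4, p4, s4] at d5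
    simp [p5, s5, k4, k5, Kind.isW] at d5
    rw [d5, p5, s5] at d6
    simp [p6, s6, k5, k6, Kind.isW] at d6
    rw [d6, p6] at d7
    simp at d7
    simp [d0, d1, d2, d3, d4, d5, d6, d7]

/-- the first column of the next block after a left sum block has no local rows -/
theorem next_h (hS : S.WF) {b : ℕ} (hb : b ≤ nT S) : ((lay S).kd (7 * (b + 1))).h = 0 :=
  first_h (by
    intro a a' a'' o h
    have := ((u0 S hS).1 _ _ _ _ _ _ h).2.2.2.2.2.1 rfl
    omega)

/-- the shifts in a left block -/
theorem dr_left (hS : S.WF) {b a a' a'' : ℕ} {o : ℤ} (h : blk S b = .sum false a a' a'' o) {j : ℕ}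
    (hj : j = 1 ∨ j = 3 ∨ j = 5) :
    (lay S).dr (7 * b + 1) (2 * nR S + j) = (0, 0) ∧
    (lay S).dr (7 * b + 2) (2 * nR S + j) = (if j = 1 then (1, 1) else (0, 0)) ∧
    (lay S).dr (7 * b + 3) (2 * nR S + j) = (if j = 5 then (0, 0) else (1, 1)) ∧
    (lay S).dr (7 * b + 4) (2 * nR S + j) = (1, 1) ∧
    (lay S).dr (7 * b + 5) (2 * nR S + j) = (1, 1) ∧
    (lay S).dr (7 * b + 6) (2 * nR S + j) = (1, 2) ∧
    (lay S).dr (7 * b + 7) (2 * nR S + j) = (2, 2) := by
  have hb := ((u0 S hS).1 _ _ _ _ _ _ h).2.2.2.2.2.2 rfl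
  have hj1 : 1 ≤ j := by omega
  have hM : (lay S).M = 7 * (2 * nT S + 3) := rfl
  have k0 := kd_col (S := S) b 0 (by norm_num)
  have k1 := kd_col (S := S) b 1 (by norm_num)
  have k2 := kd_col (S := S) b 2 (by norm_num)
  have k3 := kd_col (S := S) b 3 (by norm_num)
  have k4 := kd_col (S := S) b 4 (by norm_num)
  have k5 := kd_col (S := S) b 5 (by norm_num)
  have k6 := kd_col (S := S) b 6 (by norm_num)
  have k7 := next_h hS hb.2
  rw [Nat.add_zero] at k0
  rw [show 7 * (b + 1) = 7 * b + 7 by ring] at k7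
  rw [h] at k0 k1 k2 k3 k4 k5 k6
  simp only [Blk.col] at k0 k1 k2 k3 k4 k5 k6
  have p0 := pres_local (S := S) (c := 7 * b) (by omega) hj1
  have p1 := pres_local (S := S) (c := 7 * b + 1) (by omega) hj1
  have p2 := pres_local (S := S) (c := 7 * b + 2) (by omega) hj1
  have p3 := pres_local (S := S) (c := 7 * b + 3) (by omega) hj1
  have p4 := pres_local (S := S) (c := 7 * b + 4) (by omega) hj1
  have p5 := pres_local (S := S) (c := 7 * b + 5) (by omega) hj1
  have p6 := pres_local (S := S) (c := 7 * b + 6) (by omega) hj1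
  have p7 := pres_local (S := S) (c := 7 * b + 7) (by omega) hj1
  rw [k0] at p0
  rw [k1] at p1
  rw [k2] at p2
  rw [k3] at p3
  rw [k4] at p4
  rw [k5] at p5
  rw [k6] at p6
  rw [k7] at p7
  have s0 := spc_local (S := S) (c := 7 * b) hj1
  have s1 := spc_local (S := S) (c := 7 * b + 1) hj1
  have s2 := spc_local (S := S) (c := 7 * b + 2) hj1
  have s3 := spc_local (S := S) (c := 7 * b + 3) hj1
  have s4 := spc_local (S := S) (c := 7 * b + 4) hj1
  have s5 := spc_local (S := S) (c := 7 * b + 5) hj1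
  have s6 := spc_local (S := S) (c := 7 * b + 6) hj1
  rw [k0] at s0
  rw [k1] at s1
  rw [k2] at s2
  rw [k3] at s3
  rw [k4] at s4
  rw [k5] at s5
  rw [k6] at s6
  have d1 := dr_succ (lay S) (7 * b) (2 * nR S + j)
  have d2 := dr_succ (lay S) (7 * b + 1) (2 * nR S + j)
  have d3 := dr_succ (lay S) (7 * b + 2) (2 * nR S + j)
  have d4 := dr_succ (lay S) (7 * b + 3) (2 * nR S + j)
  have d5 := dr_succ (lay S) (7 * b + 4) (2 * nR S + j)
  have d6 := dr_succ (lay S) (7 * b + 5) (2 * nR S + j)
  have d7 := dr_succ (lay S) (7 * b + 6) (2 * nR S + j)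
  simp only [Nat.add_assoc, Nat.reduceAdd] at d1 d2 d3 d4 d5 d6 d7
  unfold Lay.pen at d1 d2 d3 d4 d5 d6 d7
  simp only [Nat.add_assoc, Nat.reduceAdd] at d1 d2 d3 d4 d5 d6 d7
  rcases hj with rfl | rfl | rfl <;>
  · simp only [Kind.h, Kind.sp] at p0 p1 p2 p3 p4 p5 p6 s0 s1 s2 s3 s4 s5 s6
    rw [p0] at d1
    simp at d1
    rw [d1, p1, s1] at d2
    simp [p2, s2, k1, k2, Kind.isW] at d2
    rw [d2, p2, s2] at d3
    simp [p3, s3, k2, k3, Kind.isW] at d3
    rw [d3, p3, s3] at d4
    simp [p4, s4, k3, k4, Kind.isW] at d4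
    rw [d4, p4, s4] at d5
    simp [p5, s5, k4, k5, Kind.isW] at d5
    rw [d5, p5, s5] at d6
    simp [p6, s6, k5, k6, Kind.isW] at d6
    rw [d6, p6, s6, p7] at d7
    simp at d7
    simp [d1, d2, d3, d4, d5, d6, d7]

theorem local_row {r : ℕ} (h1 : (lay S).N ≤ r) : ∃ j, 1 ≤ j ∧ r = 2 * nR S + j := by
  rw [lay_N] at h1
  exact ⟨r - 2 * nR S, by omega, by omega⟩

theorem pres_iff {c j : ℕ} (hj : 1 ≤ j) : (lay S).pres c (2 * nR S + j) = true ↔
    c < (lay S).M ∧ j ≤ ((lay S).kd c).h := by
  constructor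
  · intro h
    have hc : c < (lay S).M := by
      unfold Lay.pres at h
      simp at h
      exact h.1
    rw [pres_local hc hj] at h
    exact ⟨hc, by simpa using h⟩
  · rintro ⟨h1, h2⟩
    rw [pres_local h1 hj]
    simpa using h2

theorem u4 : U4Stmt := by
  intro S hS
  have h5 : ∀ k : Kind, k.h ≤ 5 := by intro k; cases k <;> simp [Kind.h]
  constructor
  · intro X r hr hw hodd
    obtain ⟨j, hj, rfl⟩ := local_row hr
    unfold Lay.wallR at hw
    simp only [Bool.and_eq_true, decide_eq_true_eq, Bool.not_eq_true'] at hw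
    obtain ⟨⟨hX, hp⟩, hn⟩ := hw
    obtain ⟨c, rfl⟩ : ∃ c, X = c + 1 := ⟨X - 1, by omega⟩
    rw [Nat.add_sub_cancel] at hp
    rw [pres_iff hj] at hp
    obtain ⟨hc, hjh⟩ := hp
    have hj' : j = 1 ∨ j = 3 ∨ j = 5 := by
      have := h5 ((lay S).kd c)
      omega
    obtain ⟨b, k, hk, rfl⟩ : ∃ b k, k < 7 ∧ c = 7 * b + k :=
      ⟨c / 7, c % 7, Nat.mod_lt _ (by norm_num), by omega⟩
    rw [kd_col b k hk] at hjh
    have hn' : ¬ (7 * b + k + 1 < (lay S).M ∧ j ≤ ((lay S).kd (7 * b + k + 1)).h) := by
      rw [← pres_iff hj, hn]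
      simp
    have hM : (lay S).M = 7 * (2 * nT S + 3) := rfl
    cases hb : blk S b with
    | blank => rw [hb] at hjh; simp [Blk.col, Kind.h] at hjh; omega
    | inv i j' =>
      rw [hb] at hjh
      exfalso
      interval_cases k <;> simp [Blk.col, Kind.h] at hjh <;> omega
    | sum right a a' a'' o =>
      cases right with
      | true =>
        have hbb := ((u0 S hS).1 _ _ _ _ _ _ hb).2.2.2.2.2.1 rfl
        obtain ⟨e0, e1, e2, e3, e4, e5, e6, e7⟩ := dr_right hS hb hj'
        rw [hb] at hjh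
        rw [not_and'] at hn'
        interval_cases k
        · have := kd_col (S := S) b 1 (by norm_num)
          rw [hb] at this
          simp only [Nat.add_assoc, Nat.reduceAdd] at hn'
          rw [this] at hn'
          simp [Blk.col, Kind.h] at hn'
          omega
        · have := kd_col (S := S) b 2 (by norm_num)
          rw [hb] at this
          simp only [Nat.add_assoc, Nat.reduceAdd] at hn'
          rw [this] at hn'
          simp [Blk.col, Kind.h] at hn'
          omega
        · have := kd_col (S := S) b 3 (by norm_num)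
          rw [hb] at this
          simp only [Nat.add_assoc, Nat.reduceAdd] at hn'
          rw [this] at hn'
          simp [Blk.col, Kind.h] at hn'
          omega
        · have := kd_col (S := S) b 4 (by norm_num)
          rw [hb] at this
          simp only [Nat.add_assoc, Nat.reduceAdd] at hn'
          rw [this] at hn'
          simp [Blk.col, Kind.h] at hn'
          have hj5 : j = 5 := by omega
          subst hj5
          simpa using e4
        · have := kd_col (S := S) b 5 (by norm_num)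
          rw [hb] at this
          simp only [Nat.add_assoc, Nat.reduceAdd] at hn'
          rw [this] at hn'
          simp [Blk.col, Kind.h] at hn' hjh
          have hj5 : j = 3 := by omega
          subst hj5
          simpa using e5
        · simp [Blk.col, Kind.h] at hjh
          have hj5 : j = 1 := by omega
          subst hj5
          simpa using e6
        · simp [Blk.col, Kind.h] at hjh
          omega
      | false =>
        have hbb := ((u0 S hS).1 _ _ _ _ _ _ hb).2.2.2.2.2.2 rfl
        obtain ⟨e1, e2, e3, e4, e5, e6, e7⟩ := dr_left hS hb hj'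
        rw [hb] at hjh
        rw [not_and'] at hn'
        interval_cases k
        · simp [Blk.col, Kind.h] at hjh
          omega
        · exfalso
          have := kd_col (S := S) b 2 (by norm_num)
          rw [hb] at this
          simp only [Nat.add_assoc, Nat.reduceAdd] at hn'
          rw [this] at hn'
          simp [Blk.col, Kind.h] at hn' hjh
          omega
        · exfalso
          have := kd_col (S := S) b 3 (by norm_num)
          rw [hb] at this
          simp only [Nat.add_assoc, Nat.reduceAdd] at hn'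
          rw [this] at hn'
          simp [Blk.col, Kind.h] at hn' hjh
          omega
        · exfalso
          have := kd_col (S := S) b 4 (by norm_num)
          rw [hb] at this
          simp only [Nat.add_assoc, Nat.reduceAdd] at hn'
          rw [this] at hn'
          simp [Blk.col, Kind.h] at hn' hjh
          omega
        · exfalso
          have := kd_col (S := S) b 5 (by norm_num)
          rw [hb] at this
          simp only [Nat.add_assoc, Nat.reduceAdd] at hn'
          rw [this] at hn'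
          simp [Blk.col, Kind.h] at hn' hjh
          omega
        · exfalso
          have := kd_col (S := S) b 6 (by norm_num)
          rw [hb] at this
          simp only [Nat.add_assoc, Nat.reduceAdd] at hn'
          rw [this] at hn'
          simp [Blk.col, Kind.h] at hn' hjh
          omega
        · simpa using e7
  · intro c r hr hp hs
    obtain ⟨j, hj, rfl⟩ := local_row hr
    rw [pres_iff hj] at hp
    obtain ⟨hc, hjh⟩ := hp
    rw [spc_local hj] at hs
    obtain ⟨b, k, hk, rfl⟩ : ∃ b k, k < 7 ∧ c = 7 * b + k :=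
      ⟨c / 7, c % 7, Nat.mod_lt _ (by norm_num), by omega⟩
    rw [kd_col b k hk] at hjh hs ⊢
    cases hb : blk S b with
    | blank => rw [hb] at hjh; simp [Blk.col, Kind.h] at hjh; omega
    | inv i j' =>
      rw [hb] at hjh
      exfalso
      interval_cases k <;> simp [Blk.col, Kind.h] at hjh <;> omega
    | sum right a a' a'' o =>
      rw [hb] at hs hjh
      have hj' : j = 1 ∨ j = 3 ∨ j = 5 := by
        cases right <;> interval_cases k <;> simp [Blk.col, Kind.sp, Kind.h] at hs hjh <;> omega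
      cases right with
      | true =>
        obtain ⟨e0, e1, e2, e3, e4, e5, e6, e7⟩ := dr_right hS hb hj'
        interval_cases k <;> simp [Blk.col, Kind.sp, Kind.h] at hs hjh ⊢ <;> simp_all
      | false =>
        obtain ⟨e1, e2, e3, e4, e5, e6, e7⟩ := dr_left hS hb hj'
        interval_cases k <;> simp [Blk.col, Kind.sp, Kind.h] at hs hjh ⊢ <;> simp_all

end Pool.Agent.Helper2_Pak.H2
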