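import Pool.Agent.Helper2_Pak.Main
import Pool.Agent.Helper2_Pack.Final
import Pool.Agent.Helper54_Pak.S1
import Pool.Agent.Helper54_Pak.S2
import Pool.Agent.Helper72_Pak.F1
import Pool.Agent.Helper72_Pak.F2
import Pool.Agent.Helper18_Pak.F3
import Pool.Agent.Helper17_Pak.F4
import Pool.Agent.Helper18_Pak.F5
import Pool.Agent.Helper79_Pak.F6
import Pool.Agent.Helper87_Pak.F7
import Pool.Agent.Helper87_Pak.F8
import Pool.Agent.Helper2_Pak.G1
import Pool.Agent.Helper27_Pak.G2
import Pool.Agent.Helper87_Pak.G3
import Pool.Agent.Helper87_Pak.G4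
import Pool.Agent.Helper79_Pak.G5
import Pool.Agent.Helper44_Pak.G6
import Pool.Agent.Helper97_Pak.C1
import Pool.Agent.Helper51_Pak.C2
import Pool.Agent.Helper51_Pak.C3
import Pool.Agent.Helper44_Pak.C4
import Pool.Agent.Helper66_Pak.C5
import Pool.Agent.Helper68_Pak.R1
import Pool.Agent.Helper27_Pak.R2
import Pool.Agent.Helper35_Pak.R3
import Pool.Agent.Helper69_Pak.R4
import Pool.Agent.Helper27_Pak.R5
import Pool.Agent.Helper78_Pak.E1
import Pool.Agent.Helper35_Pak.E2
import Pool.Agent.Helper24_Pak.E3
import Pool.Agent.Helper10_Pak.E4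
import Pool.Agent.Helper67_Pak.E5
import Pool.Agent.Helper78_Pak.E6
import Pool.Agent.Helper67_Pak.E7
import Pool.Agent.Helper10_Pak.E8
import Pool.Agent.Helper63_Pak.E9
import Pool.Agent.Helper50_Pak.K1
import Pool.Agent.Helper63_Pak.K2
import Pool.Agent.Helper54_Pak.K3
import Pool.Agent.Helper73_Pak.K4
import Pool.Agent.Helper88_Pak.K5
import Pool.Agent.Helper66_Pak.K7
import Pool.Agent.Helper68_Pak.K8
import Pool.Agent.Helper2_Pak.K9
import Pool.Agent.Helper2_Pak.U0
import Pool.Agent.Helper51_Pak.U1a
import Pool.Agent.Helper97_Pak.U1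
import Pool.Agent.Helper73_Pak.U2a
import Pool.Agent.Helper2_Pak.U2
import Pool.Agent.Helper51_Pak.U3
import Pool.Agent.Helper2_Pak.U4
import Pool.Agent.Helper71_Pak.PA1
import Pool.Agent.Helper71_Pak.PA2
import Pool.Agent.Helper26_Pak.PA3
import Pool.Agent.Helper19_Pak.PA4
import Pool.Agent.Helper54_Pak.P1a
import Pool.Agent.Helper66_Pak.P1
import Pool.Agent.Helper87_Pak.PB1
import Pool.Agent.Helper26_Pak.PB2
import Pool.Agent.Helper87_Pak.PB3
import Pool.Agent.Helper17_Pak.PB4
import Pool.Agent.Helper63_Pak.PC1
import Pool.Agent.Helper17_Pak.PC2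
import Pool.Agent.Helper69_Pak.P3
import Pool.Agent.Helper54_Pak.T1
import Pool.Agent.Helper21_Pak.T2
import Pool.Agent.Helper56_Pak.T3
import Pool.Agent.Helper97_Pak.TL
import Pool.Agent.Helper26_Pak.T4
import Pool.Agent.Helper63_Pak.T5
import Pool.Agent.Helper56_Pak.T6
import Pool.Agent.Helper81_Pak.T7
import Pool.Agent.Helper98_Pak.T8
import Pool.Agent.Helper98_Pak.T9c
import Pool.Agent.Helper69_Pak.T9w
import Pool.Agent.Helper69_Pak.T9
import Pool.Agent.Helper97_Pak.T10
import Pool.Agent.Helper2_Pak.Time

/-!
# Everything together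
-/

namespace Pool.Agent.Helper2_Pak

theorem all_geo : GeoStmt := by
  have hC1old : Helper2_Pack.C1Stmt := Helper60_Pack.c1
  have hP6old : Helper2_Pack.P6Stmt := Helper15_Pack.p6
  have hS1 : S1Stmt := by first | exact H54.s1 | (apply H54.s1 <;> assumption)
  have hS2 : S2Stmt := by first | exact H54.s2 | (apply H54.s2 <;> assumption)
  have hF1 : F1Stmt := by first | exact H72.f1 | (apply H72.f1 <;> assumption)
  have hF2 : F2Stmt := by first | exact H72.f2 | (apply H72.f2 <;> assumption)
  have hF3 : F3Stmt := by first | exact H18.f3 | (apply H18.f3 <;> assumption)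
  have hF4 : F4Stmt := by first | exact H17.f4 | (apply H17.f4 <;> assumption)
  have hF5 : F5Stmt := by first | exact H18.f5 | (apply H18.f5 <;> assumption)
  have hF6 : F6Stmt := by first | exact H79.f6 | (apply H79.f6 <;> assumption)
  have hF7 : F7Stmt := by first | exact H87.f7 | (apply H87.f7 <;> assumption)
  have hF8 : F8Stmt := by first | exact H87.F8.f8 | (apply H87.F8.f8 <;> assumption)
  have hG1 : G1Stmt := by first | exact H2.g1 | (apply H2.g1 <;> assumption)
  have hG2 : G2Stmt := by first | exact H27.g2 | (apply H27.g2 <;> assumption)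
  have hG3 : G3Stmt := by first | exact H87.g3 | (apply H87.g3 <;> assumption)
  have hG4 : G4Stmt := by first | exact H87.g4 | (apply H87.g4 <;> assumption)
  have hG5 : G5Stmt := by first | exact H79.g5 | (apply H79.g5 <;> assumption)
  have hG6 : G6Stmt := by first | exact H44.g6 | (apply H44.g6 <;> assumption)
  have hC1 : C1Stmt := by first | exact H97.c1 | (apply H97.c1 <;> assumption)
  have hC2 : C2Stmt := by first | exact H51.c2 | (apply H51.c2 <;> assumption)
  have hC3 : C3Stmt := by first | exact H51.c3 | (apply H51.c3 <;> assumption)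
  have hC4 : C4Stmt := by first | exact H44.c4 | (apply H44.c4 <;> assumption)
  have hC5 : C5Stmt := by first | exact H66.c5 | (apply H66.c5 <;> assumption)
  have hR1 : R1Stmt := by first | exact H68.r1 | (apply H68.r1 <;> assumption)
  have hR2 : R2Stmt := by first | exact H27.r2 | (apply H27.r2 <;> assumption)
  have hR3 : R3Stmt := by first | exact H35.r3 | (apply H35.r3 <;> assumption)
  have hR4 : R4Stmt := by first | exact H69.r4 | (apply H69.r4 <;> assumption)
  have hR5 : R5Stmt := by first | exact H27.r5 | (apply H27.r5 <;> assumption)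
  have hE1 : E1Stmt := by first | exact H78.e1 | (apply H78.e1 <;> assumption)
  have hE2 : E2Stmt := by first | exact H35.e2 | (apply H35.e2 <;> assumption)
  have hE3 : E3Stmt := by first | exact H24.e3 | (apply H24.e3 <;> assumption)
  have hE4 : E4Stmt := by first | exact H10.e4 | (apply H10.e4 <;> assumption)
  have hE5 : E5Stmt := by first | exact H67.e5 | (apply H67.e5 <;> assumption)
  have hE6 : E6Stmt := by first | exact H78.e6 | (apply H78.e6 <;> assumption)
  have hE7 : E7Stmt := by first | exact H67.e7 | (apply H67.e7 <;> assumption)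
  have hE8 : E8Stmt := by first | exact H10.e8 | (apply H10.e8 <;> assumption)
  have hE9 : E9Stmt := by first | exact H63.e9 | (apply H63.e9 <;> assumption)
  have hK1 : K1Stmt := by first | exact H50.k1 | (apply H50.k1 <;> assumption)
  have hK2 : K2Stmt := by first | exact H63.k2 | (apply H63.k2 <;> assumption)
  have hK3 : K3Stmt := by first | exact H54.k3 | (apply H54.k3 <;> assumption)
  have hK4 : K4Stmt := by first | exact H73.k4 | (apply H73.k4 <;> assumption)
  have hK5 : K5Stmt := by first | exact H88.k5 | (apply H88.k5 <;> assumption)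
  have hK6 : K6Stmt := by first | exact H88.k6 | (apply H88.k6 <;> assumption)
  have hK7 : K7Stmt := by first | exact H66.k7 | (apply H66.k7 <;> assumption)
  have hK8 : K8Stmt := by first | exact H68.k8 | (apply H68.k8 <;> assumption)
  have hK9 : K9Stmt := by first | exact H2.k9 | (apply H2.k9 <;> assumption)
  have hU0 : U0Stmt := by first | exact H2.u0 | (apply H2.u0 <;> assumption)
  have hU1a : U1aStmt := by first | exact H51.u1a | (apply H51.u1a <;> assumption)
  have hU1 : U1Stmt := by first | exact H97.u1 | (apply H97.u1 <;> assumption)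
  have hU2a : U2aStmt := by first | exact H73.u2a | (apply H73.u2a <;> assumption)
  have hU2 : U2Stmt := by first | exact H2.u2 | (apply H2.u2 <;> assumption)
  have hU3 : U3Stmt := by first | exact H51.u3 | (apply H51.u3 <;> assumption)
  have hPA1 : PA1Stmt := by first | exact H71.pA1 | (apply H71.pA1 <;> assumption)
  have hPA2 : PA2Stmt := by first | exact H71.pA2 | (apply H71.pA2 <;> assumption)
  have hPA3 : PA3Stmt := by first | exact H26.pa3 | (apply H26.pa3 <;> assumption)
  have hPA4 : PA4Stmt := by first | exact H19.pa4 | (apply H19.pa4 <;> assumption)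
  have hP1a : P1aStmt := by first | exact H54.p1a | (apply H54.p1a <;> assumption)
  have hP1 : P1Stmt := by first | exact H66.p1 | (apply H66.p1 <;> assumption)
  have hPB1 : PB1Stmt := by first | exact H87.pb1 | (apply H87.pb1 <;> assumption)
  have hPB2 : PB2Stmt := by first | exact H26.pb2 | (apply H26.pb2 <;> assumption)
  have hPB3 : PB3Stmt := by first | exact H87.PB3.pb3 | (apply H87.PB3.pb3 <;> assumption)
  have hPB4 : PB4Stmt := by first | exact H17.pb4 | (apply H17.pb4 <;> assumption)
  have hPC1 : PC1Stmt := by first | exact H63.pc1 | (apply H63.pc1 <;> assumption)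
  have hPC2 : PC2Stmt := by first | exact H17.pc2 | (apply H17.pc2 <;> assumption)
  have hP2 : P2Stmt := p2 hPA1 hPA3 hPB1 hPB4 hPC1 hPC2
  have hP3 : P3Stmt := by first | exact H69.p3 | (apply H69.p3 <;> assumption)
  exact geo hU1 hU2 hU3 hP3 hC5 hR5 hE9 hK9

theorem all_time : TimeStmt := by
  have hT5old : Helper2_Pack.T5Stmt := Helper55_Pack.t5
  have hU0 : U0Stmt := by first | exact H2.u0 | (apply H2.u0 <;> assumption)
  have hU4 : U4Stmt := by first | exact H2.u4 | (apply H2.u4 <;> assumption)
  have hT1 : T1Stmt := by first | exact H54.t1 | (apply H54.t1 <;> assumption)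
  have hT2 : T2Stmt := by first | exact H21.t2 | (apply H21.t2 <;> assumption)
  have hT3 : T3Stmt := by first | exact H56.t3 | (apply H56.t3 <;> assumption)
  have hTL : TLStmt := by first | exact H97.tl | (apply H97.tl <;> assumption)
  have hT4 : T4Stmt := by first | exact H26.t4 | (apply H26.t4 <;> assumption)
  have hT5 : T5Stmt := by first | exact H63.t5 | (apply H63.t5 <;> assumption)
  have hT6 : T6Stmt := by first | exact H56.t6 | (apply H56.t6 <;> assumption)
  have hT7 : T7Stmt := by first | exact H81.t7 | (apply H81.t7 <;> assumption)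
  have hT8 : T8Stmt := by first | exact H98.t8 | (apply H98.t8 <;> assumption)
  have hT9c : T9cStmt := by first | exact H98.t9c | (apply H98.t9c <;> assumption)
  have hT9w : T9wStmt := by first | exact H69.t9w | (apply H69.t9w <;> assumption)
  have hT9 : T9Stmt := by first | exact H69.t9 | (apply H69.t9 <;> assumption)
  have hT10 : T10Stmt := by first | exact H97.t10 | (apply H97.t10 <;> assumption)
  have hTIME : TimeStmt := by first | exact H2.time | (apply H2.time <;> assumption)
  exact hTIME

theorem final (k : ℕ) (hk : 1 ≤ k) : Helper2_Pack.ExistsRHard (Helper2_Pack.packing k) :=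
  main all_geo Helper2_Pack.all_alg all_time k hk

end Pool.Agent.Helper2_Pak
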