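import Pool.Agent.Helper2_Pack.Sys

/-!
# Packing congruent copies of one polygon: the geometry of the reduction

`t` is a tiny positive number.  All pieces are copies of one nearly square shape `shape t`
(width `1`, height `1 + t ^ 2`).  The sizes are

* `t` : the chamfers at the corners;
* `t ^ 2` : the difference between height and width of the shape;
* `q = t ^ 3` : the height of the bumps; also the slack of the odd rows;
* `t ^ 4` : the gap of the functional sides and the slope of their roofs;
* `t ^ 7` : the width of the spikes (the slits have width `2 t ^ 7`);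
* `t ^ 8` : the unit of the signals.

The sides of the shape are called `s0` (bottom), `s1` (right), `s2` (top), `s3` (left).
-/

namespace Pool.Agent.Helper2_Pak

open Pool.Agent.Helper2_Pack (Motion)

/-! ### The shape -/

/-- half of the height of the shape -/
def hh {R : Type*} [Field R] (t : R) : R := (1 + t ^ 2) / 2

/-- a bump -/
noncomputable def bump (t e : ℝ) : ℝ := max 0 (t ^ 3 - |e|)

/-- a loose dent -/
noncomputable def dent (t e : ℝ) : ℝ := max 0 (2 * t ^ 3 * (1 - 64 * |e|))

/-- a pit with the roof `a + b * e` for `|e| ≤ 1 / 128` and side walls which end at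
`|e| = 1 / 64` -/
noncomputable def pit (a b e : ℝ) : ℝ :=
  max 0 (min (a + b * e) (min ((a + b / 128) * (2 - 128 * e)) ((a - b / 128) * (2 + 128 * e))))

/-- a slit of depth `d` -/
noncomputable def slit (t d e : ℝ) : ℝ := max 0 (d * (1 - |e| / (2 * t ^ 7)))

/-- the chamfers of a side of half length `w` -/
noncomputable def chamf (t w e : ℝ) : ℝ := max 0 (|e| - (w - t))

/-- the bottom side `s0`: two loose dents -/
noncomputable def lo (t x : ℝ) : ℝ :=
  -hh t + dent t (x + 1 / 4) + dent t (x - 1 / 4) + chamf t (1 / 2) x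

/-- the top side `s2`: two bumps -/
noncomputable def hi (t x : ℝ) : ℝ :=
  hh t + bump t (x + 1 / 4) + bump t (x - 1 / 4) - chamf t (1 / 2) x

/-- the left side `s3`: two functional pits and the openings of two slits -/
noncomputable def lf (t y : ℝ) : ℝ :=
  -1 / 2 + pit (t ^ 3 - t ^ 4) (-t ^ 4) (y + 1 / 4) + pit (t ^ 3 - t ^ 4) (-t ^ 4) (y - 1 / 4) +
    slit t (1 - t ^ 3 / 4) (y + 1 / 16) + slit t (1 - 3 * t ^ 3 / 4) (y - 1 / 16) +
    chamf t (hh t) y

/-- the right side `s1`: four pits for the ports of levers -/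
noncomputable def rt (t y : ℝ) : ℝ :=
  1 / 2 - pit (t ^ 3 / 2) (-t ^ 3) (y + 5 / 16) - pit (t ^ 3 / 2) (t ^ 3) (y + 3 / 16) -
    pit (t ^ 3 / 2) (t ^ 3) (y - 3 / 16) - pit (t ^ 3 / 2) (-t ^ 3) (y - 5 / 16) -
    chamf t (hh t) y

/-- the shape -/
def shape (t : ℝ) : Set ℂ :=
  {z | lo t z.re ≤ z.im ∧ z.im ≤ hi t z.re ∧ lf t z.im ≤ z.re ∧ z.re ≤ rt t z.im}

/-- the image of the shape under a motion -/
def tile (t : ℝ) (g : Motion) : Set ℂ := g.app '' shape t

/-! ### The columns -/

/-- the kinds of columns -/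
inductive Kind
  | b0 | bV | bW
  | U | V1 | V2 | V3 (o : ℤ) | Z
  | Uv | W1 | W2 | W3 (o : ℤ) | Zw
  | pL (σ : Bool) | pR (σ : Bool)
  deriving DecidableEq

/-- `W` columns contain tiles in the orientations `2` and `3`, the others `0` and `1` -/
def Kind.isW : Kind → Bool
  | .bW => true
  | .U => true
  | .W1 => true
  | .W2 => true
  | .W3 _ => true
  | .Zw => true
  | _ => false

/-- the number of local rows -/
def Kind.h : Kind → ℕ
  | .bV => 5
  | .bW => 5
  | .U => 5
  | .V1 => 1
  | .V2 => 3
  | .V3 _ => 5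
  | .Uv => 5
  | .W1 => 1
  | .W2 => 3
  | .W3 _ => 5
  | _ => 0

/-- the local rows with a special tile -/
def Kind.sp : Kind → ℕ → Bool
  | .U, j => decide (j = 1 ∨ j = 3 ∨ j = 5)
  | .Uv, j => decide (j = 1 ∨ j = 3 ∨ j = 5)
  | .V1, j => decide (j = 1)
  | .W1, j => decide (j = 1)
  | .V2, j => decide (j = 3)
  | .W2, j => decide (j = 3)
  | .V3 _, j => decide (j = 5)
  | .W3 _, j => decide (j = 5)
  | _, _ => false

/-- the offset of the ceiling in units of `t ^ 8` -/
def Kind.off : Kind → ℤ
  | .V3 o => o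
  | .W3 o => o
  | _ => 0

/-- the left half of the room of a lever -/
def Kind.isL : Kind → Bool
  | .pL _ => true
  | _ => false

/-- the right half of the room of a lever -/
def Kind.isR : Kind → Bool
  | .pR _ => true
  | _ => false

/-- the type of the lever -/
def Kind.sig : Kind → Bool
  | .pL σ => σ
  | .pR σ => σ
  | _ => true

/-- A layout: `M` columns over `2 n + 1` main rows; `l c` is the number of the odd main rows in
which the column `c` has a special tile (the rows `1, 3, …, 2 l - 1`). -/
structure Lay where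
  /-- number of odd main rows -/
  n : ℕ
  /-- number of columns -/
  M : ℕ
  /-- the kind of a column -/
  kd : ℕ → Kind
  /-- the number of special tiles of a column in the main rows -/
  l : ℕ → ℕ

/-- number of main rows -/
def Lay.N (G : Lay) : ℕ := 2 * G.n + 1

/-- the number of rows of a column -/
def Lay.top (G : Lay) (c : ℕ) : ℕ := G.N + (G.kd c).h

/-- the cell `(c, r)` exists -/
def Lay.pres (G : Lay) (c r : ℕ) : Bool := decide (c < G.M) && decide (r < G.top c)

/-- the tile in the cell `(c, r)` is special: its orientation is odd -/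
def Lay.spc (G : Lay) (c r : ℕ) : Bool :=
  if r < G.N then decide (r % 2 = 1) && decide (r + 1 ≤ 2 * G.l c) else (G.kd c).sp (r - 2 * G.n)

/-- the sign of the column: `1` for `V` columns, `-1` for `W` columns -/
def Lay.sg (G : Lay) (c : ℕ) : ℤ := if (G.kd c).isW then -1 else 1

/-- the orientation of the tile in the cell `(c, r)` -/
def Lay.ori (G : Lay) (c r : ℕ) : ℕ :=
  (if (G.kd c).isW then 2 else 0) + (if G.spc c r then 1 else 0)

/-- there is a gap of size `q` between the tiles in the cells `(c, r)` and `(c + 1, r)` -/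
def Lay.pen (G : Lay) (c r : ℕ) : Bool :=
  (!(G.kd c).isW && !(G.kd (c + 1)).isW && !(G.spc c r) && G.spc (c + 1) r) ||
  ((G.kd c).isW && (G.kd (c + 1)).isW && G.spc c r && !(G.spc (c + 1) r))

/-- the number of special tiles and of gaps on the left of the column `c` in the row `r` (in the
same room) -/
def Lay.dr (G : Lay) : ℕ → ℕ → ℕ × ℕ
  | 0, _ => (0, 0)
  | c + 1, r => if G.pres c r then
      ((G.dr c r).1 + (if G.spc c r then 1 else 0),
        (G.dr c r).2 + (if G.pres (c + 1) r && G.pen c r then 1 else 0))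
    else (0, 0)

/-- the first column of the room part of the row `r` which contains the column `c` -/
def Lay.st (G : Lay) : ℕ → ℕ → ℕ
  | 0, _ => 0
  | c + 1, r => if G.pres c r then G.st c r else c + 1

section Heights

variable {R : Type*} [Field R]

/-- the shift of the tile in the cell `(c, r)` to the right -/
def Lay.D (G : Lay) (t : R) (c r : ℕ) : R :=
  ((G.dr c r).1 : R) * t ^ 2 + ((G.dr c r).2 : R) * t ^ 3

/-- the nominal height of the cell `(c, r)` -/
def Lay.nh (G : Lay) (t : R) (c r : ℕ) : R :=
  if G.spc c r then 1 + t ^ 4 + (G.sg c : R) * (t ^ 4 * (G.D t c r + t ^ 2 / 2)) else 1 + t ^ 2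

/-- the height of the floor of a column; the nominal height of the end of the main part is `N` -/
def Lay.fl (G : Lay) (t : R) (c : ℕ) : R :=
  (G.N : R) - ∑ r ∈ Finset.range G.N, G.nh t c r

/-- the height of the ceiling of a column; for the ports, of the outer part of the ceiling -/
def Lay.ce (G : Lay) (t : R) (c : ℕ) : R :=
  (G.N : R) + (∑ r ∈ Finset.Ico G.N (G.top c), G.nh t c r) +
    (if (G.kd c).isL || (G.kd c).isR then t ^ 4 else ((G.kd c).off : R) * t ^ 8)

/-- the width of the recess on the right of a wall -/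
def Lay.rw (G : Lay) (t : R) (X r : ℕ) : R := G.D t X r + t ^ 3

end Heights

/-! ### The container -/

/-- ramps of width `t / 4` at both ends -/
noncomputable def ramp (t x : ℝ) : ℝ := min 1 (min (4 * x / t) (4 * (1 - x) / t))

/-- the abscissa of the left wall of the room of a lever, without the slack -/
noncomputable def eL (σ : Bool) : ℝ := if σ then 18 / 32 else 14 / 32

/-- the height of the tip of the spike of a lever above the main part -/
noncomputable def tipH (t : ℝ) (σ : Bool) : ℝ := (if σ then 3 / 4 else 5 / 4) * t ^ 3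

/-- the floor of the column `c` -/
noncomputable def Lay.locFl (G : Lay) (t : ℝ) (c : ℕ) (x : ℝ) : ℝ :=
  G.fl t c * ramp t x + (if (G.kd c).isW then -(dent t (x - 1 / 4) + dent t (x - 3 / 4))
    else bump t (x - 1 / 4) + bump t (x - 3 / 4))

/-- the ceiling of the column `c` -/
noncomputable def Lay.locCe (G : Lay) (t : ℝ) (c : ℕ) (x : ℝ) : ℝ :=
  if (G.kd c).isL then
    (if x < eL (G.kd c).sig - t / 4 then G.N + t ^ 4 * ramp t x + dent t (x - 1 / 4)
      else min (G.N + 1 + t / 4) (G.N + tipH t (G.kd c).sig +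
        (1 + t / 4 - tipH t (G.kd c).sig) * ((1 - x) / t ^ 7)))
  else if (G.kd c).isR then
    (if x ≤ eL (G.kd c).sig + t / 4 then min (G.N + 1 + t / 4) (G.N + tipH t (G.kd c).sig +
        (1 + t / 4 - tipH t (G.kd c).sig) * (x / t ^ 7))
      else G.N + t ^ 4 * ramp t x + dent t (x - 3 / 4))
  else G.top c + (G.ce t c - G.top c) * ramp t x +
    (if (G.kd c).isW then -(bump t (x - 1 / 4) + bump t (x - 3 / 4))
      else if G.spc c (G.top c - 1) then 0 else dent t (x - 1 / 4) + dent t (x - 3 / 4))

/-- the part of the container between the vertical lines at `c` and at `c + 1` -/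
def Lay.colReg (G : Lay) (t : ℝ) (c : ℕ) : Set ℂ :=
  {z | (c : ℝ) ≤ z.re ∧ z.re ≤ c + 1 ∧ G.locFl t c (z.re - c) ≤ z.im ∧
    z.im ≤ G.locCe t c (z.re - c)}

/-- the profile of a recess: `0` at the heights `t / 4` and `1 - t / 4`, and `1` between `t / 2` and
`1 - t / 2` -/
noncomputable def trap (t y : ℝ) : ℝ := min 1 (min (4 * y / t - 1) (4 * (1 - y) / t - 1))

/-- there is a wall on the left of the vertical line at `X` in the row `r` -/
def Lay.wallL (G : Lay) (X r : ℕ) : Bool := G.pres X r && (decide (X = 0) || !(G.pres (X - 1) r))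

/-- there is a wall on the right of the vertical line at `X` in the row `r` -/
def Lay.wallR (G : Lay) (X r : ℕ) : Bool := decide (0 < X) && G.pres (X - 1) r && !(G.pres X r)

/-- the recesses of the odd rows in the walls -/
def Lay.recess (G : Lay) (t : ℝ) : Set ℂ :=
  {z | ∃ X r : ℕ, r % 2 = 1 ∧ 0 ≤ trap t (z.im - r) ∧
    ((G.wallL X r = true ∧ X - t ^ 3 * trap t (z.im - r) ≤ z.re ∧ z.re ≤ X) ∨
      (G.wallR X r = true ∧ X ≤ z.re ∧
        z.re ≤ X + G.rw t X r * trap t (z.im - r)))}

/-- the container -/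
def Lay.cont (G : Lay) (t : ℝ) : Set ℂ := (⋃ c : Fin G.M, G.colReg t c) ∪ G.recess t

/-! ### Packings -/

/-- the cells: the cells of the array and the rooms of the levers -/
abbrev Cell (G : Lay) : Type :=
  (Σ c : Fin G.M, Fin (G.top c)) ⊕ {c : Fin G.M // (G.kd c).isL = true}

/-- the number of cells -/
def Lay.K (G : Lay) : ℕ := Fintype.card (Cell G)

/-- the lower left corner of a cell -/
noncomputable def corner {G : Lay} : Cell G → ℂ
  | .inl p => ⟨p.1, p.2⟩
  | .inr c => ⟨c.1 + eL (G.kd c.1).sig, G.N⟩

/-- a packing of copies of the shape into the container -/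
structure Packing (t : ℝ) (G : Lay) where
  /-- the motions -/
  g : Cell G → Motion
  sub : ∀ i, tile t (g i) ⊆ G.cont t
  disj : ∀ i j, i ≠ j → Disjoint (interior (tile t (g i))) (interior (tile t (g j)))

/-- `t` is small compared with the layout -/
structure Small (t : ℝ) (G : Lay) : Prop where
  pos : 0 < t
  small : t * 2 ^ (32 * G.K + 120) ≤ 1

/-- the conditions for a layout -/
structure Lay.OK (G : Lay) : Prop where
  n_pos : 0 < G.n
  M_pos : 1 < G.M
  first : G.kd 0 = .b0
  last : G.kd (G.M - 1) = .b0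
  l_le : ∀ c, G.l c ≤ G.n
  blank : ∀ c, G.kd c = .b0 ∨ G.kd c = .bV ∨ G.kd c = .bW → G.l c = 0
  off : ∀ c, -1 ≤ (G.kd c).off ∧ (G.kd c).off ≤ 1
  /-- a `V` column follows a `W` column only if both are blank -/
  WV : ∀ c, (G.kd c).isW = true → (G.kd (c + 1)).isW = false → c + 1 < G.M →
    G.kd c = .bW ∧ G.kd (c + 1) = .bV
  portL : ∀ c σ, c < G.M → G.kd c = .pL σ → c + 1 < G.M ∧ G.kd (c + 1) = .pR σ
  portR : ∀ c σ, c < G.M → G.kd c = .pR σ → 0 < c ∧ G.kd (c - 1) = .pL σ ∧ (G.kd (c + 1)).h = 0
  /-- special tiles at the walls of the rooms -/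
  wallL : ∀ c r, G.wallL c r = true → G.spc c r = true → (G.kd c).isW = true
  wallR : ∀ c r, G.wallR (c + 1) r = true → G.spc c r = true → (G.kd c).isW = false
  /-- the special tiles are determined by the row sums and the column sums -/
  sep : ∃ (α : ℕ → ℤ) (β : ℕ → ℕ → ℤ), ∀ c r, G.pres c r = true →
    (G.spc c r = true → 0 < α c + β (G.st c r) r) ∧
    (G.spc c r = false → α c + β (G.st c r) r < 0)

end Pool.Agent.Helper2_Pak
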