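import Pool.Agent.Helper2_Pak.Geo

/-!
# The polygons of the reduction with one shape
-/

namespace Pool.Agent.Helper2_Pak

open Pool.Agent.Helper2_Pack (Polygon Instance)

/-! ### The shape -/

/-- a pit in a vertical line at `X`, upwards -/
def pitPts (X s y a b : ℚ) : Polygon :=
  [(X, y - 1 / 64), (X + s * (a - b / 128), y - 1 / 128), (X + s * (a + b / 128), y + 1 / 128),
    (X, y + 1 / 64)]

/-- three corners: a dent (`d < 0` or `d > 0`) of half width `w` in a horizontal line at `y` -/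
def tentPts (x y w d : ℚ) : Polygon := [(x - w, y), (x, y + d), (x + w, y)]

/-- the bottom side, without the last corner -/
def sBot (t : ℚ) : Polygon :=
  [(-1 / 2 + t, -hh t)] ++ tentPts (-1 / 4) (-hh t) (1 / 64) (2 * t ^ 3) ++
    tentPts (1 / 4) (-hh t) (1 / 64) (2 * t ^ 3)

/-- the left side upwards, without the first corner -/
def sLeft (t : ℚ) : Polygon :=
  [(-1 / 2, -hh t + t)] ++ pitPts (-1 / 2) 1 (-1 / 4) (t ^ 3 - t ^ 4) (-t ^ 4) ++
    [(-1 / 2, -1 / 16 - 2 * t ^ 7), (1 / 2 - t ^ 3 / 4, -1 / 16), (-1 / 2, -1 / 16 + 2 * t ^ 7),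
      (-1 / 2, 1 / 16 - 2 * t ^ 7), (1 / 2 - 3 * t ^ 3 / 4, 1 / 16), (-1 / 2, 1 / 16 + 2 * t ^ 7)] ++
    pitPts (-1 / 2) 1 (1 / 4) (t ^ 3 - t ^ 4) (-t ^ 4) ++ [(-1 / 2, hh t - t), (-1 / 2 + t, hh t)]

/-- the top side, without the first corner -/
def sTop (t : ℚ) : Polygon :=
  tentPts (-1 / 4) (hh t) (t ^ 3) (t ^ 3) ++ tentPts (1 / 4) (hh t) (t ^ 3) (t ^ 3) ++
    [(1 / 2 - t, hh t)]

/-- the right side upwards, without the last corner -/
def sRight (t : ℚ) : Polygon :=
  [(1 / 2 - t, -hh t), (1 / 2, -hh t + t)] ++ pitPts (1 / 2) (-1) (-5 / 16) (t ^ 3 / 2) (-t ^ 3) ++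
    pitPts (1 / 2) (-1) (-3 / 16) (t ^ 3 / 2) (t ^ 3) ++
    pitPts (1 / 2) (-1) (3 / 16) (t ^ 3 / 2) (t ^ 3) ++
    pitPts (1 / 2) (-1) (5 / 16) (t ^ 3 / 2) (-t ^ 3) ++ [(1 / 2, hh t - t)]

/-- the polygon of the shape -/
def shapePoly (t : ℚ) : Polygon :=
  sBot t ++ (sLeft t ++ sTop t ++ (sRight t).reverse).reverse

/-! ### The container -/

/-- the corners of the floor of the column `c` -/
def Lay.flPts (G : Lay) (t : ℚ) (c : ℕ) : Polygon :=
  [((c : ℚ), 0), (c + t / 4, G.fl t c)] ++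
    (if (G.kd c).isW then tentPts (c + 1 / 4) (G.fl t c) (1 / 64) (-(2 * t ^ 3)) ++
        tentPts (c + 3 / 4) (G.fl t c) (1 / 64) (-(2 * t ^ 3))
      else tentPts (c + 1 / 4) (G.fl t c) (t ^ 3) (t ^ 3) ++
        tentPts (c + 3 / 4) (G.fl t c) (t ^ 3) (t ^ 3)) ++
    [(c + 1 - t / 4, G.fl t c)]

/-- the height of the tip of the spike, rational version -/
def tipQ (t : ℚ) (σ : Bool) : ℚ := (if σ then 3 / 4 else 5 / 4) * t ^ 3

/-- the abscissa of the room, rational version -/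
def eQ (σ : Bool) : ℚ := if σ then 18 / 32 else 14 / 32

/-- the corners of the ceiling of the column `c`, without the first one -/
def Lay.cePts (G : Lay) (t : ℚ) (c : ℕ) : Polygon :=
  match G.kd c with
  | .pL σ => [(c + t / 4, G.N + t ^ 4)] ++ tentPts (c + 1 / 4) (G.N + t ^ 4) (1 / 64) (2 * t ^ 3) ++
      [(c + eQ σ - t / 4, G.N + t ^ 4), (c + eQ σ - t / 4, G.N + 1 + t / 4),
        (c + 1 - t ^ 7, G.N + 1 + t / 4), (c + 1, G.N + tipQ t σ)]
  | .pR σ => [(c + t ^ 7, G.N + 1 + t / 4), (c + eQ σ + t / 4, G.N + 1 + t / 4),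
        (c + eQ σ + t / 4, G.N + t ^ 4)] ++
      tentPts (c + 3 / 4) (G.N + t ^ 4) (1 / 64) (2 * t ^ 3) ++
      [(c + 1 - t / 4, G.N + t ^ 4), (c + 1, (G.N : ℚ))]
  | _ => [(c + t / 4, G.ce t c)] ++
      (if (G.kd c).isW then tentPts (c + 1 / 4) (G.ce t c) (t ^ 3) (-t ^ 3) ++
          tentPts (c + 3 / 4) (G.ce t c) (t ^ 3) (-t ^ 3)
        else if G.spc c (G.top c - 1) then []
        else tentPts (c + 1 / 4) (G.ce t c) (1 / 64) (2 * t ^ 3) ++
          tentPts (c + 3 / 4) (G.ce t c) (1 / 64) (2 * t ^ 3)) ++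
      [(c + 1 - t / 4, G.ce t c), (c + 1, (G.top c : ℚ))]

/-- the number of rows of the column on the right of the vertical line at `X` -/
def Lay.topR (G : Lay) (X : ℕ) : ℕ := if X < G.M then G.top X else 0

/-- the number of rows of the column on the left of the vertical line at `X` -/
def Lay.topL (G : Lay) (X : ℕ) : ℕ := if X = 0 then 0 else G.top (X - 1)

/-- the corners of a recess of (signed) width `w` at the row `r`, upwards -/
def recPts (t w : ℚ) (X r : ℕ) : Polygon :=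
  [((X : ℚ), r + t / 4), (X + w, r + t / 2), (X + w, r + 1 - t / 2), ((X : ℚ), r + 1 - t / 4)]

/-- the odd numbers in `[a, b)` -/
def oddRows (a b : ℕ) : List ℕ := (List.range' a (b - a)).filter fun r => r % 2 = 1

/-- the corners of the wall at `X` from the ceiling on the left to the ceiling on the right, without
the first one -/
def Lay.wallPts (G : Lay) (t : ℚ) (X : ℕ) : Polygon :=
  if G.topL X < G.topR X then
    ((oddRows (G.topL X) (G.topR X)).flatMap fun r => recPts t (-t ^ 3) X r) ++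
      [((X : ℚ), (G.topR X : ℚ))]
  else if G.topR X < G.topL X then
    ((oddRows (G.topR X) (G.topL X)).flatMap fun r => recPts t (G.rw t X r) X r).reverse ++
      [((X : ℚ), (G.topR X : ℚ))]
  else []

/-- the polygon of the container -/
def Lay.contPoly (G : Lay) (t : ℚ) : Polygon :=
  (List.range G.M).flatMap (G.flPts t) ++
    (G.wallPts t 0 ++ (List.range G.M).flatMap (fun c => G.cePts t c ++ G.wallPts t (c + 1))).reverse

/-! ### The instance -/

/-- translation of a list of corners along the diagonal -/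
def translate (s : ℚ) (L : Polygon) : Polygon := L.map fun p => (p.1 + s, p.2 + s)

/-- the translation: all digits of the coordinates become positive, and the last digit odd -/
def shift (T : ℕ) (t : ℚ) : ℚ :=
  2 + T * (t + t ^ 2 + t ^ 3 + t ^ 4 + t ^ 5 + t ^ 6 + t ^ 7) + (T + 1 / 256) * t ^ 8

/-- the bound for the digits -/
def Lay.T (G : Lay) : ℕ := 4 * (G.M + 1) * (G.n + 1) + 8

/-- the instance of geometric packing for a layout -/
def inst (m : ℕ) (G : Lay) : Instance :=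
  ⟨translate (shift G.T ((1 / 2) ^ m)) (G.contPoly ((1 / 2) ^ m)),
    List.replicate G.K (translate (shift 8 ((1 / 2) ^ m)) (shapePoly ((1 / 2) ^ m)))⟩

end Pool.Agent.Helper2_Pak
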