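import Pool.Agent.Helper2_Pak.StmtsK
import Pool.Agent.Helper2_Pack.StmtsT
import Pool.Agent.Helper91_Pack.T6

/-!
# Statements: the words of the coordinates, and polynomial time
-/

namespace Pool.Agent.Helper2_Pak

open Pool.Agent.Helper2_Pack Pool.Agent.Helper53_CookLevin Pool.Agent.Helper53_Chan
open Pool.Agent.Helper91_Pack (NG FG SG)

/-! ### Digits -/

/-- the number with the digits `d 0, …, d 8` in the basis `t = 2 ^ (-m)`, divided by `256` -/
def digVal (m : ℕ) (d : ℕ → ℕ) : ℚ :=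
  (∑ j ∈ Finset.range 9, (d j : ℚ) * ((1 / 2) ^ m) ^ j) / 256

/-- exactly `n` binary digits (the lowest ones) -/
def fixN (n k : ℕ) : List Letter := (bits k ++ List.replicate n Letter.zero).take n

/-- the word of a number with given digits -/
def digWord (m : ℕ) (d : ℕ → ℕ) : List Letter :=
  .plus :: (fixN m (d 8) ++ fixN m (d 7) ++ fixN m (d 6) ++ fixN m (d 5) ++ fixN m (d 4) ++
    fixN m (d 3) ++ fixN m (d 2) ++ fixN m (d 1) ++ bits (d 0)) ++
    .slash :: (List.replicate (8 * m + 8) Letter.zero ++ [.one, .comma])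

/-- the digits are in range -/
def DigOK (m : ℕ) (d : ℕ → ℕ) : Prop := 0 < d 0 ∧ d 8 % 2 = 1 ∧ ∀ j, 1 ≤ j → j ≤ 8 → d j < 2 ^ m

/-- T1: the word of a rational number with given digits -/
def T1Stmt : Prop := ∀ (m : ℕ) (d : ℕ → ℕ), 60 ≤ m → DigOK m d → encRat (digVal m d) = digWord m d

/-- pairs of numbers given by their digits -/
abbrev DP : Type := (ℕ → ℕ) × (ℕ → ℕ)

/-- the polygon with given digits -/
def dPoly (m : ℕ) (L : List DP) : Polygon := L.map fun d => (digVal m d.1, digVal m d.2)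

/-- its word, without the end mark -/
def dWord (m : ℕ) (L : List DP) : List Letter := L.flatMap fun d => digWord m d.1 ++ digWord m d.2

/-- all digits are in range -/
def OKs (m : ℕ) (L : List DP) : Prop := ∀ d ∈ L, DigOK m d.1 ∧ DigOK m d.2

/-- T2: the digits of the shape -/
def T2Stmt : Prop := ∃ L : List DP, ∀ m : ℕ, 60 ≤ m → OKs m L ∧
  translate (shift 8 ((1 / 2) ^ m)) (shapePoly ((1 / 2) ^ m)) = dPoly m L

/-! ### Word generators -/

/-- words over the letters of instances -/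
def LG (k : ℕ) (w : (Fin k → List CL) → List Letter) : Prop := PGen k (fun ρ => (w ρ).map Sum.inr)

/-- the words of lists of pairs -/
def WG (k : ℕ) (m : (Fin k → List CL) → ℕ) (L : (Fin k → List CL) → List DP) : Prop :=
  LG k (fun ρ => dWord (m ρ) (L ρ))

/-- T3: generators for the words of numbers -/
def T3Stmt : Prop := ∀ (k : ℕ) (m : (Fin k → List CL) → ℕ) (d : (Fin k → List CL) → ℕ → ℕ),
  NG k m → (∀ j, j < 9 → NG k (fun ρ => d ρ j)) → LG k (fun ρ => digWord (m ρ) (d ρ))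

/-- T4: the layout of the system of a word -/
def T4Stmt : Prop := ∀ (k : ℕ) (v : (Fin k → List CL) → List SLetter) (c : (Fin k → List CL) → ℕ),
  SG k v → NG k c →
  NG k (fun ρ => (lay (sysOfWord (v ρ))).n) ∧ NG k (fun ρ => (lay (sysOfWord (v ρ))).M) ∧
  FG k (fun ρ => (lay (sysOfWord (v ρ))).kd (c ρ)) ∧
  NG k (fun ρ => (lay (sysOfWord (v ρ))).l (c ρ))

/-- the total shift numbers of the special tiles of the main part of a column -/
def Lay.S1 (G : Lay) (c : ℕ) : ℕ :=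
  ∑ r ∈ (Finset.range G.N).filter (fun r => G.spc c r = true), (G.dr c r).1

/-- the total shift numbers of the special tiles of the main part of a column -/
def Lay.S2 (G : Lay) (c : ℕ) : ℕ :=
  ∑ r ∈ (Finset.range G.N).filter (fun r => G.spc c r = true), (G.dr c r).2

/-- T5: the numbers which occur in the main rows -/
def T5Stmt : Prop := ∀ (k : ℕ) (v : (Fin k → List CL) → List SLetter)
  (c r : (Fin k → List CL) → ℕ), SG k v → NG k c → NG k r →
  (∀ ρ, c ρ ≤ (lay (sysOfWord (v ρ))).M) →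
  NG k (fun ρ => if r ρ < (lay (sysOfWord (v ρ))).N then
    ((lay (sysOfWord (v ρ))).dr (c ρ) (r ρ)).1 else 0) ∧
  NG k (fun ρ => if r ρ < (lay (sysOfWord (v ρ))).N then
    ((lay (sysOfWord (v ρ))).dr (c ρ) (r ρ)).2 else 0) ∧
  NG k (fun ρ => (lay (sysOfWord (v ρ))).S1 (c ρ)) ∧
  NG k (fun ρ => (lay (sysOfWord (v ρ))).S2 (c ρ))

/-- T6: the heights of floors and ceilings in terms of digits -/
def T6Stmt : Prop := ∀ (S : SInst) (t : ℚ) (c : ℕ), S.WF → c < (lay S).M →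
  ((lay S).fl t c = -(((lay S).N : ℚ) - (lay S).l c) * t ^ 2 - (lay S).l c * t ^ 4 -
    (lay S).sg c * (((lay S).S1 c + (lay S).l c / 2) * t ^ 6 + (lay S).S2 c * t ^ 7)) ∧
  ((lay S).ce t c = (lay S).N + (match (lay S).kd c with
    | .bV => 5 + 5 * t ^ 2
    | .bW => 5 + 5 * t ^ 2
    | .U => 5 + 2 * t ^ 2 + 3 * t ^ 4 - 3 / 2 * t ^ 6
    | .Uv => 5 + 2 * t ^ 2 + 3 * t ^ 4 + 9 / 2 * t ^ 6 + 6 * t ^ 7
    | .V1 => 1 + t ^ 4 + 3 / 2 * t ^ 6 + 2 * t ^ 7
    | .V2 => 3 + 2 * t ^ 2 + t ^ 4 + 3 / 2 * t ^ 6 + 2 * t ^ 7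
    | .V3 o => 5 + 4 * t ^ 2 + t ^ 4 + 3 / 2 * t ^ 6 + 2 * t ^ 7 + o * t ^ 8
    | .W1 => 1 + t ^ 4 - 1 / 2 * t ^ 6
    | .W2 => 3 + 2 * t ^ 2 + t ^ 4 - 1 / 2 * t ^ 6
    | .W3 o => 5 + 4 * t ^ 2 + t ^ 4 - 1 / 2 * t ^ 6 + o * t ^ 8
    | .pL _ => t ^ 4
    | .pR _ => t ^ 4
    | _ => 0)) ∧
  (∀ X r, X ≤ (lay S).M → (lay S).N ≤ r → (lay S).wallR X r = true → r % 2 = 1 →
    (lay S).rw t X r = 2 * t ^ 2 + 3 * t ^ 3) ∧
  (∀ X r, X ≤ (lay S).M → r < (lay S).N → (lay S).rw t X r = ((lay S).dr X r).1 * t ^ 2 +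
    (((lay S).dr X r).2 + 1) * t ^ 3)

/-- the parameter `m` as a function of the length of the word of the system -/
def mOf1 (l : ℕ) : ℕ := 32 * (7 * (4 * l + 3)) * (4 * l + 16) + 512 * (l + 8) ^ 2 + 512

/-- T7: the parameter is large enough -/
def T7Stmt : Prop := ∀ S : SInst, S.WF → 32 * (lay S).K + 120 ≤ mOf1 S.enc.length ∧
  2 ^ 11 * (lay S).T < 2 ^ (mOf1 S.enc.length)

/-- the system in the first variable -/
def sysA {k : ℕ} (ρ : Fin (k + 1) → List CL) : SInst :=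
  sysOfWord ((ρ 0).filterMap Sum.getLeft?)

/-- TL: calculus for word generators of polygons -/
def TLStmt : Prop := ∀ (k : ℕ) (m : (Fin k → List CL) → ℕ), NG k m →
  (∀ l : List ((Fin k → List CL) → DP), (∀ p ∈ l, ∀ j, j < 9 →
    NG k (fun ρ => (p ρ).1 j) ∧ NG k (fun ρ => (p ρ).2 j)) →
    WG k m (fun ρ => l.map fun p => p ρ)) ∧
  (∀ L L' : (Fin k → List CL) → List DP, WG k m L → WG k m L' → WG k m (fun ρ => L ρ ++ L' ρ)) ∧
  (∀ (e : (Fin k → List CL) → ℕ) (L : ℕ → (Fin k → List CL) → List DP), NG k e →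
    WG (k + 1) (fun ρ => m (ρ ∘ Fin.succ)) (fun ρ => L (ρ 0).length (ρ ∘ Fin.succ)) →
    WG k m (fun ρ => (List.range (e ρ)).flatMap fun i => L i ρ) ∧
    WG k m (fun ρ => (List.range (e ρ)).reverse.flatMap fun i => L i ρ)) ∧
  (∀ (α : Type) (f : (Fin k → List CL) → α) (L : α → (Fin k → List CL) → List DP), FG k f →
    (∀ a, WG k m (L a)) → WG k m (fun ρ => L (f ρ) ρ)) ∧
  (∀ (P : (Fin k → List CL) → Prop) [∀ ρ, Decidable (P ρ)] (L L' : (Fin k → List CL) → List DP),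
    Test k P → WG k m L → WG k m L' → WG k m (fun ρ => if P ρ then L ρ else L' ρ))

/-- T8: the floor -/
def T8Stmt : Prop := ∃ D : SInst → List DP,
  (∀ S m, S.WF → 60 ≤ m → 2 ^ 11 * (lay S).T < 2 ^ m → OKs m (D S) ∧
    translate (shift (lay S).T ((1 / 2) ^ m)) ((List.range (lay S).M).flatMap
      ((lay S).flPts ((1 / 2) ^ m))) = dPoly m (D S)) ∧
  WG 1 (fun ρ => mOf1 (ρ 0).length) (fun ρ => D (sysA ρ))

/-- T9: the ceilings and the walls -/
def T9Stmt : Prop := ∃ D : SInst → List DP,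
  (∀ S m, S.WF → 60 ≤ m → 2 ^ 11 * (lay S).T < 2 ^ m → OKs m (D S) ∧
    translate (shift (lay S).T ((1 / 2) ^ m)) ((lay S).wallPts ((1 / 2) ^ m) 0 ++
      (List.range (lay S).M).flatMap (fun c => (lay S).cePts ((1 / 2) ^ m) c ++
        (lay S).wallPts ((1 / 2) ^ m) (c + 1))).reverse = dPoly m (D S)) ∧
  WG 1 (fun ρ => mOf1 (ρ 0).length) (fun ρ => D (sysA ρ))

/-- T9c: the ceilings -/
def T9cStmt : Prop := ∃ D : SInst → ℕ → List DP,
  (∀ S m c, S.WF → 60 ≤ m → 2 ^ 11 * (lay S).T < 2 ^ m → c < (lay S).M → OKs m (D S c) ∧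
    (translate (shift (lay S).T ((1 / 2) ^ m)) ((lay S).cePts ((1 / 2) ^ m) c)).reverse =
      dPoly m (D S c)) ∧
  ∀ (k : ℕ) (m c : (Fin k → List CL) → ℕ) (v : (Fin k → List CL) → List SLetter), NG k m →
    NG k c → SG k v → WG k m (fun ρ => D (sysOfWord (v ρ)) (c ρ))

/-- T9w: the walls -/
def T9wStmt : Prop := ∃ D : SInst → ℕ → List DP,
  (∀ S m X, S.WF → 60 ≤ m → 2 ^ 11 * (lay S).T < 2 ^ m → X ≤ (lay S).M → OKs m (D S X) ∧
    (translate (shift (lay S).T ((1 / 2) ^ m)) ((lay S).wallPts ((1 / 2) ^ m) X)).reverse =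
      dPoly m (D S X)) ∧
  ∀ (k : ℕ) (m X : (Fin k → List CL) → ℕ) (v : (Fin k → List CL) → List SLetter), NG k m →
    NG k X → SG k v → WG k m (fun ρ => D (sysOfWord (v ρ)) (X ρ))

/-- T10: the number of the pieces -/
def T10Stmt : Prop := NG 1 (fun ρ : Fin 1 → List CL => (lay (sysA ρ)).K)

end Pool.Agent.Helper2_Pak
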