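import Pool.Agent.Helper2_Pak.StmtsP
import Pool.Agent.Helper2_Pak.StmtsT
import Pool.Agent.Helper2_Pack.Main

/-!
# Assembly
-/

namespace Pool.Agent.Helper2_Pak

open Pool.Agent.Helper2_Pack (Motion SInst Instance WInst ExistsRHard packing existentialTheory)
open Pool.Agent.Helper53_Closed (DecisionProblem PolyReduces Formula encInst)
open Pool.Agent.Helper32_Poly Turing

theorem small_of_le {m : ℕ} {G : Lay} (h : 32 * G.K + 120 ≤ m) : Small ((1 / 2) ^ m) G := by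
  refine ⟨by positivity, ?_⟩
  have h1 : ((1 : ℝ) / 2) ^ m ≤ (1 / 2) ^ (32 * G.K + 120) :=
    pow_le_pow_of_le_one (by norm_num) (by norm_num) h
  calc ((1 : ℝ) / 2) ^ m * 2 ^ (32 * G.K + 120) ≤
        (1 / 2) ^ (32 * G.K + 120) * 2 ^ (32 * G.K + 120) :=
        mul_le_mul_of_nonneg_right h1 (by positivity)
    _ = 1 := by rw [← mul_pow]; norm_num

theorem Arr.ofOri {t : ℝ} {G : Lay} {g : ℕ → ℕ → Motion} {k : ℕ → ℕ → ℕ} {L : ℕ → Motion}
    {kL : ℕ → ℕ} (h : Arr t G g k L kL) (hk : ∀ c r, G.pres c r = true → k c r = G.ori c r) :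
    Arr t G g G.ori L kL :=
  ⟨h.sub, h.subL, h.disj, h.disjL, fun c r hp => by rw [← hk c r hp]; exact h.near c r hp, h.nearL⟩

/-- every packing gives displacements -/
theorem wit_of_packing (hC5 : C5Stmt) (hR5 : R5Stmt) (hE9 : E9Stmt) (t : ℝ) (G : Lay)
    (hG : G.OK) (hs : Small t G) (p : Packing t G) : ∃ xl xr Y, Wit t G xl xr Y := by
  obtain ⟨g, k, L, kL, h⟩ := hC5 t G p hG hs
  exact ⟨_, _, _, hE9 t G g L kL hG hs (h.ofOri (hR5 t G g k L kL hG hs h))⟩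

theorem geo (hU1 : U1Stmt) (hU2 : U2Stmt) (hU3 : U3Stmt) (hP3 : P3Stmt) (hC5 : C5Stmt)
    (hR5 : R5Stmt) (hE9 : E9Stmt) (hK9 : K9Stmt) : GeoStmt := by
  intro S m hS hm
  have hOK := hU1 S hS
  have hsm : Small ((1 / 2) ^ m) (lay S) := small_of_le hm
  have ht0 : (0 : ℝ) < (1 / 2) ^ m := by positivity
  have ht1 : ((1 : ℝ) / 2) ^ m ≤ 1 / 2 ^ 60 := by
    rw [← one_div_pow]
    exact pow_le_pow_of_le_one (by norm_num) (by norm_num) (by omega)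
  obtain ⟨h1, h2, h3⟩ := hP3 m (lay S) hOK hsm
  refine ⟨h2, h3, h1.trans ⟨?_, ?_⟩⟩
  · rintro ⟨p⟩
    obtain ⟨xl, xr, Y, hw⟩ := wit_of_packing hC5 hR5 hE9 _ _ hOK hsm p
    exact hU2 S _ xl xr Y hS ht0 ht1 hw
  · intro h
    obtain ⟨x, hx⟩ := hU3 S _ hS ht0 ht1 h
    exact hK9 _ _ x hOK hsm hx

/-- the polygon of the container -/
theorem contPoly_eq (G : Lay) (t : ℚ) :
    G.contPoly t = (G.floorP t).dropLast ++ (G.upP t G.M).tail.reverse := by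
  unfold Lay.contPoly Lay.floorP Lay.upP Lay.wallP
  rw [List.dropLast_append_of_ne_nil (by simp)]
  simp

theorem len_upP {m : ℕ} {G : Lay} (hG : G.OK) (t : ℚ) : 3 ≤ (G.upP t G.M).length := by
  have h1 := hG.M_pos
  have h2 : ∀ c, 2 ≤ (G.cePts t c).length := by
    intro c
    unfold Lay.cePts tentPts
    split <;> simp
  obtain ⟨M, hM⟩ : ∃ M, G.M = M + 1 := ⟨G.M - 1, by omega⟩
  unfold Lay.upP Lay.wallP
  rw [hM, List.range_succ_eq_map]
  simp only [List.flatMap_cons, List.length_append, List.length_cons]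
  have := h2 0
  omega

theorem p2 (hPA1 : PA1Stmt) (hPA3 : PA3Stmt) (hPB1 : PB1Stmt) (hPB4 : PB4Stmt) (hPC1 : PC1Stmt)
    (hPC2 : PC2Stmt) : P2Stmt := by
  intro m G hG hs
  obtain ⟨f1, f2, f3, f4, -, -⟩ := hPB1 m G hG hs
  obtain ⟨u1, u2, u3, -, -⟩ := hPB4 m G hG hs G.M le_rfl
  have hM := hG.M_pos
  have hJ : G.J ((1 / 2) ^ m) G.M = 0 := by
    unfold Lay.J Lay.topR
    simp
  rw [hJ] at u3
  have hne : ((0 : ℚ), (0 : ℚ)) ≠ ((G.M : ℚ), 0) := by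
    intro h
    have : (0 : ℚ) = G.M := congrArg Prod.fst h
    have h2 : (0 : ℕ) = G.M := by exact_mod_cast this
    omega
  obtain ⟨h1, h2⟩ := hPA1 _ _ _ _ f2 u2 f3 u3 hne f4 (len_upP (m := m) hG _)
  have f5 : (0 : ℚ) < G.M := by exact_mod_cast (by omega : 0 < G.M)
  have f6 := (hPA3 _ _ _ f1 f4 f2 f3 f5).1
  refine ⟨?_, ?_⟩
  · rw [contPoly_eq]
    exact h2 f6 u1 (hPC1 m G hG hs)
  · rw [contPoly_eq, h1]
    exact hPC2 m G hG hs

theorem eps1_bound {t : ℝ} (h0 : 0 < t) (h1 : t ≤ 1 / 2) : 0 < eps1 t ∧ eps1 t ≤ 1 / 4 := by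
  unfold eps1
  have h2 : 0 < 1 + t ^ 6 := by positivity
  refine ⟨by positivity, ?_⟩
  rw [div_le_iff₀ h2]
  have h3 : t ^ 11 ≤ (1 / 2) ^ 11 := pow_le_pow_left₀ h0.le h1 11
  have h4 : 0 < t ^ 6 := by positivity
  norm_num at h3 ⊢
  linarith

theorem hard_packing (hG : GeoStmt) (hA : Helper2_Pack.AlgStmt) (hT : TimeStmt) (k : ℕ)
    (hk : 1 ≤ k) : PolyReduces existentialTheory (packing k) := by
  obtain ⟨F, hF2, ⟨cF⟩⟩ := hA
  obtain ⟨μ, hμ, ⟨cT⟩⟩ := hT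
  have hmono : ∀ I : Instance, I.AtMostShapes 1 → I.AtMostShapes k := by
    rintro I ⟨s, hs⟩
    exact ⟨fun i => ⟨0, hk⟩, fun i j _ => hs i j (Subsingleton.elim _ _)⟩
  refine ⟨fun x => ⟨inst (μ (F x)) (lay (F x).1), (hG (F x).1 _ (F x).2 (hμ _)).1,
    hmono _ (hG (F x).1 _ (F x).2 (hμ _)).2.1⟩, ?_, ?_⟩
  · obtain ⟨c⟩ := TM2ComputableInPolyTime.comp cF cT
    exact ⟨⟨c.toTM2ComputableAux, c.time, fun x => c.outputsFun x⟩⟩
  · intro x
    have h := (hG (F x).1 _ (F x).2 (hμ _)).2.2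
    have hq : (0 : ℝ) < (1 / 2) ^ μ (F x) := by positivity
    have hq1 : ((1 : ℝ) / 2) ^ μ (F x) ≤ 1 / 2 := by
      have h1 := hμ (F x)
      calc ((1 : ℝ) / 2) ^ μ (F x) ≤ (1 / 2) ^ 1 :=
            pow_le_pow_of_le_one (by norm_num) (by norm_num) (by omega)
        _ = 1 / 2 := by norm_num
    have hb := eps1_bound hq hq1
    exact (hF2 x _ hb.1 hb.2).trans h.symm

/-- the main theorem from its parts -/
theorem main (hG : GeoStmt) (hA : Helper2_Pack.AlgStmt) (hT : TimeStmt) (k : ℕ) (hk : 1 ≤ k) :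
    ExistsRHard (packing k) :=
  fun _ hP => Helper2_Pack.polyReduces_trans hP (hard_packing hG hA hT k hk)

end Pool.Agent.Helper2_Pak
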