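import Pool.Agent.Helper2_Pak.SysLay
import Pool.Agent.Helper2_Pack.Stmts

/-!
# Statements of the geometric modules: soundness
-/

namespace Pool.Agent.Helper2_Pak

open MeasureTheory
open Pool.Agent.Helper2_Pack (Motion)

/-! ### Orientations and lines -/

/-- half of the width of a tile in the orientation `k` -/
noncomputable def HX (t : ℝ) (k : ℕ) : ℝ := if k % 2 = 0 then 1 / 2 else hh t

/-- half of the height of a tile in the orientation `k` -/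
noncomputable def HY (t : ℝ) (k : ℕ) : ℝ := if k % 2 = 0 then hh t else 1 / 2

/-- the shape in the orientation `k`, centred at `0` -/
def ort (t : ℝ) (k : ℕ) : Set ℂ := (fun z : ℂ => Complex.I ^ k * z) '' shape t

/-- the small rotation of a motion near the orientation `k` -/
noncomputable def rot (g : Motion) (k : ℕ) : ℂ := g.u * (-Complex.I) ^ k

/-- the tile is almost exactly in the cell with the lower left corner `a`, in the orientation `k` -/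
def NearK (e : ℝ) (a : ℂ) (k : ℕ) (g : Motion) : Prop :=
  k < 4 ∧ |(g.v - a).re - 1 / 2| ≤ e ∧ |(g.v - a).im - 1 / 2| ≤ e ∧ ‖g.u - Complex.I ^ k‖ ≤ e

/-- the line of the top side, at the abscissa `x` -/
noncomputable def tpL (t : ℝ) (g : Motion) (k : ℕ) (x : ℝ) : ℝ :=
  g.v.im + HY t k / (rot g k).re + (rot g k).im / (rot g k).re * (x - g.v.re)

/-- the line of the bottom side, at the abscissa `x` -/
noncomputable def btL (t : ℝ) (g : Motion) (k : ℕ) (x : ℝ) : ℝ :=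
  g.v.im - HY t k / (rot g k).re + (rot g k).im / (rot g k).re * (x - g.v.re)

/-- the line of the right side, at the ordinate `y` -/
noncomputable def rtL (t : ℝ) (g : Motion) (k : ℕ) (y : ℝ) : ℝ :=
  g.v.re + HX t k / (rot g k).re - (rot g k).im / (rot g k).re * (y - g.v.im)

/-- the line of the left side, at the ordinate `y` -/
noncomputable def lfL (t : ℝ) (g : Motion) (k : ℕ) (y : ℝ) : ℝ :=
  g.v.re - HX t k / (rot g k).re - (rot g k).im / (rot g k).re * (y - g.v.im)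

/-- there is a gap `q` between the tile in the orientation `k` and the tile in the orientation `k'`
above it -/
def penV (k k' : ℕ) : Bool := (k == 0 && (k' == 2 || k' == 3)) || (k == 1 && k' == 2)

/-- there is a gap `q` between the tile in the orientation `k` and the tile in the orientation `k'`
on its right -/
def penH (k k' : ℕ) : Bool := (k == 3 && (k' == 1 || k' == 2)) || (k == 0 && k' == 1)

/-- `q` or `0` -/
noncomputable def pq (t : ℝ) (b : Bool) : ℝ := if b then t ^ 3 else 0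

/-! ### Block S: the shape -/

/-- S1 -/
def S1Stmt : Prop := ∀ t : ℝ, 0 < t → t ≤ 1 / 2 ^ 60 →
  {z : ℂ | lo t z.re < z.im ∧ z.im < hi t z.re ∧ lf t z.im < z.re ∧ z.re < rt t z.im} ⊆
    interior (shape t) ∧
  shape t ⊆ closure (interior (shape t)) ∧ IsCompact (shape t) ∧ volume (frontier (shape t)) = 0

/-- S2: the shape is nearly a unit square -/
def S2Stmt : Prop := ∀ t : ℝ, 0 < t → t ≤ 1 / 2 ^ 60 →
  (∀ z ∈ shape t, |z.re| ≤ 1 / 2 ∧ |z.im| ≤ hh t + t ^ 3 ∧ |z.re| + |z.im| ≤ 1 / 2 + hh t - t) ∧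
  volume ({z : ℂ | |z.re| ≤ 1 / 2 - 2 * t ∧ |z.im| ≤ 1 / 2 - 2 * t} \ shape t) ≤
    ENNReal.ofReal (16 * t ^ 7) ∧
  ENNReal.ofReal (1 - 16 * t) ≤ volume (shape t)

/-! ### Block F: placed tiles -/

/-- F1: the shape is solid below its top side, in all orientations -/
def F1Stmt : Prop := ∀ (t : ℝ) (k : ℕ) (l : ℝ) (z : ℂ), 0 < t → t ≤ 1 / 2 ^ 60 → k < 4 →
  (l = 0 ∨ |l| = 1 / 8 ∨ |l| = 3 / 8 ∨ (|l| = 1 / 4 ∧ k ≤ 1)) → |z.re - l| ≤ 1 / 32 →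
  HY t k - 3 / 8 < z.im → z.im < HY t k → z ∈ interior (ort t k)

/-- F2: placed tiles are solid below the line of the top side -/
def F2Stmt : Prop := ∀ (t : ℝ) (g : Motion) (a : ℂ) (k : ℕ) (l x y : ℝ), 0 < t → t ≤ 1 / 2 ^ 60 →
  NearK (1 / 512) a k g → (l = 0 ∨ |l| = 1 / 8 ∨ |l| = 3 / 8 ∨ (|l| = 1 / 4 ∧ k ≤ 1)) →
  |x - (a.re + 1 / 2 + l)| ≤ 1 / 64 → tpL t g k x - 1 / 4 < y → y < tpL t g k x →
  (⟨x, y⟩ : ℂ) ∈ interior (tile t g)

/-- F3: placed tiles are solid above the line of the bottom side -/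
def F3Stmt : Prop := ∀ (t : ℝ) (g : Motion) (a : ℂ) (k : ℕ) (l x y : ℝ), 0 < t → t ≤ 1 / 2 ^ 60 →
  NearK (1 / 512) a k g → (l = 0 ∨ |l| = 1 / 8 ∨ |l| = 3 / 8 ∨ (|l| = 1 / 4 ∧ 2 ≤ k)) →
  |x - (a.re + 1 / 2 + l)| ≤ 1 / 64 → btL t g k x < y → y < btL t g k x + 1 / 4 →
  (⟨x, y⟩ : ℂ) ∈ interior (tile t g)

/-- F4: the same for the left and the right side -/
def F4Stmt : Prop := ∀ (t : ℝ) (g : Motion) (a : ℂ) (k : ℕ) (x y : ℝ), 0 < t → t ≤ 1 / 2 ^ 60 →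
  NearK (1 / 512) a k g → |y - (a.im + 1 / 2)| ≤ 1 / 64 →
  (rtL t g k y - 1 / 4 < x → x < rtL t g k y → (⟨x, y⟩ : ℂ) ∈ interior (tile t g)) ∧
  (lfL t g k y < x → x < lfL t g k y + 1 / 4 → (⟨x, y⟩ : ℂ) ∈ interior (tile t g))

/-- F5: the bumps of the top side (orientation `0`) and of the bottom side (orientation `2`) -/
def F5Stmt : Prop := ∀ (t : ℝ) (g : Motion) (a : ℂ) (s : ℝ), 0 < t → t ≤ 1 / 2 ^ 60 →
  |s| = 1 / 4 →
  (NearK (1 / 512) a 0 g → ∃ z ∈ tile t g, |z.re - (a.re + 1 / 2 + s)| ≤ 1 / 64 ∧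
    z.im = tpL t g 0 z.re + t ^ 3 / (rot g 0).re) ∧
  (NearK (1 / 512) a 2 g → ∃ z ∈ tile t g, |z.re - (a.re + 1 / 2 + s)| ≤ 1 / 64 ∧
    z.im = btL t g 2 z.re - t ^ 3 / (rot g 2).re)

/-- F6: consequences of disjoint interiors -/
def F6Stmt : Prop := ∀ (t : ℝ) (g h : Motion), 0 < t → t ≤ 1 / 2 ^ 60 →
  Disjoint (interior (tile t g)) (interior (tile t h)) →
  ∀ z ∈ tile t g, z ∉ interior (tile t h)

/-- F7: a tile above another tile -/
def F7Stmt : Prop := ∀ (t : ℝ) (g h : Motion) (a : ℂ) (k k' : ℕ) (l x : ℝ), 0 < t →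
  t ≤ 1 / 2 ^ 60 → NearK (1 / 512) a k g → NearK (1 / 512) (a + Complex.I) k' h →
  |x - (a.re + 1 / 2 + l)| ≤ 1 / 64 → Disjoint (interior (tile t g)) (interior (tile t h)) →
  ((l = 0 ∨ |l| = 1 / 8 ∨ |l| = 3 / 8) → tpL t g k x ≤ btL t h k' x) ∧
  ((l = 0 ∨ |l| = 1 / 8) → tpL t g k x + pq t (penV k k') ≤ btL t h k' x)

/-- F8: a tile on the right of another tile -/
def F8Stmt : Prop := ∀ (t : ℝ) (g h : Motion) (a : ℂ) (k k' : ℕ) (y : ℝ), 0 < t →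
  t ≤ 1 / 2 ^ 60 → NearK (1 / 512) a k g → NearK (1 / 512) (a + 1) k' h →
  |y - (a.im + 1 / 2)| ≤ 1 / 64 → Disjoint (interior (tile t g)) (interior (tile t h)) →
  rtL t g k y + pq t (penH k k') ≤ lfL t h k' y

/-! ### Block G: the container -/

/-- G1: numerical facts on the layout -/
def G1Stmt : Prop := ∀ (t : ℝ) (G : Lay), G.OK → Small t G →
  t ≤ 1 / 2 ^ 120 ∧ G.K * t ≤ 1 / 2 ^ 100 ∧ 1 ≤ G.K ∧
  (∀ c r, 0 ≤ G.D t c r ∧ G.D t c r ≤ t / 64 ∧ G.rw t c r ≤ t / 32 ∧ 0 < G.rw t c r) ∧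
  (∀ c, c < G.M → |G.fl t c| ≤ t / 64 ∧ |G.ce t c - G.top c| ≤ t / 64) ∧
  (∀ c r, c < G.M → r ≤ G.top c → |(∑ j ∈ Finset.range r, G.nh t c j) - r| ≤ t / 64)

/-- G2: the container is closed, and the cells cover it up to `t`; their cores are in the
container -/
def G2Stmt : Prop := ∀ (t : ℝ) (G : Lay), G.OK → Small t G →
  IsClosed (G.cont t) ∧
  (∀ z ∈ G.cont t, ∃ i : Cell G, -t ≤ (z - corner i).re ∧ (z - corner i).re ≤ 1 + t ∧
    -t ≤ (z - corner i).im ∧ (z - corner i).im ≤ 1 + t) ∧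
  (∀ (c r : ℕ) (z : ℂ), G.pres c r = true → c + t ≤ z.re → z.re ≤ c + 1 - t → r + t ≤ z.im →
    z.im ≤ r + 1 - t → z ∈ G.cont t) ∧
  (∀ (c : ℕ) (z : ℂ), c < G.M → (G.kd c).isL = true → c + eL (G.kd c).sig + t ≤ z.re →
    z.re ≤ c + eL (G.kd c).sig + 1 - t → G.N + t ≤ z.im → z.im ≤ G.N + 1 - t →
    t ^ 7 ≤ |z.re - (c + 1)| → z ∈ G.cont t)

/-- G3: floor and ceiling away from the bumps and dents -/
def G3Stmt : Prop := ∀ (t : ℝ) (G : Lay) (c : ℕ) (l : ℝ), G.OK → Small t G → c < G.M →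
  ∀ z ∈ G.cont t, |z.re - (c + 1 / 2 + l)| ≤ 1 / 64 →
  ((l = 0 ∨ |l| = 1 / 8 ∨ |l| = 3 / 8) → G.fl t c ≤ z.im) ∧
  ((G.kd c).isL = false → (G.kd c).isR = false → (l = 0 ∨ |l| = 1 / 8 ∨ |l| = 3 / 8) →
    z.im ≤ G.ce t c) ∧
  ((G.kd c).isL = true → l = -1 / 8 → z.im ≤ G.ce t c) ∧
  ((G.kd c).isR = true → l = 1 / 8 → z.im ≤ G.ce t c)

/-- G4: the bumps of the floor and of the ceiling, and the spikes -/
def G4Stmt : Prop := ∀ (t : ℝ) (G : Lay) (c : ℕ), G.OK → Small t G → c < G.M →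
  ((G.kd c).isW = false → (⟨c + 1 / 4, G.fl t c + t ^ 3⟩ : ℂ) ∉ interior (G.cont t) ∧
    (⟨c + 3 / 4, G.fl t c + t ^ 3⟩ : ℂ) ∉ interior (G.cont t)) ∧
  ((G.kd c).isW = true → (⟨c + 1 / 4, G.ce t c - t ^ 3⟩ : ℂ) ∉ interior (G.cont t) ∧
    (⟨c + 3 / 4, G.ce t c - t ^ 3⟩ : ℂ) ∉ interior (G.cont t)) ∧
  ((G.kd c).isL = true → ∀ y : ℝ, G.N + tipH t (G.kd c).sig ≤ y → y ≤ G.N + 1 + t / 4 →
    (⟨c + 1, y⟩ : ℂ) ∉ interior (G.cont t))

/-- G5: the walls -/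
def G5Stmt : Prop := ∀ (t : ℝ) (G : Lay) (X r : ℕ), G.OK → Small t G →
  ∀ z ∈ G.cont t, |z.re - X| ≤ 1 / 4 → |z.im - (r + 1 / 2)| ≤ 1 / 4 →
  (G.wallL X r = true → X - (if r % 2 = 1 then t ^ 3 else 0) ≤ z.re) ∧
  (G.wallR X r = true → z.re ≤ X + (if r % 2 = 1 then G.rw t X r else 0))

/-- G6: the room of a lever -/
def G6Stmt : Prop := ∀ (t : ℝ) (G : Lay) (c : ℕ), G.OK → Small t G → c < G.M →
  (G.kd c).isL = true → ∀ z ∈ G.cont t, c + 1 / 4 ≤ z.re → z.re ≤ c + 7 / 4 →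
  z.im ≤ G.N + 1 + t / 4 ∧
  (G.N + t ≤ z.im → c + eL (G.kd c).sig - t / 4 ≤ z.re ∧ z.re ≤ c + 1 + eL (G.kd c).sig + t / 4)

/-! ### Block C: coarse placement -/

/-- C1: a unit square in the room of a lever -/
def C1Stmt : Prop := ∀ (s d : ℝ) (m u z : ℂ) (α β : ℝ), (d = 14 / 32 ∨ d = 18 / 32) → 0 < s →
  s ≤ 1 / 1000 → ‖u‖ = 1 →
  (∀ w : ℂ, -d + s ≤ w.re → w.re ≤ -s → s ≤ w.im → w.im ≤ 1 - s → 1 / 2 - s ≤ ‖w - m‖) →
  (∀ w : ℂ, -d + s ≤ w.re → w.re ≤ 1 - d - s → -1 + s ≤ w.im → w.im ≤ -s →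
    1 / 2 - s ≤ ‖w - m‖) →
  (∀ w : ℂ, 1 - d + s ≤ w.re → w.re ≤ 2 - d - s → -1 + s ≤ w.im → w.im ≤ -s →
    1 / 2 - s ≤ ‖w - m‖) →
  |z.re| ≤ s → |z.im| ≤ s → z = m + u * (α + β * Complex.I) → |α| ≤ 1 / 2 + s → |β| ≤ 1 / 2 + s →
  |m.re - 1 / 2| ≤ 64 * s ∧ |m.im - 1 / 2| ≤ 64 * s ∧ ∃ k : ℕ, k < 4 ∧ ‖u - Complex.I ^ k‖ ≤ 64 * s

/-- the part of the container which is not covered by the tiles -/
def Packing.free {t : ℝ} {G : Lay} (p : Packing t G) : Set ℂ := G.cont t \ ⋃ i, tile t (p.g i)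

/-- C2: the uncovered area is small -/
def C2Stmt : Prop := ∀ (t : ℝ) (G : Lay) (p : Packing t G), G.OK → Small t G →
  volume p.free ≤ ENNReal.ofReal (32 * G.K * t)

/-- `z` lies in the image of the core square under `g` -/
def InCore (t : ℝ) (g : Motion) (z : ℂ) : Prop :=
  |((starRingEnd ℂ g.u) * (z - g.v)).re| ≤ 1 / 2 - 2 * t ∧
  |((starRingEnd ℂ g.u) * (z - g.v)).im| ≤ 1 / 2 - 2 * t

/-- `z` lies in the open square of side `ρ` around `w` -/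
def Sq (ρ : ℝ) (w z : ℂ) : Prop := |z.re - w.re| < ρ / 2 ∧ |z.im - w.im| < ρ / 2

/-- the size of the little squares -/
noncomputable def rhoG (t : ℝ) (G : Lay) : ℝ := 8 * Real.sqrt (G.K * t)

/-- C3: little squares -/
def C3Stmt : Prop := ∀ (t : ℝ) (G : Lay) (p : Packing t G), G.OK → Small t G →
  (∀ i j, i ≠ j → ∀ w : ℂ, ¬ ((∀ z, Sq (rhoG t G) w z → InCore t (p.g i) z) ∧
    (∀ z, Sq (rhoG t G) w z → InCore t (p.g j) z))) ∧
  (∀ i, ∀ w : ℂ, (∀ z, Sq (rhoG t G) w z → InCore t (p.g i) z) →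
    ∃ z, Sq (rhoG t G) w z ∧ z ∈ G.cont t) ∧
  (∀ w : ℂ, volume ({z | Sq (rhoG t G) w z} \ G.cont t) ≤ ENNReal.ofReal (4 * t ^ 7) →
    ∃ i z, Sq (rhoG t G) w z ∧ z ∈ tile t (p.g i))

/-- C4: consequences of `NearK` -/
def C4Stmt : Prop := ∀ (t e : ℝ) (a : ℂ) (k : ℕ) (g : Motion), 0 < t → t ≤ 1 / 2 ^ 60 → 0 ≤ e →
  e ≤ 1 / 200 → NearK e a k g →
  (∀ z : ℂ, 2 * t + 2 * e ≤ (z - a).re → (z - a).re ≤ 1 - (2 * t + 2 * e) →
    2 * t + 2 * e ≤ (z - a).im → (z - a).im ≤ 1 - (2 * t + 2 * e) → InCore t g z) ∧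
  ∀ z ∈ tile t g, -(t + 2 * e) ≤ (z - a).re ∧ (z - a).re ≤ 1 + (t + 2 * e) ∧
    -(t + 2 * e) ≤ (z - a).im ∧ (z - a).im ≤ 1 + (t + 2 * e)

/-- Tiles which are almost exactly in the cells of the layout: `g c r` in the cell `(c, r)`, and
`L c` in the room of the lever above the columns `c`, `c + 1`. -/
structure Arr (t : ℝ) (G : Lay) (g : ℕ → ℕ → Motion) (k : ℕ → ℕ → ℕ) (L : ℕ → Motion)
    (kL : ℕ → ℕ) : Prop where
  sub : ∀ c r, G.pres c r = true → tile t (g c r) ⊆ G.cont t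
  subL : ∀ c, c < G.M → (G.kd c).isL = true → tile t (L c) ⊆ G.cont t
  disj : ∀ c r c' r', G.pres c r = true → G.pres c' r' = true → (c ≠ c' ∨ r ≠ r') →
    Disjoint (interior (tile t (g c r))) (interior (tile t (g c' r')))
  disjL : ∀ c r c', G.pres c r = true → c' < G.M → (G.kd c').isL = true →
    Disjoint (interior (tile t (g c r))) (interior (tile t (L c')))
  near : ∀ c r, G.pres c r = true → NearK (1 / 1024) ⟨c, r⟩ (k c r) (g c r)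
  nearL : ∀ c, c < G.M → (G.kd c).isL = true →
    NearK (1 / 1024) ⟨c + eL (G.kd c).sig, G.N⟩ (kL c) (L c)

/-- C5: coarse placement -/
def C5Stmt : Prop := ∀ (t : ℝ) (G : Lay) (_ : Packing t G), G.OK → Small t G →
  ∃ g k L kL, Arr t G g k L kL

/-! ### Block R: rows, columns, and the pattern of the orientations -/

/-- the abscissa of the vertical chord of a column -/
noncomputable def chX (G : Lay) (c : ℕ) : ℝ := c + 1 / 2 + (if (G.kd c).isR then 1 / 8 else -1 / 8)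

/-- R1: the rows -/
def R1Stmt : Prop := ∀ (t : ℝ) (G : Lay) g k L kL, G.OK → Small t G → Arr t G g k L kL →
  (∀ c r, G.pres c r = true → G.pres (c + 1) r = true →
    rtL t (g c r) (k c r) (r + 1 / 2) + pq t (penH (k c r) (k (c + 1) r)) ≤
      lfL t (g (c + 1) r) (k (c + 1) r) (r + 1 / 2)) ∧
  (∀ c r, G.wallL c r = true →
    c - (if r % 2 = 1 then t ^ 3 else 0) ≤ lfL t (g c r) (k c r) (r + 1 / 2)) ∧
  (∀ c r, G.wallR (c + 1) r = true →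
    rtL t (g c r) (k c r) (r + 1 / 2) ≤ c + 1 + (if r % 2 = 1 then G.rw t (c + 1) r else 0)) ∧
  (∀ c r, G.pres c r = true → lfL t (g c r) (k c r) (r + 1 / 2) + 2 * HX t (k c r) ≤
    rtL t (g c r) (k c r) (r + 1 / 2) ∧
    (lfL t (g c r) (k c r) (r + 1 / 2) + 2 * HX t (k c r) =
      rtL t (g c r) (k c r) (r + 1 / 2) → rot (g c r) (k c r) = 1))

/-- R2: the columns -/
def R2Stmt : Prop := ∀ (t : ℝ) (G : Lay) g k L kL, G.OK → Small t G → Arr t G g k L kL →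
  ∀ c, c < G.M →
  (∀ r, r + 1 < G.top c → tpL t (g c r) (k c r) (chX G c) + pq t (penV (k c r) (k c (r + 1))) ≤
    btL t (g c (r + 1)) (k c (r + 1)) (chX G c)) ∧
  (G.fl t c + pq t (!(G.kd c).isW && decide (2 ≤ k c 0)) ≤ btL t (g c 0) (k c 0) (chX G c)) ∧
  (tpL t (g c (G.top c - 1)) (k c (G.top c - 1)) (chX G c) +
    pq t ((G.kd c).isW && decide (k c (G.top c - 1) ≤ 1)) ≤ G.ce t c) ∧
  (∀ r, r < G.top c → btL t (g c r) (k c r) (chX G c) + 2 * HY t (k c r) ≤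
    tpL t (g c r) (k c r) (chX G c))

/-- the number of the marked cells on the left of the column `c` in the row `r` (in the same
room) -/
def Lay.cum (G : Lay) (o : ℕ → ℕ → Bool) : ℕ → ℕ → ℕ
  | 0, _ => 0
  | c + 1, r => if G.pres c r then G.cum o c r + (if o c r then 1 else 0) else 0

/-- R3: tomography -/
def R3Stmt : Prop := ∀ (G : Lay) (o : ℕ → ℕ → Bool), G.OK →
  (∀ X r, G.wallR X r = true → G.cum o X r ≤ (G.dr X r).1) →
  (∀ c, c < G.M → ∑ r ∈ Finset.range (G.top c), (if G.spc c r then 1 else 0) ≤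
    ∑ r ∈ Finset.range (G.top c), (if o c r then 1 else 0)) →
  ∀ c r, G.pres c r = true → o c r = G.spc c r

/-- R4: the parity of the orientations -/
def R4Stmt : Prop := ∀ (t : ℝ) (G : Lay) g k L kL, G.OK → Small t G → Arr t G g k L kL →
  ∀ c r, G.pres c r = true → (decide (k c r % 2 = 1)) = G.spc c r

/-- R5: the orientations -/
def R5Stmt : Prop := ∀ (t : ℝ) (G : Lay) g k L kL, G.OK → Small t G → Arr t G g k L kL →
  ∀ c r, G.pres c r = true → k c r = G.ori c r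

/-! ### Block E: the exact inequalities -/

/-- E1: the tiles of the even rows are not rotated and have the exact abscissa -/
def E1Stmt : Prop := ∀ (t : ℝ) (G : Lay) g k L kL, G.OK → Small t G → Arr t G g k L kL →
  ∀ c r, G.pres c r = true → r % 2 = 0 → (g c r).u = Complex.I ^ (G.ori c r) ∧
    (g c r).v.re = c + 1 / 2

/-- E2 (adder): a tile in the orientation `1` above the bumps of a tile with the top side at the
height `Y₀`, and below the height `Y₂`. -/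
def E2Stmt : Prop := ∀ (t : ℝ) (g : Motion) (a : ℂ) (Y₀ Y₂ y : ℝ), 0 < t → t ≤ 1 / 2 ^ 60 →
  NearK (1 / 1024) a 1 g → |Y₀ - a.im| ≤ 1 / 512 → |y - (a.im + 1 / 2)| ≤ 1 / 512 →
  (⟨a.re + 1 / 4, Y₀ + t ^ 3⟩ : ℂ) ∉ interior (tile t g) →
  (⟨a.re + 3 / 4, Y₀ + t ^ 3⟩ : ℂ) ∉ interior (tile t g) →
  tpL t g 1 (a.re + 1 / 8) ≤ Y₂ → tpL t g 1 (a.re + 7 / 8) ≤ Y₂ →
  Y₀ + 1 + t ^ 4 + t ^ 4 * (lfL t g 1 y + hh t - (a.re + 1 / 2)) ≤ Y₂

/-- E3 (subtractor): a tile in the orientation `3` below the bumps of a tile with the bottom side at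
the height `Y₂`, and above the height `Y₀`. -/
def E3Stmt : Prop := ∀ (t : ℝ) (g : Motion) (a : ℂ) (Y₀ Y₂ y : ℝ), 0 < t → t ≤ 1 / 2 ^ 60 →
  NearK (1 / 1024) a 3 g → |Y₂ - (a.im + 1)| ≤ 1 / 512 → |y - (a.im + 1 / 2)| ≤ 1 / 512 →
  (⟨a.re + 1 / 4, Y₂ - t ^ 3⟩ : ℂ) ∉ interior (tile t g) →
  (⟨a.re + 3 / 4, Y₂ - t ^ 3⟩ : ℂ) ∉ interior (tile t g) →
  Y₀ ≤ btL t g 3 (a.re + 1 / 8) → Y₀ ≤ btL t g 3 (a.re + 7 / 8) →
  Y₀ + 1 + t ^ 4 - t ^ 4 * (rtL t g 3 y - hh t - (a.re + 1 / 2)) ≤ Y₂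

/-- the height of the pivot above the line of the bottom side of a lever -/
noncomputable def pivH (t : ℝ) (σ : Bool) : ℝ := (if σ then 1 / 4 else 3 / 4) * t ^ 3

/-- the sign of a lever -/
def sgB (σ : Bool) : ℝ := if σ then 1 else -1

/-- E4: the orientation of a lever (`a` is the lower left corner of the room) -/
def E4Stmt : Prop := ∀ (t : ℝ) (h : Motion) (a : ℂ) (k : ℕ) (σ : Bool), 0 < t →
  t ≤ 1 / 2 ^ 60 → NearK (1 / 1024) a k h →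
  (∀ z ∈ tile t h, z.im ≤ a.im + 1 + t / 4) →
  (∀ y : ℝ, a.im + tipH t σ ≤ y → y ≤ a.im + 1 + t / 4 →
    (⟨a.re + 1 - eL σ, y⟩ : ℂ) ∉ interior (tile t h)) → k = 3

/-- E5 (lever): `P₁`, `P₂` are the apexes of the bumps of the ports -/
def E5Stmt : Prop := ∀ (t Y₁ Y₂ : ℝ) (h : Motion) (a : ℂ) (σ : Bool), 0 < t → t ≤ 1 / 2 ^ 60 →
  |Y₁| ≤ t ^ 3 / 64 → |Y₂| ≤ t ^ 3 / 64 → NearK (1 / 1024) a 3 h →
  (∀ y : ℝ, a.im + tipH t σ ≤ y → y ≤ a.im + 1 + t / 4 →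
    (⟨a.re + 1 - eL σ, y⟩ : ℂ) ∉ interior (tile t h)) →
  (⟨a.re + 1 - eL σ - 1 / 4, a.im + t ^ 3 + Y₁⟩ : ℂ) ∉ interior (tile t h) →
  (⟨a.re + 1 - eL σ + 1 / 4, a.im + t ^ 3 + Y₂⟩ : ℂ) ∉ interior (tile t h) →
  1 / 4 * (1 + t ^ 6) * (Y₁ + Y₂) + 2 * sgB σ * t ^ 3 * (Y₁ * Y₂) ≤ 0

/-- The displacements: `xl c r`, `xr c r` are the displacements of the left and of the right side of
the tile in the cell `(c, r)`, `r` odd, and `Y c` is the excess of the main part of a column. -/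
structure Wit (t : ℝ) (G : Lay) (xl xr : ℕ → ℕ → ℝ) (Y : ℕ → ℝ) : Prop where
  left : ∀ c r, r % 2 = 1 → G.wallL c r = true → -t ^ 3 ≤ xl c r
  right : ∀ c r, r % 2 = 1 → G.wallR (c + 1) r = true → xr c r ≤ t ^ 3
  wid : ∀ c r, r % 2 = 1 → G.pres c r = true → xl c r ≤ xr c r
  adj : ∀ c r, r % 2 = 1 → G.pres c r = true → G.pres (c + 1) r = true → xr c r ≤ xl (c + 1) r
  mainV : ∀ c, c < G.M → (G.kd c).isW = false →
    t ^ 4 * ∑ i ∈ Finset.range (G.l c), xl c (2 * i + 1) ≤ Y c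
  mainW : ∀ c, c < G.M → (G.kd c).isW = true →
    -(t ^ 4 * ∑ i ∈ Finset.range (G.l c), xr c (2 * i + 1)) ≤ Y c
  ceilV : ∀ c, c < G.M → (G.kd c).isW = false → (G.kd c).isL = false → (G.kd c).isR = false →
    Y c + t ^ 4 * ∑ r ∈ (Finset.Ico G.N (G.top c)).filter (fun r => G.spc c r = true), xl c r ≤
      (G.kd c).off * t ^ 8
  ceilW : ∀ c, c < G.M → (G.kd c).isW = true →
    Y c - t ^ 4 * ∑ r ∈ (Finset.Ico G.N (G.top c)).filter (fun r => G.spc c r = true), xr c r ≤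
      (G.kd c).off * t ^ 8
  lever : ∀ c, c < G.M → (G.kd c).isL = true → |Y c| ≤ t ^ 3 / 64 ∧ |Y (c + 1)| ≤ t ^ 3 / 64 ∧
    1 / 4 * (1 + t ^ 6) * (Y c + Y (c + 1)) + 2 * sgB (G.kd c).sig * t ^ 3 * (Y c * Y (c + 1)) ≤ 0

/-- the displacement of the left side of a tile -/
noncomputable def xlD (t : ℝ) (G : Lay) (g : ℕ → ℕ → Motion) (c r : ℕ) : ℝ :=
  lfL t (g c r) (G.ori c r) (r + 1 / 2) - c - G.D t c r

/-- the displacement of the right side of a tile -/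
noncomputable def xrD (t : ℝ) (G : Lay) (g : ℕ → ℕ → Motion) (c r : ℕ) : ℝ :=
  rtL t (g c r) (G.ori c r) (r + 1 / 2) - c - G.D t c r - 2 * HX t (G.ori c r)

/-- the excess of the main part of a column -/
noncomputable def YD (t : ℝ) (G : Lay) (g : ℕ → ℕ → Motion) (c : ℕ) : ℝ :=
  (g c (G.N - 1)).v.im + hh t - G.N

/-- E6: the rows -/
def E6Stmt : Prop := ∀ (t : ℝ) (G : Lay) g L kL, G.OK → Small t G → Arr t G g G.ori L kL →
  (∀ c r, r % 2 = 1 → G.wallL c r = true → -t ^ 3 ≤ xlD t G g c r) ∧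
  (∀ c r, r % 2 = 1 → G.wallR (c + 1) r = true → xrD t G g c r ≤ t ^ 3) ∧
  (∀ c r, r % 2 = 1 → G.pres c r = true → xlD t G g c r ≤ xrD t G g c r) ∧
  (∀ c r, r % 2 = 1 → G.pres c r = true → G.pres (c + 1) r = true →
    xrD t G g c r ≤ xlD t G g (c + 1) r) ∧
  (∀ c r, r % 2 = 1 → G.pres c r = true → -t ^ 3 ≤ xlD t G g c r ∧ xrD t G g c r ≤ t ^ 3)

/-- E7: the columns. `B r` is the height of the bottom of the tile in the row `r`, `r` even, and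
`T r` the height of its top. -/
def E7Stmt : Prop := ∀ (t : ℝ) (G : Lay) g L kL, G.OK → Small t G → Arr t G g G.ori L kL →
  ∀ c, c < G.M →
  (G.fl t c ≤ (g c 0).v.im - hh t) ∧
  ((G.kd c).h = 0 → (g c (G.N - 1)).v.im + hh t ≤ G.ce t c) ∧
  (∀ r, r % 2 = 1 → r < G.top c →
    (G.spc c r = false →
      (r + 1 < G.top c → (g c (r - 1)).v.im + hh t + G.nh t c r ≤ (g c (r + 1)).v.im - hh t) ∧
      (r + 1 = G.top c → (g c (r - 1)).v.im + hh t + G.nh t c r ≤ G.ce t c)) ∧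
    (G.spc c r = true → (G.kd c).isW = false →
      (r + 1 < G.top c → (g c (r - 1)).v.im + hh t + G.nh t c r + t ^ 4 * xlD t G g c r ≤
        (g c (r + 1)).v.im - hh t) ∧
      (r + 1 = G.top c → (g c (r - 1)).v.im + hh t + G.nh t c r + t ^ 4 * xlD t G g c r ≤
        G.ce t c)) ∧
    (G.spc c r = true → (G.kd c).isW = true →
      (r + 1 < G.top c → (g c (r - 1)).v.im + hh t + G.nh t c r - t ^ 4 * xrD t G g c r ≤
        (g c (r + 1)).v.im - hh t) ∧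
      (r + 1 = G.top c → (g c (r - 1)).v.im + hh t + G.nh t c r - t ^ 4 * xrD t G g c r ≤
        G.ce t c)))

/-- E8: the levers -/
def E8Stmt : Prop := ∀ (t : ℝ) (G : Lay) g L kL, G.OK → Small t G → Arr t G g G.ori L kL →
  ∀ c, c < G.M → (G.kd c).isL = true → |YD t G g c| ≤ t ^ 3 / 64 → |YD t G g (c + 1)| ≤ t ^ 3 / 64 →
    1 / 4 * (1 + t ^ 6) * (YD t G g c + YD t G g (c + 1)) +
      2 * sgB (G.kd c).sig * t ^ 3 * (YD t G g c * YD t G g (c + 1)) ≤ 0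

/-- E9: every packing gives displacements -/
def E9Stmt : Prop := ∀ (t : ℝ) (G : Lay) g L kL, G.OK → Small t G → Arr t G g G.ori L kL →
  Wit t G (xlD t G g) (xrD t G g) (YD t G g)

end Pool.Agent.Helper2_Pak
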