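import Pool.Agent.Helper2_Pak.Stmts
import Pool.Agent.Helper2_Pack.Stmts2

/-!
# Statements of the geometric modules: completeness
-/

namespace Pool.Agent.Helper2_Pak

open MeasureTheory
open Pool.Agent.Helper2_Pack (Motion SInst)

/-- the motion with rotation `I ^ k` and translation `v` -/
noncomputable def mk (k : ℕ) (v : ℂ) : Motion := ⟨Complex.I ^ k, v, by simp⟩

/-- The conditions for the displacements `x c r` of the rows. -/
structure Sol (t : ℝ) (G : Lay) (x : ℕ → ℕ → ℝ) : Prop where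
  bound : ∀ c r, |x c r| ≤ t ^ 3
  even : ∀ c r, r % 2 = 0 → x c r = 0
  row : ∀ c r, G.pres c r = true → G.pres (c + 1) r = true → x c r = x (c + 1) r
  /-- the excess of the main part of a port -/
  port : ∀ c, c < G.M → ((G.kd c).isL = true ∨ (G.kd c).isR = true) →
    |∑ r ∈ (Finset.range G.N).filter (fun r => G.spc c r = true), x c r| ≤ t ^ 4
  ceil : ∀ c, c < G.M → (G.kd c).isL = false → (G.kd c).isR = false →
    G.sg c * t ^ 4 * ∑ r ∈ (Finset.range (G.top c)).filter (fun r => G.spc c r = true), x c r ≤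
      (G.kd c).off * t ^ 8
  lever : ∀ c, c < G.M → (G.kd c).isL = true →
    1 / 4 * (1 + t ^ 6) *
      (t ^ 4 * ∑ r ∈ (Finset.range G.N).filter (fun r => G.spc c r = true), x c r +
        t ^ 4 * ∑ r ∈ (Finset.range G.N).filter (fun r => G.spc (c + 1) r = true), x (c + 1) r) +
      2 * sgB (G.kd c).sig * t ^ 3 *
      ((t ^ 4 * ∑ r ∈ (Finset.range G.N).filter (fun r => G.spc c r = true), x c r) *
        (t ^ 4 * ∑ r ∈ (Finset.range G.N).filter (fun r => G.spc (c + 1) r = true), x (c + 1) r)) ≤ 0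

/-- K1: tiles in the same column; `d` is the gap between the lines of the sides which face each
other -/
def K1Stmt : Prop := ∀ (t : ℝ) (k k' : ℕ) (v v' : ℂ), 0 < t → t ≤ 1 / 2 ^ 60 →
  |v'.re - v.re| ≤ t / 4 →
  ((k, k') ∈ [(0, 0), (1, 0), (2, 2), (2, 3), (1, 1), (1, 3), (2, 0), (2, 1), (3, 0), (3, 1),
      (3, 3)] ∧ HY t k + HY t k' ≤ v'.im - v.im ∨
    (k, k') ∈ [(0, 3), (1, 2)] ∧ HY t k + HY t k' + t ^ 3 ≤ v'.im - v.im ∨
    (k, k') = (0, 1) ∧ HY t k + HY t k' + t ^ 4 + t ^ 4 * (v'.re - v.re) ≤ v'.im - v.im ∨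
    (k, k') = (3, 2) ∧ HY t k + HY t k' + t ^ 4 - t ^ 4 * (v.re - v'.re) ≤ v'.im - v.im) →
  Disjoint (interior (tile t (mk k v))) (interior (tile t (mk k' v')))

/-- K2: tiles in the same row -/
def K2Stmt : Prop := ∀ (t : ℝ) (k k' : ℕ) (v v' : ℂ), 0 < t → t ≤ 1 / 2 ^ 60 →
  |v'.im - v.im| ≤ t / 4 →
  (k, k') ∈ [(0, 0), (0, 1), (1, 0), (1, 1), (2, 2), (2, 3), (3, 2), (3, 3), (0, 2), (0, 3),
    (1, 2), (1, 3), (2, 0)] →
  HX t k + HX t k' + pq t (penH k k') ≤ v'.re - v.re →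
  Disjoint (interior (tile t (mk k v))) (interior (tile t (mk k' v')))

/-- K3: tiles in other cells -/
def K3Stmt : Prop := ∀ (t : ℝ) (k k' : ℕ) (v v' : ℂ), 0 < t → t ≤ 1 / 2 ^ 60 →
  (1 - t / 4 ≤ |v'.re - v.re| ∧ 1 - t / 4 ≤ |v'.im - v.im| ∨ 3 / 2 ≤ |v'.re - v.re| ∨
    3 / 2 ≤ |v'.im - v.im|) →
  Disjoint (interior (tile t (mk k v))) (interior (tile t (mk k' v')))

/-- K4: the position of a lever. The origin is the lower left corner of the room; the lever is above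
the port tiles (with tops at the heights `Y₁`, `Y₂`), and outside of the spike. -/
def K4Stmt : Prop := ∀ (t Y₁ Y₂ : ℝ) (σ : Bool), 0 < t → t ≤ 1 / 2 ^ 60 → |Y₁| ≤ t ^ 8 →
  |Y₂| ≤ t ^ 8 → 1 / 4 * (1 + t ^ 6) * (Y₁ + Y₂) + 2 * sgB σ * t ^ 3 * (Y₁ * Y₂) ≤ 0 →
  ∃ h : Motion, ∀ z ∈ tile t h, -(t / 8) ≤ z.re ∧ z.re ≤ 1 + t / 8 ∧ t ^ 3 / 4 ≤ z.im ∧
    z.im ≤ 1 + t / 8 ∧
    Y₁ + bump t (z.re - (1 - eL σ - 1 / 4)) ≤ z.im ∧
    Y₂ + bump t (z.re - (1 - eL σ + 1 / 4)) ≤ z.im ∧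
    z.im ≤ tipH t σ + (1 + t / 4 - tipH t σ) * (|z.re - (1 - eL σ)| / t ^ 7)

/-- the height of the cell `(c, r)` when the rows are displaced by `x` -/
noncomputable def Lay.cH (G : Lay) (t : ℝ) (x : ℕ → ℕ → ℝ) (c r : ℕ) : ℝ :=
  G.nh t c r + (if G.spc c r then G.sg c * (t ^ 4 * x c r) else 0)

/-- the height of the bottom line of the tile in the cell `(c, r)` -/
noncomputable def Lay.bot (G : Lay) (t : ℝ) (x : ℕ → ℕ → ℝ) (c r : ℕ) : ℝ :=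
  G.fl t c + (∑ j ∈ Finset.range r, G.cH t x c j) +
    (if G.spc c r && !(G.kd c).isW then t ^ 4 + t ^ 4 * (G.D t c r + t ^ 2 / 2 + x c r) else 0)

/-- the centre of the tile in the cell `(c, r)` -/
noncomputable def Lay.ctr (G : Lay) (t : ℝ) (x : ℕ → ℕ → ℝ) (c r : ℕ) : ℂ :=
  ⟨c + G.D t c r + x c r + HX t (G.ori c r), G.bot t x c r + HY t (G.ori c r)⟩

/-- K5: the positions of the tiles -/
def K5Stmt : Prop := ∀ (t : ℝ) (G : Lay) (x : ℕ → ℕ → ℝ), G.OK → Small t G → Sol t G x →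
  (∀ c r, G.pres c r = true → |(G.ctr t x c r).re - (c + 1 / 2)| ≤ t / 16 ∧
    |(G.ctr t x c r).im - (r + 1 / 2)| ≤ t / 16 ∧ G.ori c r < 4) ∧
  (∀ c r, G.pres c r = true → r % 2 = 0 → (G.ctr t x c r).re = c + 1 / 2 ∧ G.ori c r % 2 = 0) ∧
  (∀ c, c < G.M → G.bot t x c 0 = G.fl t c) ∧
  (∀ c r, G.pres c (r + 1) = true →
    ((G.ori c r, G.ori c (r + 1)) ∈ [(0, 0), (1, 0), (2, 2), (2, 3)] ∧
        (G.ctr t x c (r + 1)).im - (G.ctr t x c r).im = HY t (G.ori c r) + HY t (G.ori c (r + 1)) ∨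
      (G.ori c r, G.ori c (r + 1)) = (0, 1) ∧
        (G.ctr t x c (r + 1)).im - (G.ctr t x c r).im = HY t (G.ori c r) +
          HY t (G.ori c (r + 1)) + t ^ 4 +
          t ^ 4 * ((G.ctr t x c (r + 1)).re - (G.ctr t x c r).re) ∨
      (G.ori c r, G.ori c (r + 1)) = (3, 2) ∧
        (G.ctr t x c (r + 1)).im - (G.ctr t x c r).im = HY t (G.ori c r) +
          HY t (G.ori c (r + 1)) + t ^ 4 -
          t ^ 4 * ((G.ctr t x c r).re - (G.ctr t x c (r + 1)).re))) ∧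
  (∀ c r, G.pres c r = true → G.pres (c + 1) r = true →
    (G.ori c r, G.ori (c + 1) r) ∈ [(0, 0), (0, 1), (1, 0), (1, 1), (2, 2), (2, 3), (3, 2), (3, 3),
      (0, 2), (0, 3), (1, 2), (1, 3), (2, 0)] ∧
    (G.ctr t x (c + 1) r).re - (G.ctr t x c r).re = HX t (G.ori c r) + HX t (G.ori (c + 1) r) +
      pq t (penH (G.ori c r) (G.ori (c + 1) r))) ∧
  (∀ X r, G.wallL X r = true → (G.ori X r ≠ 1) ∧
    X - (if r % 2 = 1 then t ^ 3 else 0) ≤ (G.ctr t x X r).re - HX t (G.ori X r)) ∧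
  (∀ X r, G.wallR (X + 1) r = true → (G.ori X r ≠ 3) ∧
    (G.ctr t x X r).re + HX t (G.ori X r) ≤ X + 1 + (if r % 2 = 1 then G.rw t (X + 1) r else 0))

/-- K6: the tops of the columns -/
def K6Stmt : Prop := ∀ (t : ℝ) (G : Lay) (x : ℕ → ℕ → ℝ), G.OK → Small t G → Sol t G x →
  (∀ c, c < G.M → (G.kd c).isL = false → (G.kd c).isR = false → (G.kd c).isW = false →
    G.bot t x c (G.top c - 1) + 2 * HY t (G.ori c (G.top c - 1)) ≤ G.ce t c) ∧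
  (∀ c, c < G.M → (G.kd c).isW = true → (G.ori c (G.top c - 1) = 2 ∧
      G.bot t x c (G.top c - 1) + 2 * HY t 2 ≤ G.ce t c ∨ G.ori c (G.top c - 1) = 3 ∧
      G.bot t x c (G.top c - 1) + 2 * HY t 3 + t ^ 4 -
        t ^ 4 * ((G.ctr t x c (G.top c - 1)).re - (c + 1 / 2)) ≤ G.ce t c)) ∧
  (∀ c, c < G.M → ((G.kd c).isL = true ∨ (G.kd c).isR = true) →
    G.ori c (G.N - 1) = 0 ∧ G.bot t x c (G.N - 1) + 2 * hh t =
      G.N + t ^ 4 * ∑ r ∈ (Finset.range G.N).filter (fun r => G.spc c r = true), x c r)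

/-- K7: the tiles are in the container -/
def K7Stmt : Prop := ∀ (t : ℝ) (G : Lay) (x : ℕ → ℕ → ℝ), G.OK → Small t G → Sol t G x →
  ∀ c r, G.pres c r = true → tile t (mk (G.ori c r) (G.ctr t x c r)) ⊆ G.cont t

/-- K8: the levers -/
def K8Stmt : Prop := ∀ (t : ℝ) (G : Lay) (x : ℕ → ℕ → ℝ), G.OK → Small t G → Sol t G x →
  ∃ L : ℕ → Motion, ∀ c, c < G.M → (G.kd c).isL = true → tile t (L c) ⊆ G.cont t ∧
    (∀ z ∈ tile t (L c), G.N < z.im ∧ c + 1 / 4 ≤ z.re ∧ z.re ≤ c + 7 / 4) ∧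
    ∀ c' r, G.pres c' r = true →
      Disjoint (interior (tile t (mk (G.ori c' r) (G.ctr t x c' r)))) (interior (tile t (L c)))

/-- K9: completeness -/
def K9Stmt : Prop := ∀ (t : ℝ) (G : Lay) (x : ℕ → ℕ → ℝ), G.OK → Small t G → Sol t G x →
  Nonempty (Packing t G)

/-! ### Block U: the layout of a system -/

/-- U0: the blocks of a system -/
def U0Stmt : Prop := ∀ S : SInst, S.WF →
  (∀ b right a a' a'' o, blk S b = .sum right a a' a'' o → a ≤ a' ∧ a' ≤ a'' ∧ a'' ≤ nR S ∧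
    -1 ≤ o ∧ o ≤ 1 ∧ (right = true → nT S + 2 ≤ b ∧ b ≤ 2 * nT S + 1) ∧
    (right = false → 1 ≤ b ∧ b ≤ nT S)) ∧
  (∀ b i j, blk S b = .inv i j → i < j ∧ j < S.n ∧ nT S + 2 ≤ b ∧ b ≤ 2 * nT S + 1) ∧
  (∀ i, i < S.n → blk S (i + 1) = .sum false (2 * i + 1) (nR S) (nR S) 1 ∧
    blk S (nT S + 2 + i) = .sum true (2 * i + 1) (nR S) (nR S) 1 ∧
    blk S (S.n + i + 1) = .sum false (2 * i + 1) (2 * i + 2) (nR S) 0 ∧
    blk S (nT S + 2 + S.n + i) = .sum true (2 * i + 1) (2 * i + 2) (nR S) 0) ∧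
  (∀ k, k < S.cons.length →
    (∀ I κ, S.cons.getD k (.inv 0 1) = .sum I κ →
      blk S (2 * S.n + k + 1) = sumBlk false (nR S) I (-κ) ∧
      blk S (nT S + 2 + 2 * S.n + k) = sumBlk true (nR S) I κ) ∧
    (∀ i j, S.cons.getD k (.inv 0 1) = .inv i j →
      blk S (nT S + 2 + 2 * S.n + k) = .inv i j)) ∧
  (∀ b c, c < 7 → (lay S).kd (7 * b + c) = ((blk S b).col (nR S) c).1 ∧
    (lay S).l (7 * b + c) = ((blk S b).col (nR S) c).2) ∧
  0 < nT S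

/-- U1a: the weights -/
def U1aStmt : Prop := ∀ S : SInst, S.WF →
  ∃ (α : ℕ → ℤ) (β : ℕ → ℕ → ℤ), ∀ c r, (lay S).pres c r = true →
    ((lay S).spc c r = true → 0 < α c + β ((lay S).st c r) r) ∧
    ((lay S).spc c r = false → α c + β ((lay S).st c r) r < 0)

/-- U1 -/
def U1Stmt : Prop := ∀ S : SInst, S.WF → (lay S).OK

/-- U2a: from displacements to the values of the columns -/
def U2aStmt : Prop := ∀ (S : SInst) (t : ℝ) (xl xr : ℕ → ℕ → ℝ) (Y : ℕ → ℝ), S.WF → 0 < t →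
  t ≤ 1 / 2 ^ 60 → Wit t (lay S) xl xr Y → ∃ ζ : ℕ → ℝ, ζ (nR S) = 0 ∧
  (∀ b a a' a'' o, blk S b = .sum true a a' a'' o → ζ a + ζ a' + ζ a'' ≤ o) ∧
  (∀ b a a' a'' o, blk S b = .sum false a a' a'' o → -(ζ a + ζ a' + ζ a'') ≤ o) ∧
  (∀ b i j, blk S b = .inv i j → |ζ (2 * i + 1)| ≤ 1 → |ζ (2 * j + 1)| ≤ 1 →
    |ζ (2 * i + 2)| ≤ 1 → |ζ (2 * j + 2)| ≤ 1 →
    ζ (2 * i + 1) + ζ (2 * j + 1) + eps1 t * (ζ (2 * i + 1) * ζ (2 * j + 1)) ≤ 0 ∧
    ζ (2 * i + 2) + ζ (2 * j + 2) - eps1 t * (ζ (2 * i + 2) * ζ (2 * j + 2)) ≤ 0)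

/-- U2: from displacements to a solution -/
def U2Stmt : Prop := ∀ (S : SInst) (t : ℝ) (xl xr : ℕ → ℕ → ℝ) (Y : ℕ → ℝ), S.WF → 0 < t →
  t ≤ 1 / 2 ^ 60 → Wit t (lay S) xl xr Y → S.Solvable (eps1 t)

/-- U3: from a solution to displacements -/
def U3Stmt : Prop := ∀ (S : SInst) (t : ℝ), S.WF → 0 < t → t ≤ 1 / 2 ^ 60 →
  S.Solvable (eps1 t) → ∃ x, Sol t (lay S) x

/-- U4: the local rows of the layout of a system -/
def U4Stmt : Prop := ∀ (S : SInst), S.WF →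
  (∀ X r, (lay S).N ≤ r → (lay S).wallR X r = true → r % 2 = 1 → (lay S).dr X r = (2, 2)) ∧
  (∀ c r, (lay S).N ≤ r → (lay S).pres c r = true → (lay S).spc c r = true →
    (lay S).dr c r = (match (lay S).kd c with
      | .V1 => (1, 2)
      | .V2 => (1, 2)
      | .V3 _ => (1, 2)
      | .Uv => (1, 2)
      | _ => (0, 0)))

/-! ### Block P: polygons -/

/-- P1: the polygon of the shape -/
def P1Stmt : Prop := ∀ m : ℕ, 60 ≤ m → Helper2_Pack.IsSimple (shapePoly ((1 / 2) ^ m)) ∧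
  Helper2_Pack.region (shapePoly ((1 / 2) ^ m)) = shape ((1 / 2) ^ m)

/-- P2: the polygon of the container -/
def P2Stmt : Prop := ∀ (m : ℕ) (G : Lay), G.OK → Small ((1 / 2) ^ m) G →
  Helper2_Pack.IsSimple (G.contPoly ((1 / 2) ^ m)) ∧
  Helper2_Pack.region (G.contPoly ((1 / 2) ^ m)) = G.cont ((1 / 2) ^ m)

/-- P3: the instance -/
def P3Stmt : Prop := ∀ (m : ℕ) (G : Lay), G.OK → Small ((1 / 2) ^ m) G →
  ((inst m G).Solvable ↔ Nonempty (Packing ((1 / 2) ^ m) G)) ∧ (inst m G).Valid ∧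
  (inst m G).AtMostShapes 1

/-- the geometric part of the reduction -/
def GeoStmt : Prop := ∀ (S : SInst) (m : ℕ), S.WF → 32 * (lay S).K + 120 ≤ m →
  (inst m (lay S)).Valid ∧ (inst m (lay S)).AtMostShapes 1 ∧
  ((inst m (lay S)).Solvable ↔ S.Solvable (eps1 ((1 / 2) ^ m)))

/-- the polynomial time part of the reduction -/
def TimeStmt : Prop := ∃ μ : Helper2_Pack.WInst → ℕ, (∀ S, 32 * (lay S.1).K + 120 ≤ μ S) ∧
  Nonempty (Turing.TM2ComputableInPolyTime (fun S : Helper2_Pack.WInst => S.1.enc)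
    Helper2_Pack.Instance.enc (fun S : Helper2_Pack.WInst => inst (μ S) (lay S.1)))

end Pool.Agent.Helper2_Pak
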