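import Pool.Agent.Helper2_Pak.StmtsK
import Pool.Agent.Helper2_Pack.Stmts3

/-!
# Statements on polygons
-/

namespace Pool.Agent.Helper2_Pak

open Pool.Agent.Helper2_Pack (Polygon pt Crosses region IsSimple chainVal)

/-! ### Paths -/

/-- the `i`-th edge of a path -/
def segP (L : Polygon) (i : ℕ) : Set ℂ := segment ℝ (pt (L.getD i 0)) (pt (L.getD (i + 1) 0))

/-- the points of a path (of a single point, if the list has length one) -/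
def pathSet (L : Polygon) : Set ℂ :=
  {z | (∃ i, i + 1 < L.length ∧ z ∈ segP L i) ∨ (∃ p, L = [p] ∧ z = pt p)}

/-- a simple path -/
def SimpleP (L : Polygon) : Prop :=
  (∀ i, i + 1 < L.length → L.getD i 0 ≠ L.getD (i + 1) 0) ∧
  ∀ i j : ℕ, i < j → j + 1 < L.length → ∀ z ∈ segP L i, z ∈ segP L j →
    j = i + 1 ∧ z = pt (L.getD j 0)

open Classical in
/-- the number of the edges of a path which are crossed by the upward ray from `z` -/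
noncomputable def cr (z : ℂ) (L : Polygon) : ℕ :=
  (L.zip L.tail).countP fun e => Crosses z (pt e.1) (pt e.2)

/-- PA1: a polygon from two paths with the same ends -/
def PA1Stmt : Prop := ∀ (F U : Polygon) (A B : ℚ × ℚ), F.head? = some A → U.head? = some A →
  F.getLast? = some B → U.getLast? = some B → A ≠ B → 2 ≤ F.length → 3 ≤ U.length →
  region (F.dropLast ++ U.tail.reverse) =
    {z | z ∈ pathSet F ∨ z ∈ pathSet U ∨ Odd (cr z F + cr z U)} ∧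
  (SimpleP F → SimpleP U → (∀ z ∈ pathSet F, z ∈ pathSet U → z = pt A ∨ z = pt B) →
    IsSimple (F.dropLast ++ U.tail.reverse))

/-- PA2: joining two paths -/
def PA2Stmt : Prop := ∀ (L L' : Polygon) (v : ℚ × ℚ), L.getLast? = some v → L'.head? = some v →
  pathSet (L ++ L'.tail) = pathSet L ∪ pathSet L' ∧
  (∀ z, cr z (L ++ L'.tail) = cr z L + cr z L') ∧
  (SimpleP L → SimpleP L' → (∀ z ∈ pathSet L, z ∈ pathSet L' → z = pt v) →
    SimpleP (L ++ L'.tail))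

/-- the path goes to the right, and at most every second edge is vertical -/
def WeakX (L : Polygon) : Prop :=
  (∀ i, i + 1 < L.length → (L.getD i 0).1 ≤ (L.getD (i + 1) 0).1 ∧ L.getD i 0 ≠ L.getD (i + 1) 0) ∧
  (∀ i, i + 2 < L.length → (L.getD i 0).1 < (L.getD (i + 2) 0).1)

/-- PA3: paths which go to the right -/
def PA3Stmt : Prop := ∀ (L : Polygon) (A B : ℚ × ℚ), WeakX L → 2 ≤ L.length → L.head? = some A →
  L.getLast? = some B → A.1 < B.1 →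
  SimpleP L ∧ SimpleP L.reverse ∧ (∀ z ∈ pathSet L, (A.1 : ℝ) ≤ z.re ∧ z.re ≤ B.1) ∧
  (∀ z, z ∉ pathSet L →
    cr z L % 2 = (open Classical in if (A.1 : ℝ) ≤ z.re ∧ z.re < B.1 ∧ z.im < chainVal L z.re then 1
      else 0))

/-- exchange of the coordinates -/
def swp (L : Polygon) : Polygon := L.map Prod.swap

/-- the path goes upwards -/
def StrictY (L : Polygon) : Prop := L.Pairwise fun p r => p.2 < r.2

/-- PA4: paths which go upwards -/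
def PA4Stmt : Prop := ∀ (L : Polygon) (A B : ℚ × ℚ), StrictY L → 2 ≤ L.length →
  L.head? = some A → L.getLast? = some B → A.1 = B.1 →
  SimpleP L ∧ SimpleP L.reverse ∧ pathSet L.reverse = pathSet L ∧ (∀ z, cr z L.reverse = cr z L) ∧
  (pathSet L = {z : ℂ | (A.2 : ℝ) ≤ z.im ∧ z.im ≤ B.2 ∧ z.re = chainVal (swp L) z.im}) ∧
  (∀ z, z ∉ pathSet L → cr z L % 2 = (open Classical in
    if (A.2 : ℝ) ≤ z.im ∧ z.im ≤ B.2 ∧ ((z.re < chainVal (swp L) z.im ∧ (A.1 : ℝ) ≤ z.re) ∨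
      (chainVal (swp L) z.im < z.re ∧ z.re < A.1)) then 1 else 0))

/-! ### The sides of the shape -/

/-- the bottom side -/
def botP (t : ℚ) : Polygon := sBot t ++ [(1 / 2 - t, -hh t)]

/-- the left side, upwards -/
def lefP (t : ℚ) : Polygon := (-1 / 2 + t, -hh t) :: sLeft t

/-- the top side -/
def topP (t : ℚ) : Polygon := (-1 / 2 + t, hh t) :: sTop t

/-- the right side, upwards -/
def rigP (t : ℚ) : Polygon := sRight t ++ [(1 / 2 - t, hh t)]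

/-- P1a: the sides of the shape -/
def P1aStmt : Prop := ∀ m : ℕ, 60 ≤ m →
  WeakX (botP ((1 / 2) ^ m)) ∧ StrictY (lefP ((1 / 2) ^ m)) ∧ WeakX (topP ((1 / 2) ^ m)) ∧
  StrictY (rigP ((1 / 2) ^ m)) ∧
  (∀ x : ℝ, -1 / 2 + (1 / 2) ^ m ≤ x → x ≤ 1 / 2 - (1 / 2) ^ m →
    chainVal (botP ((1 / 2) ^ m)) x = lo ((1 / 2) ^ m) x ∧
    chainVal (topP ((1 / 2) ^ m)) x = hi ((1 / 2) ^ m) x) ∧
  (∀ y : ℝ, -hh ((1 / 2 : ℝ) ^ m) ≤ y → y ≤ hh ((1 / 2 : ℝ) ^ m) →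
    chainVal (swp (lefP ((1 / 2) ^ m))) y = lf ((1 / 2) ^ m) y ∧
    chainVal (swp (rigP ((1 / 2) ^ m))) y = rt ((1 / 2) ^ m) y)

/-! ### The pieces of the boundary of the container -/

/-- the floor -/
def Lay.floorP (G : Lay) (t : ℚ) : Polygon :=
  (List.range G.M).flatMap (G.flPts t) ++ [((G.M : ℚ), 0)]

/-- the height at which the ceiling of the column `c` starts -/
def Lay.J (G : Lay) (t : ℚ) (c : ℕ) : ℚ :=
  if decide (c < G.M) && (G.kd c).isR then G.N + tipQ t (G.kd c).sig else G.topR c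

/-- the height at which the ceiling of the column `c` ends -/
def Lay.J' (G : Lay) (t : ℚ) (c : ℕ) : ℚ :=
  if (G.kd c).isL then G.N + tipQ t (G.kd c).sig else G.top c

/-- the ceiling of the column `c` -/
def Lay.ceilP (G : Lay) (t : ℚ) (c : ℕ) : Polygon := ((c : ℚ), G.J t c) :: G.cePts t c

/-- the wall at `X` -/
def Lay.wallP (G : Lay) (t : ℚ) (X : ℕ) : Polygon :=
  ((X : ℚ), if X = 0 then 0 else G.J' t (X - 1)) :: G.wallPts t X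

/-- the walls and the ceiling from left to right, up to the column `k` -/
def Lay.upP (G : Lay) (t : ℚ) (k : ℕ) : Polygon :=
  G.wallP t 0 ++ (List.range k).flatMap (fun c => G.cePts t c ++ G.wallPts t (c + 1))

/-- PB1: the floor -/
def PB1Stmt : Prop := ∀ (m : ℕ) (G : Lay), G.OK → Small ((1 / 2) ^ m) G →
  WeakX (G.floorP ((1 / 2) ^ m)) ∧ (G.floorP ((1 / 2) ^ m)).head? = some (0, 0) ∧
  (G.floorP ((1 / 2) ^ m)).getLast? = some ((G.M : ℚ), 0) ∧ 2 ≤ (G.floorP ((1 / 2) ^ m)).length ∧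
  (∀ c, c < G.M → ∀ x : ℝ, c ≤ x → x ≤ c + 1 →
    chainVal (G.floorP ((1 / 2) ^ m)) x = G.locFl ((1 / 2) ^ m) c (x - c)) ∧
  (pathSet (G.floorP ((1 / 2) ^ m)) = {z : ℂ | ∃ c, c < G.M ∧ (c : ℝ) ≤ z.re ∧ z.re ≤ c + 1 ∧
    z.im = G.locFl ((1 / 2) ^ m) c (z.re - c)})

/-- PB2: the ceiling of a column -/
def PB2Stmt : Prop := ∀ (m : ℕ) (G : Lay) (c : ℕ), G.OK → Small ((1 / 2) ^ m) G → c < G.M →
  WeakX (G.ceilP ((1 / 2) ^ m) c) ∧ 2 ≤ (G.ceilP ((1 / 2) ^ m) c).length ∧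
  (G.ceilP ((1 / 2) ^ m) c).getLast? = some ((c : ℚ) + 1, G.J' ((1 / 2) ^ m) c) ∧
  (∀ z ∈ pathSet (G.ceilP ((1 / 2) ^ m) c), z.im ≤ G.locCe ((1 / 2) ^ m) c (z.re - c) ∧
    G.N + ((G.kd c).h : ℝ) - 1 / 64 ≤ z.im ∧ z.im ≤ G.N + ((G.kd c).h : ℝ) + 5 / 4) ∧
  (∀ z : ℂ, (c : ℝ) ≤ z.re → z.re < c + 1 → z ∉ pathSet (G.ceilP ((1 / 2) ^ m) c) →
    (z.im < chainVal (G.ceilP ((1 / 2) ^ m) c) z.re ↔
      z.im ≤ G.locCe ((1 / 2) ^ m) c (z.re - c))) ∧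
  (∀ z : ℂ, (c : ℝ) ≤ z.re → z.re ≤ c + 1 → z.im = G.locCe ((1 / 2) ^ m) c (z.re - c) →
    z ∈ pathSet (G.ceilP ((1 / 2) ^ m) c)) ∧
  (∀ z ∈ pathSet (G.ceilP ((1 / 2) ^ m) c), (z.re ≤ c + (1 / 2) ^ m / 8 ∧ (G.kd c).isR = false) ∨
    (c + 1 - (1 / 2) ^ m / 8 ≤ z.re ∧ (G.kd c).isL = false) →
    |z.im - (G.N + ((G.kd c).h : ℝ))| ≤ (1 / 2) ^ m / 64)

/-- PB3: a wall; `w` is the function of the wall -/
def PB3Stmt : Prop := ∀ (m : ℕ) (G : Lay) (X : ℕ), G.OK → Small ((1 / 2) ^ m) G → X ≤ G.M →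
  (G.topL X = G.topR X → G.wallPts ((1 / 2) ^ m) X = []) ∧
  (G.topL X < G.topR X → StrictY (G.wallP ((1 / 2) ^ m) X) ∧
    (G.wallP ((1 / 2) ^ m) X).head? = some ((X : ℚ), (G.topL X : ℚ)) ∧
    (G.wallP ((1 / 2) ^ m) X).getLast? = some ((X : ℚ), (G.topR X : ℚ)) ∧
    ∀ y : ℝ, G.topL X ≤ y → y ≤ G.topR X →
      chainVal (swp (G.wallP ((1 / 2) ^ m) X)) y = X - (if ⌊y⌋₊ % 2 = 1 then
        ((1 / 2) ^ m) ^ 3 * max 0 (trap ((1 / 2) ^ m) (y - ⌊y⌋₊)) else 0)) ∧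
  (G.topR X < G.topL X → StrictY (G.wallP ((1 / 2) ^ m) X).reverse ∧
    (G.wallP ((1 / 2) ^ m) X).reverse.head? = some ((X : ℚ), (G.topR X : ℚ)) ∧
    (G.wallP ((1 / 2) ^ m) X).reverse.getLast? = some ((X : ℚ), (G.topL X : ℚ)) ∧
    ∀ y : ℝ, G.topR X ≤ y → y ≤ G.topL X →
      chainVal (swp (G.wallP ((1 / 2) ^ m) X).reverse) y = X + (if ⌊y⌋₊ % 2 = 1 then
        G.rw ((1 / 2) ^ m : ℝ) X ⌊y⌋₊ * max 0 (trap ((1 / 2) ^ m) (y - ⌊y⌋₊)) else 0))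

/-- PB4: the upper part of the boundary is a simple path -/
def PB4Stmt : Prop := ∀ (m : ℕ) (G : Lay), G.OK → Small ((1 / 2) ^ m) G →
  ∀ k, k ≤ G.M → SimpleP (G.upP ((1 / 2) ^ m) k) ∧ (G.upP ((1 / 2) ^ m) k).head? = some (0, 0) ∧
  (G.upP ((1 / 2) ^ m) k).getLast? = some ((k : ℚ), G.J ((1 / 2) ^ m) k) ∧
  pathSet (G.upP ((1 / 2) ^ m) k) = (⋃ X ∈ Finset.range (k + 1),
    pathSet (G.wallP ((1 / 2) ^ m) X)) ∪ (⋃ c ∈ Finset.range k,
    pathSet (G.ceilP ((1 / 2) ^ m) c)) ∧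
  (∀ z, cr z (G.upP ((1 / 2) ^ m) k) = (∑ X ∈ Finset.range (k + 1),
    cr z (G.wallP ((1 / 2) ^ m) X)) + (∑ c ∈ Finset.range k, cr z (G.ceilP ((1 / 2) ^ m) c)))

/-- PC1: floor and ceiling meet only at the ends -/
def PC1Stmt : Prop := ∀ (m : ℕ) (G : Lay), G.OK → Small ((1 / 2) ^ m) G →
  ∀ z ∈ pathSet (G.floorP ((1 / 2) ^ m)), z ∈ pathSet (G.upP ((1 / 2) ^ m) G.M) →
    z = pt (0, 0) ∨ z = pt ((G.M : ℚ), 0)

/-- PC2: the points enclosed by floor and ceiling -/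
def PC2Stmt : Prop := ∀ (m : ℕ) (G : Lay), G.OK → Small ((1 / 2) ^ m) G →
  {z | z ∈ pathSet (G.floorP ((1 / 2) ^ m)) ∨ z ∈ pathSet (G.upP ((1 / 2) ^ m) G.M) ∨
    Odd (cr z (G.floorP ((1 / 2) ^ m)) + cr z (G.upP ((1 / 2) ^ m) G.M))} =
    G.cont ((1 / 2) ^ m)

end Pool.Agent.Helper2_Pak
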