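import Pool.Agent.Helper2_Pak.Inst

/-!
# The layout of a system

A system in the variables `z₀, …, z_{s-1}` becomes a layout with `2 s + 1` odd main rows; the column
with `l = 2 i + 1` carries `z_i`, `l = 2 i + 2` carries `- z_i`, and `l = 2 s + 1` carries `0`.
There are `2 T + 3` blocks of `7` columns, `T = 2 s + (number of constraints)`; the left blocks are
`1, …, T`, the right blocks are `T + 2, …, 2 T + 1`, the others are blank.
-/

namespace Pool.Agent.Helper2_Pak

open Pool.Agent.Helper2_Pack (SInst Con)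

/-- blocks of seven columns -/
inductive Blk
  | blank
  /-- right: `z a + z b + z c ≤ o`; left: `- z a - z b - z c ≤ o` -/
  | sum (right : Bool) (a b c : ℕ) (o : ℤ)
  /-- two levers -/
  | inv (i j : ℕ)

/-- the columns of a block -/
def Blk.col (n : ℕ) : Blk → ℕ → Kind × ℕ
  | .blank, _ => (.b0, 0)
  | .sum true a b c o, k => match k with
    | 0 => (.U, n)
    | 1 => (.bW, 0)
    | 2 => (.bV, 0)
    | 3 => (.V3 o, a)
    | 4 => (.V2, b)
    | 5 => (.V1, c)
    | _ => (.Z, n)
  | .sum false a b c o, k => match k with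
    | 0 => (.Zw, n)
    | 1 => (.W1, c)
    | 2 => (.W2, b)
    | 3 => (.W3 o, a)
    | 4 => (.bW, 0)
    | 5 => (.bV, 0)
    | _ => (.Uv, n)
  | .inv i j, k => match k with
    | 0 => (.pL true, 2 * i + 1)
    | 1 => (.pR true, 2 * j + 1)
    | 3 => (.pL false, 2 * i + 2)
    | 4 => (.pR false, 2 * j + 2)
    | _ => (.b0, 0)

/-- sorting three numbers -/
def srt3 (x y z : ℕ) : ℕ × ℕ × ℕ :=
  if x ≤ y then (if y ≤ z then (x, y, z) else if x ≤ z then (x, z, y) else (z, x, y))
  else (if x ≤ z then (y, x, z) else if y ≤ z then (y, z, x) else (z, y, x))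

/-- the number of the odd row of the `j`-th variable of a sum (the dummy row `n` if there is none) -/
def idx (n : ℕ) (I : List ℕ) (j : ℕ) : ℕ := if j < I.length then 2 * I.getD j 0 + 1 else n

/-- the block of a sum -/
def sumBlk (right : Bool) (n : ℕ) (I : List ℕ) (o : ℤ) : Blk :=
  .sum right (srt3 (idx n I 0) (idx n I 1) (idx n I 2)).1
    (srt3 (idx n I 0) (idx n I 1) (idx n I 2)).2.1 (srt3 (idx n I 0) (idx n I 1) (idx n I 2)).2.2 o

/-- the block of a constraint -/
def conBlk (right : Bool) (n : ℕ) : Con → Blk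
  | .sum I κ => sumBlk right n I (if right then κ else -κ)
  | .inv i j => if right then .inv i j else .blank

/-- the number of left blocks -/
def nT (S : SInst) : ℕ := 2 * S.n + S.cons.length

/-- the number of odd main rows -/
def nR (S : SInst) : ℕ := 2 * S.n + 1

/-- the `e`-th block of a half -/
def halfBlk (S : SInst) (right : Bool) (e : ℕ) : Blk :=
  if e < S.n then .sum right (2 * e + 1) (nR S) (nR S) 1
  else if e < 2 * S.n then .sum right (2 * (e - S.n) + 1) (2 * (e - S.n) + 2) (nR S) 0
  else conBlk right (nR S) (S.cons.getD (e - 2 * S.n) (.inv 0 1))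

/-- the blocks of a system -/
def blk (S : SInst) (b : ℕ) : Blk :=
  if b = 0 ∨ b = nT S + 1 ∨ 2 * nT S + 2 ≤ b then .blank
  else if b ≤ nT S then halfBlk S false (b - 1)
  else halfBlk S true (b - nT S - 2)

/-- the layout of a system -/
def lay (S : SInst) : Lay where
  n := nR S
  M := 7 * (2 * nT S + 3)
  kd := fun c => ((blk S (c / 7)).col (nR S) (c % 7)).1
  l := fun c => ((blk S (c / 7)).col (nR S) (c % 7)).2

/-- the nonlinearity of the levers -/
noncomputable def eps1 (t : ℝ) : ℝ := 8 * t ^ 11 / (1 + t ^ 6)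

end Pool.Agent.Helper2_Pak
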